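import Pool.Agent.Lib_MP_1209e6_fl.Defs
import Pool.Agent.Lib_MP_1209e6_ag.Der

/-! PIECE D8: finitely many global fields. -/

set_option autoImplicit false

namespace Pool.Agent.CampanaFlow

variable {K : Type} [Field K] [Algebra ℂ K]

/-- a derivation is determined by its values on finitely many generators -/
theorem finite_der (hfg : ∃ T : Finset K, IntermediateField.adjoin ℂ (T : Set K) = ⊤) :
    Module.Finite K (Derivation ℂ K K) := by
  obtain ⟨T, hT⟩ := hfg
  let φ : Derivation ℂ K K →ₗ[K] (T → K) :=
    { toFun := fun D t => D t
      map_add' := fun D E => rfl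
      map_smul' := fun c D => rfl }
  refine Module.Finite.of_injective φ fun D E hDE => ?_
  refine Derivation.ext fun u => ?_
  have hu : u ∈ IntermediateField.adjoin ℂ (T : Set K) := hT ▸ IntermediateField.mem_top
  have hsub : D u - E u = 0 := by
    induction hu using IntermediateField.adjoin_induction with
    | mem x hx =>
      have h := congrFun hDE ⟨x, hx⟩
      exact sub_eq_zero.2 h
    | algebraMap x => rw [Derivation.map_algebraMap, Derivation.map_algebraMap, sub_zero]
    | add x y hx hy ihx ihy =>
      rw [map_add, map_add]
      linear_combination ihx + ihy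
    | inv x hx ihx =>
      rw [sub_eq_zero] at ihx
      rw [Derivation.leibniz_inv, Derivation.leibniz_inv, ihx, sub_self]
    | mul x y hx hy ihx ihy =>
      rw [Derivation.leibniz, Derivation.leibniz, sub_eq_zero.1 ihx, sub_eq_zero.1 ihy, sub_self]
  exact sub_eq_zero.1 hsub

/-- if `u` is transcendental over `k` there is a `k`-linear derivation with `D u = 1`
(`Pool.Agent.Campana.exists_derivation` over `k`, restricted to scalars in `ℂ`) -/
theorem isAlgebraic_of_der (k : IntermediateField ℂ K) (u : K)
    (h : ∀ D : Derivation ℂ K K, (∀ a ∈ k, D a = 0) → D u = 0) : IsAlgebraic k u := by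
  by_contra hu
  have hind : AlgebraicIndependent k (fun _ : Unit => u) := by
    rw [algebraicIndependent_unique_type_iff]
    exact hu
  obtain ⟨D, hD⟩ := Pool.Agent.Campana.exists_derivation (k := k) (fun _ : Unit => u) hind
    (fun _ => 1)
  have h1 : D u = 1 := hD ()
  have h2 := h (D.restrictScalars ℂ) fun a ha => by
    change D a = 0
    exact D.map_algebraMap (⟨a, ha⟩ : k)
  have h3 : D u = 0 := h2
  rw [h1] at h3
  exact one_ne_zero h3

/-- For each `i` the submodule of the derivations vanishing on `k i` is the span of the global fields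
(`span`, and conversely), finitely generated by `finite_der`, so it is the span of finitely many global
fields; take all of them together. If `u` is killed by these, it is killed by all derivations vanishing on
`k i`. -/
theorem finite_fields (hfg : ∃ T : Finset K, IntermediateField.adjoin ℂ (T : Set K) = ⊤)
    {r : ℕ} (k : Fin r → IntermediateField ℂ K) (N : Fin r → ℕ) (x : ∀ i, Fin (N i + 1) → K)
    (h : ∀ i, AlmostHomogeneous (k i) (x i)) :
    ∃ (m : ℕ) (D : Fin m → Derivation ℂ K K), (∀ a, ∃ i, GlobalField (k i) (x i) (D a)) ∧
      ∀ u, (∀ a, D a u = 0) → ∀ i, IsAlgebraic (k i) u := by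
  classical
  have hfin := finite_der hfg
  have hS : ∀ i, ∃ S : Finset (Derivation ℂ K K), (S : Set (Derivation ℂ K K)) ⊆
      {E : Derivation ℂ K K | GlobalField (k i) (x i) E} ∧
      Submodule.span K {E : Derivation ℂ K K | GlobalField (k i) (x i) E} =
        Submodule.span K (S : Set (Derivation ℂ K K)) := fun i =>
    (Submodule.fg_span_iff_fg_span_finset_subset _).1 (IsNoetherian.noetherian _)
  choose S hS1 hS2 using hS
  let U : Finset (Derivation ℂ K K) := Finset.univ.biUnion S
  refine ⟨U.card, fun a => (U.equivFin.symm a : Derivation ℂ K K), fun a => ?_, fun u hu i => ?_⟩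
  · obtain ⟨i, _, hi⟩ := Finset.mem_biUnion.1 (U.equivFin.symm a).2
    exact ⟨i, hS1 i hi⟩
  · refine isAlgebraic_of_der (k i) u fun D hD => ?_
    have h1 := (h i).span D hD
    rw [hS2 i] at h1
    have hU : ∀ E ∈ S i, E u = 0 := fun E hE => by
      have hEU : E ∈ U := Finset.mem_biUnion.2 ⟨i, Finset.mem_univ i, hE⟩
      have h2 := hu (U.equivFin ⟨E, hEU⟩)
      beta_reduce at h2
      rw [Equiv.symm_apply_apply] at h2
      exact h2
    clear hD
    induction h1 using Submodule.span_induction with
    | mem E hE => exact hU E hE
    | zero => rfl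
    | add E F _ _ hE hF =>
      rw [Derivation.add_apply, hE, hF, add_zero]
    | smul c E _ hE =>
      rw [Derivation.smul_apply, hE, smul_zero]

end Pool.Agent.CampanaFlow
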