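import Mathlib

/-!
# Definitions: almost homogeneous models, flows of derivations on complex points, curves of points

`MP_1209e6_ag`: varieties which are covered by almost homogeneous fibrations in transverse directions
are special and Brody-special.
-/

set_option autoImplicit false

open Filter Topology

namespace Pool.Agent.CampanaFlow

section models

variable {K : Type} [Field K] [Algebra ℂ K]

/-- The affine chart `k[x_0/x_j, …, x_N/x_j]` of the projective variety over `k` with generic point
`[x_0 : … : x_N]`. -/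
def Chart (k : IntermediateField ℂ K) {N : ℕ} (x : Fin (N + 1) → K) (j : Fin (N + 1)) :
    Subalgebra ℂ K :=
  Algebra.adjoin ℂ ((k : Set K) ∪ Set.range fun i => x i / x j)

/-- `D` is a global vector field of the projective variety `V` over `k` with generic point
`[x_0 : … : x_N]`: it is `k`-linear and preserves the coordinate rings of all affine charts of `V`. -/
def GlobalField (k : IntermediateField ℂ K) {N : ℕ} (x : Fin (N + 1) → K)
    (D : Derivation ℂ K K) : Prop :=
  (∀ a ∈ k, D a = 0) ∧ ∀ j, ∀ f ∈ Chart k x j, D f ∈ Chart k x j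

/-- `K` is the function field of the projective variety `V` over `k` with generic point
`[x_0 : … : x_N]`, and `V` is almost homogeneous: its global vector fields generate the tangent space
at the generic point. -/
structure AlmostHomogeneous (k : IntermediateField ℂ K) {N : ℕ} (x : Fin (N + 1) → K) : Prop where
  ne_zero : ∀ i, x i ≠ 0
  gen : IntermediateField.adjoin ℂ ((k : Set K) ∪ Set.range fun i => x i / x 0) = ⊤
  span : ∀ D : Derivation ℂ K K, (∀ a ∈ k, D a = 0) →
    D ∈ Submodule.span K {E : Derivation ℂ K K | GlobalField k x E}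

end models

section flow

variable {S : Type} [CommRing S] [Algebra ℂ S]

/-- `n`-th Taylor coefficient of `exp (t D) f` at the point `q` -/
noncomputable def tc (D : Derivation ℂ S S) (q : S →ₐ[ℂ] ℂ) (f : S) (n : ℕ) : ℂ :=
  q (D^[n] f) / n.factorial

/-- the series `q (exp (t D) f)` converges absolutely -/
def Conv (D : Derivation ℂ S S) (q : S →ₐ[ℂ] ℂ) (t : ℂ) (f : S) : Prop :=
  Summable fun n => ‖tc D q f n‖ * ‖t‖ ^ n

/-- the number `q (exp (t D) f)` -/
noncomputable def ev (D : Derivation ℂ S S) (q : S →ₐ[ℂ] ℂ) (t : ℂ) (f : S) : ℂ :=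
  ∑' n, tc D q f n * t ^ n

/-- `q' = q ∘ exp (t D)`, where everything converges -/
def IsFlow (D : Derivation ℂ S S) (q : S →ₐ[ℂ] ℂ) (t : ℂ) (q' : S →ₐ[ℂ] ℂ) : Prop :=
  ∀ f, Conv D q t f ∧ q' f = ev D q t f

/-- `q' = q ∘ exp (t D)` on all functions for which the series converges -/
def Step (D : Derivation ℂ S S) (q : S →ₐ[ℂ] ℂ) (t : ℂ) (q' : S →ₐ[ℂ] ℂ) : Prop :=
  ∀ f, Conv D q t f → q' f = ev D q t f

/-- `D` extends to a complete family of projective varieties over the spectrum of the ring generated by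
the constants `c`; `X j l` is the quotient `x_l / x_j` of homogeneous coordinates. -/
structure ChartData (D : Derivation ℂ S S) where
  N : ℕ
  e : ℕ
  X : Fin (N + 1) → Fin (N + 1) → S
  X_self : ∀ j, X j j = 1
  X_mul : ∀ j l i, X j l * X l i = X j i
  c : Fin e → S
  Dc : ∀ a, D (c a) = 0
  P : Fin (N + 1) → Fin (N + 1) → MvPolynomial (Fin e ⊕ Fin (N + 1)) ℂ
  DX : ∀ j l, D (X j l) = MvPolynomial.aeval (Sum.elim c (X j)) (P j l)
  β : Fin (N + 1) → S
  β_mem : ∀ j, β j ∈ Algebra.adjoin ℂ (Set.range (Sum.elim c (X j)))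
  β_unit : ∀ j, IsUnit (β j)
  β_loc : ∀ j f, ∃ m : ℕ, f * β j ^ m ∈ Algebra.adjoin ℂ (Set.range (Sum.elim c (X j)))

/-- a bound for the degrees of the coefficients of the vector field -/
noncomputable def ChartData.deg {D : Derivation ℂ S S} (cd : ChartData D) : ℕ :=
  ∑ j, ∑ l, (cd.P j l).totalDegree

/-- the size of the coefficients of the vector field at the point `q` -/
noncomputable def ChartData.size {D : Derivation ℂ S S} (cd : ChartData D) (q : S →ₐ[ℂ] ℂ) : ℝ :=
  (1 + cd.deg) * ∑ j, ∑ l, ∑ s ∈ (cd.P j l).support, ‖(cd.P j l).coeff s‖ *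
    ((∏ a, ‖q (cd.c a)‖ ^ s (Sum.inl a)) * ∏ i, (2 : ℝ) ^ s (Sum.inr i))

/-- A holomorphic family of points of `S` on `U` with exceptional set `B`. -/
structure IsCurve (U : Set ℂ) (γ : ℂ → S →ₐ[ℂ] ℂ) (B : Set ℂ) : Prop where
  disc : ∀ z ∈ U, ∀ᶠ w in 𝓝[≠] z, w ∉ B
  ana : ∀ f, ∀ z ∈ U, z ∉ B → AnalyticAt ℂ (fun w => γ w f) z
  mer : ∀ f, ∀ z ∈ U, MeromorphicAt (fun w => γ w f) z

/-- iterated word of derivations: `word d [i₁, …, i_m] f = D_{i₁} (D_{i₂} (… f))` -/
def word {ι : Type} (d : ι → Derivation ℂ S S) : List ι → S → S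
  | [], f => f
  | i :: l, f => d i (word d l f)

/-- all Taylor coefficients of `f` along the composition of the flows of `l` (the head of `l` is the
last flow) starting at `p` vanish -/
def Kills {ι : Type} (d : ι → Derivation ℂ S S) (p : S →ₐ[ℂ] ℂ) : List ι → S → Prop
  | [], f => p f = 0
  | i :: l, f => ∀ n : ℕ, Kills d p l ((d i)^[n] f)

/-- `q` is obtained from `p` by following the flows in the list `l` (the head is the last one) during
the times in the second list -/
def FlowsTo {ι : Type} (d : ι → Derivation ℂ S S) (p : S →ₐ[ℂ] ℂ) :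
    List ι → List ℂ → (S →ₐ[ℂ] ℂ) → Prop
  | [], [], q => q = p
  | i :: l, t :: ts, q => ∃ q', FlowsTo d p l ts q' ∧ IsFlow (d i) q' t q
  | _, _, _ => False

end flow

end Pool.Agent.CampanaFlow
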