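import Pool.Agent.Lib_MP_1209e6_fl.D6
import Pool.Agent.Lib_MP_1209e6_fl.Defs

/-! PIECE D7: the ring `S` and the chart data. -/

set_option autoImplicit false

namespace Pool.Agent.CampanaFlow

variable {K : Type} [Field K] [Algebra ℂ K]

/-- elements of an algebra generated by a set involve finitely many generators -/
theorem D7_fin {s : Set K} {x : K} (hx : x ∈ Algebra.adjoin ℂ s) :
    ∃ F : Finset K, (F : Set K) ⊆ s ∧ x ∈ Algebra.adjoin ℂ (F : Set K) := by
  classical
  induction hx using Algebra.adjoin_induction with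
  | mem x hx =>
    exact ⟨{x}, by simpa using hx, Algebra.subset_adjoin (by simp)⟩
  | algebraMap r => exact ⟨∅, by simp, Subalgebra.algebraMap_mem _ r⟩
  | add x y _ _ hx hy =>
    obtain ⟨F, hF, hxF⟩ := hx
    obtain ⟨G, hG, hyG⟩ := hy
    refine ⟨F ∪ G, by rw [Finset.coe_union]; exact Set.union_subset hF hG, ?_⟩
    exact Subalgebra.add_mem _ (Algebra.adjoin_mono (by simp) hxF)
      (Algebra.adjoin_mono (by simp) hyG)
  | mul x y _ _ hx hy =>
    obtain ⟨F, hF, hxF⟩ := hx
    obtain ⟨G, hG, hyG⟩ := hy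
    refine ⟨F ∪ G, by rw [Finset.coe_union]; exact Set.union_subset hF hG, ?_⟩
    exact Subalgebra.mul_mem _ (Algebra.adjoin_mono (by simp) hxF)
      (Algebra.adjoin_mono (by simp) hyG)

/-- Finitely many elements `c` of `k` are enough for everything: `D (x_l/x_j)` is a polynomial over `ℂ`
in `c` and the `x_i/x_j` for all `j, l`, and each of the elements of `T` is a quotient of polynomials over
`ℂ` in `c` and the `x_i / x_0` (`IntermediateField.mem_adjoin_iff` / `mem_adjoin_range_iff`, each element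
of `Algebra.adjoin ℂ (k ∪ …)` involves finitely many elements of `k`). -/
theorem exists_constants (k : IntermediateField ℂ K) {N : ℕ} (x : Fin (N + 1) → K)
    (hx : ∀ i, x i ≠ 0)
    (hgen : IntermediateField.adjoin ℂ ((k : Set K) ∪ Set.range fun i => x i / x 0) = ⊤)
    (D : Derivation ℂ K K) (hD : GlobalField k x D) (T : Finset K) :
    ∃ (e : ℕ) (c : Fin e → K), (∀ a, c a ∈ k) ∧
      (∀ j l, D (x l / x j) ∈ Algebra.adjoin ℂ (Set.range (Sum.elim c fun i => x i / x j))) ∧
      ∀ j, ∀ u ∈ T, u ∈ IntermediateField.adjoin ℂ (Set.range (Sum.elim c fun i => x i / x j)) := by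
  classical
  have h1 : ∀ j l, ∃ F : Finset K, (F : Set K) ⊆ ((k : Set K) ∪ Set.range fun i => x i / x j) ∧
      D (x l / x j) ∈ Algebra.adjoin ℂ (F : Set K) := by
    intro j l
    apply D7_fin
    exact hD.2 j _ (Algebra.subset_adjoin (Or.inr ⟨l, rfl⟩))
  have h2 : ∀ u : K, ∃ F : Finset K, (F : Set K) ⊆ ((k : Set K) ∪ Set.range fun i => x i / x 0) ∧
      u ∈ IntermediateField.adjoin ℂ (F : Set K) := by
    intro u
    apply IntermediateField.exists_finset_of_mem_adjoin
    rw [hgen]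
    trivial
  choose F hF1 hF2 using h1
  choose G hG1 hG2 using h2
  let C : Finset K := ((Finset.univ.biUnion fun j => Finset.univ.biUnion fun l => F j l) ∪
    T.biUnion G).filter (· ∈ k)
  let c : Fin C.card → K := fun a => (C.equivFin.symm a : K)
  have hc1 : ∀ a, c a ∈ C := fun a => (C.equivFin.symm a).2
  have hc2 : ∀ y ∈ C, ∃ a, c a = y := by
    intro y hy
    exact ⟨C.equivFin ⟨y, hy⟩, by simp [c]⟩
  refine ⟨C.card, c, fun a => (Finset.mem_filter.1 (hc1 a)).2, ?_, ?_⟩
  · intro j l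
    refine Algebra.adjoin_mono ?_ (hF2 j l)
    intro y hy
    rcases hF1 j l hy with h | ⟨i, h⟩
    · have hyC : y ∈ C := by
        refine Finset.mem_filter.2 ⟨Finset.mem_union_left _ ?_, h⟩
        exact Finset.mem_biUnion.2 ⟨j, Finset.mem_univ _,
          Finset.mem_biUnion.2 ⟨l, Finset.mem_univ _, hy⟩⟩
      obtain ⟨a, ha⟩ := hc2 y hyC
      exact ⟨Sum.inl a, ha⟩
    · exact ⟨Sum.inr i, h⟩
  · intro j u hu
    have hle : IntermediateField.adjoin ℂ (G u : Set K) ≤
        IntermediateField.adjoin ℂ (Set.range (Sum.elim c fun i => x i / x j)) := by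
      rw [IntermediateField.adjoin_le_iff]
      intro y hy
      rcases hG1 u hy with h | ⟨i, h⟩
      · have hyC : y ∈ C := by
          refine Finset.mem_filter.2 ⟨Finset.mem_union_right _ ?_, h⟩
          exact Finset.mem_biUnion.2 ⟨u, hu, hy⟩
        obtain ⟨a, ha⟩ := hc2 y hyC
        exact IntermediateField.subset_adjoin ℂ _ ⟨Sum.inl a, ha⟩
      · have h3 : y = (x i / x j) / (x 0 / x j) := by
          rw [div_div_div_cancel_right₀ (hx j)]
          exact h.symm
        rw [h3]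
        exact div_mem (IntermediateField.subset_adjoin ℂ _ ⟨Sum.inr i, rfl⟩)
          (IntermediateField.subset_adjoin ℂ _ ⟨Sum.inr 0, rfl⟩)
    exact hle (hG2 u)

/-- a derivation which maps generators of a subalgebra into the subalgebra preserves it -/
theorem D7_pres (D : Derivation ℂ K K) (R : Subalgebra ℂ K) (s : Set K)
    (hs : Algebra.adjoin ℂ s ≤ R) (h : ∀ y ∈ s, D y ∈ R) :
    ∀ f ∈ Algebra.adjoin ℂ s, D f ∈ R := by
  intro f hf
  induction hf using Algebra.adjoin_induction with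
  | mem x hx => exact h x hx
  | algebraMap r => rw [Derivation.map_algebraMap]; exact R.zero_mem
  | add x y _ _ hx hy => rw [map_add]; exact R.add_mem hx hy
  | mul x y hx' hy' hx hy =>
    rw [Derivation.leibniz, smul_eq_mul, smul_eq_mul]
    exact R.add_mem (R.mul_mem (hs hx') hy) (R.mul_mem (hs hy') hx)

/-- membership in a subalgebra generated by a range, inside a larger subalgebra -/
theorem D7_lift {S : Subalgebra ℂ K} {σ : Type} (g : σ → S) (z : S)
    (hz : (z : K) ∈ Algebra.adjoin ℂ (Set.range fun a => (g a : K))) :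
    ∃ P : MvPolynomial σ ℂ, z = MvPolynomial.aeval g P := by
  rw [Algebra.adjoin_range_eq_range_aeval] at hz
  obtain ⟨P, hP⟩ := hz
  refine ⟨P, ?_⟩
  apply Subtype.ext
  have h1 : ((MvPolynomial.aeval g P : S) : K) = S.val (MvPolynomial.aeval g P) := rfl
  rw [h1]
  have h2 := DFunLike.congr_fun (MvPolynomial.comp_aeval (R := ℂ) g S.val) P
  rw [← hP]
  exact h2.symm

/-- For each `i` take `c` from `exists_constants` with `T` generating `K` (`hfg`), and
`R (i, j) = Algebra.adjoin ℂ (range (Sum.elim c (x_· / x_j)))`; its fractions are all of `K`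
(`IntermediateField.mem_adjoin_range_iff` or `Algebra.adjoin` fractions). `spread` gives `S`. `D i`
preserves `S`: for `f ∈ S`, `f β^m = r ∈ R (i, 0)`, `D i r ∈ R (i, 0)`, `D i β ∈ R (i, 0)` (the
generators are mapped into it, `c` to `0`), so `D i f = (D i r - m r β⁻¹ D i β) β⁻¹^m ∈ S`. The chart
data: `X j l = x_l / x_j`, `P` from `Algebra.adjoin_range_eq_range_aeval`. -/
theorem exists_ring (hfg : ∃ T : Finset K, IntermediateField.adjoin ℂ (T : Set K) = ⊤)
    {ι : Type} [Finite ι] (D : ι → Derivation ℂ K K)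
    (hD : ∀ i, ∃ (k : IntermediateField ℂ K) (N : ℕ) (x : Fin (N + 1) → K), (∀ l, x l ≠ 0) ∧
      IntermediateField.adjoin ℂ ((k : Set K) ∪ Set.range fun l => x l / x 0) = ⊤ ∧
      GlobalField k x (D i)) (T : Finset K) :
    ∃ (S : Subalgebra ℂ K) (d : ι → Derivation ℂ S S), Algebra.FiniteType ℂ S ∧
      (T : Set K) ⊆ S ∧ (∀ i (f : S), ((d i f : S) : K) = D i f) ∧
      ∀ i, Nonempty (ChartData (d i)) := by
  classical
  obtain ⟨T₀, hT₀⟩ := hfg
  choose k N x hx hgen hGF using hD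
  have hc := fun i => exists_constants (k i) (x i) (hx i) (hgen i) (D i) (hGF i) T₀
  choose e c hck hDc hTc using hc
  let gen : ∀ i, Fin (N i + 1) → (Fin (e i) ⊕ Fin (N i + 1)) → K :=
    fun i j => Sum.elim (c i) fun l => x i l / x i j
  let R : (Σ i, Fin (N i + 1)) → Subalgebra ℂ K := fun a =>
    Algebra.adjoin ℂ (Set.range (gen a.1 a.2))
  have hR : ∀ a, (R a).FG := by
    intro a
    exact Subalgebra.fg_def.2 ⟨_, Set.finite_range _, rfl⟩
  have hfrac : ∀ a (u : K), ∃ r ∈ R a, ∃ s ∈ R a, s ≠ 0 ∧ u = r / s := by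
    intro a u
    have hu : u ∈ IntermediateField.adjoin ℂ (Set.range (gen a.1 a.2)) := by
      have h1 : IntermediateField.adjoin ℂ (T₀ : Set K) ≤
          IntermediateField.adjoin ℂ (Set.range (gen a.1 a.2)) := by
        rw [IntermediateField.adjoin_le_iff]
        intro y hy
        exact hTc a.1 a.2 y hy
      rw [hT₀] at h1
      exact h1 trivial
    rw [IntermediateField.mem_adjoin_iff_div] at hu
    obtain ⟨r, hr, s, hs, h⟩ := hu
    by_cases hs0 : s = 0
    · refine ⟨0, Subalgebra.zero_mem _, 1, Subalgebra.one_mem _, one_ne_zero, ?_⟩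
      rw [h, hs0, div_zero, zero_div]
    · exact ⟨r, hr, s, hs, hs0, h⟩
  obtain ⟨S, hSfg, hTS, hRS, hβ⟩ := spread R hR hfrac T
  choose β hβR hβ0 hβinv hβloc using hβ
  have hDR : ∀ i j, ∀ f ∈ R ⟨i, j⟩, D i f ∈ R ⟨i, j⟩ := by
    intro i j
    apply D7_pres (D i) (R ⟨i, j⟩) _ (le_refl _)
    rintro y ⟨a | l, rfl⟩
    · show D i (c i a) ∈ _
      rw [(hGF i).1 _ (hck i a)]
      exact Subalgebra.zero_mem _
    · exact hDc i j l
  have hDS : ∀ i, ∀ f ∈ S, D i f ∈ S := by
    intro i f hf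
    obtain ⟨m, hm⟩ := hβloc ⟨i, 0⟩ f hf
    set b := β ⟨i, 0⟩ with hb
    have hb0 : b ≠ 0 := hβ0 ⟨i, 0⟩
    have h1 : D i (f * b ^ m) ∈ S := hRS _ (hDR i 0 _ hm)
    have h2 : D i b ∈ S := hRS _ (hDR i 0 _ (hβR ⟨i, 0⟩))
    have hbS : b ∈ S := hRS _ (hβR ⟨i, 0⟩)
    have hbi : b⁻¹ ∈ S := hβinv ⟨i, 0⟩
    rw [Derivation.leibniz, Derivation.leibniz_pow] at h1
    simp only [smul_eq_mul] at h1
    have h3 : f * (m • (b ^ (m - 1) * D i b)) ∈ S := by
      refine S.mul_mem hf ?_
      refine S.nsmul_mem ?_ m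
      exact S.mul_mem (S.pow_mem hbS _) h2
    have h4 : b ^ m * D i f ∈ S := by
      have := S.sub_mem h1 h3
      rwa [add_sub_cancel_left] at this
    have h5 : D i f = (b⁻¹) ^ m * (b ^ m * D i f) := by
      rw [← mul_assoc, ← mul_pow, inv_mul_cancel₀ hb0, one_pow, one_mul]
    rw [h5]
    exact S.mul_mem (S.pow_mem hbi _) h4
  let d : ι → Derivation ℂ S S := fun i => Derivation.mk'
    (LinearMap.codRestrict (Subalgebra.toSubmodule S)
      ((D i).toLinearMap.comp S.val.toLinearMap) (fun f => hDS i f f.2)) (by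
        intro a b
        apply Subtype.ext
        show D i ((a : K) * b) = (a : K) * D i b + (b : K) * D i a
        rw [Derivation.leibniz]
        rfl)
  have hd : ∀ i (f : S), ((d i f : S) : K) = D i f := fun i f => rfl
  refine ⟨S, d, (Subalgebra.fg_iff_finiteType S).1 hSfg, hTS, hd, ?_⟩
  intro i
  have hgS : ∀ j a, gen i j a ∈ S := fun j a => hRS ⟨i, j⟩ (Algebra.subset_adjoin ⟨a, rfl⟩)
  let XS : Fin (N i + 1) → Fin (N i + 1) → S := fun j l => ⟨x i l / x i j, hgS j (Sum.inr l)⟩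
  let cS : Fin (e i) → S := fun a => ⟨c i a, hgS 0 (Sum.inl a)⟩
  have hcoe : ∀ j, (fun a => ((Sum.elim cS (XS j) a : S) : K)) = gen i j := by
    intro j
    funext a
    rcases a with a | l <;> rfl
  have hlift : ∀ j (z : S), (z : K) ∈ R ⟨i, j⟩ →
      ∃ P : MvPolynomial (Fin (e i) ⊕ Fin (N i + 1)) ℂ,
        z = MvPolynomial.aeval (Sum.elim cS (XS j)) P := by
    intro j z hz
    apply D7_lift
    rw [hcoe j]
    exact hz
  have hlift' : ∀ j (z : S), (z : K) ∈ R ⟨i, j⟩ →
      z ∈ Algebra.adjoin ℂ (Set.range (Sum.elim cS (XS j))) := by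
    intro j z hz
    obtain ⟨P, hP⟩ := hlift j z hz
    rw [Algebra.adjoin_range_eq_range_aeval, hP]
    exact ⟨P, rfl⟩
  have hP : ∀ j l, ∃ P : MvPolynomial (Fin (e i) ⊕ Fin (N i + 1)) ℂ,
      d i (XS j l) = MvPolynomial.aeval (Sum.elim cS (XS j)) P := by
    intro j l
    apply hlift
    rw [hd]
    exact hDc i j l
  choose P hP using hP
  have hβS : ∀ j, β ⟨i, j⟩ ∈ S := fun j => hRS _ (hβR ⟨i, j⟩)
  refine ⟨⟨N i, e i, XS, ?_, ?_, cS, ?_, P, hP, fun j => ⟨β ⟨i, j⟩, hβS j⟩, ?_, ?_, ?_⟩⟩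
  · intro j
    apply Subtype.ext
    exact div_self (hx i j)
  · intro j l i'
    apply Subtype.ext
    show x i l / x i j * (x i i' / x i l) = x i i' / x i j
    have h1 := hx i l
    have h2 := hx i j
    field_simp
  · intro a
    apply Subtype.ext
    rw [hd]
    exact (hGF i).1 _ (hck i a)
  · intro j
    exact hlift' j _ (hβR ⟨i, j⟩)
  · intro j
    refine IsUnit.of_mul_eq_one (⟨(β ⟨i, j⟩)⁻¹, hβinv ⟨i, j⟩⟩ : S) ?_
    apply Subtype.ext
    exact mul_inv_cancel₀ (hβ0 ⟨i, j⟩)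
  · intro j f
    obtain ⟨m, hm⟩ := hβloc ⟨i, j⟩ f f.2
    exact ⟨m, hlift' j _ hm⟩

end Pool.Agent.CampanaFlow
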