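import Pool.Agent.Lib_MP_1209e6_fl.Defs

/-! PIECE F1: formal exponentials of a derivation. -/

set_option autoImplicit false

open Filter Topology

namespace Pool.Agent.CampanaFlow

variable {S : Type} [CommRing S] [Algebra ℂ S] {D : Derivation ℂ S S} {q q' q'' : S →ₐ[ℂ] ℂ}
  {t : ℂ} {f g : S}

/-- Leibniz: induction on `n` (Pascal), `Finset.sum_antidiagonal_choose_succ_mul` style. -/
theorem iterate_leibniz (D : Derivation ℂ S S) (f g : S) (n : ℕ) :
    D^[n] (f * g) = ∑ ij ∈ Finset.HasAntidiagonal.antidiagonal n,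
      (n.choose ij.1 : S) * (D^[ij.1] f * D^[ij.2] g) := by
  induction n with
  | zero => simp
  | succ n ih =>
    rw [Finset.sum_antidiagonal_choose_succ_mul (fun i j => D^[i] f * D^[j] g) n]
    rw [Function.iterate_succ_apply', ih, map_sum, ← Finset.sum_add_distrib]
    refine Finset.sum_congr rfl fun ij hij => ?_
    rw [← n.choose_symm_of_eq_add (Finset.HasAntidiagonal.mem_antidiagonal.1 hij).symm]
    have h1 : D (((n.choose ij.1 : ℕ) : S) * (D^[ij.1] f * D^[ij.2] g)) =
        (n.choose ij.1 : S) * D (D^[ij.1] f * D^[ij.2] g) := by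
      rw [← nsmul_eq_mul, map_nsmul, nsmul_eq_mul]
    rw [h1, Derivation.leibniz, Function.iterate_succ_apply', Function.iterate_succ_apply']
    simp only [smul_eq_mul]
    ring

theorem tc_mul (n : ℕ) : tc D q (f * g) n =
    ∑ ij ∈ Finset.HasAntidiagonal.antidiagonal n, tc D q f ij.1 * tc D q g ij.2 := by
  unfold tc
  rw [iterate_leibniz, map_sum, Finset.sum_div]
  refine Finset.sum_congr rfl fun ij hij => ?_
  have hn : ij.1 + ij.2 = n := Finset.HasAntidiagonal.mem_antidiagonal.1 hij
  rw [map_mul, map_mul, map_natCast]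
  have h1 : ((n.choose ij.1 : ℕ) : ℂ) * (ij.1.factorial * ij.2.factorial) = n.factorial := by
    have h := Nat.add_choose_mul_factorial_mul_factorial ij.2 ij.1
    rw [add_comm ij.2 ij.1, hn] at h
    rw [← h]
    push_cast
    ring
  have h2 : ((ij.1.factorial : ℕ) : ℂ) ≠ 0 := by exact_mod_cast ij.1.factorial_ne_zero
  have h3 : ((ij.2.factorial : ℕ) : ℂ) ≠ 0 := by exact_mod_cast ij.2.factorial_ne_zero
  have h4 : ((n.factorial : ℕ) : ℂ) ≠ 0 := by exact_mod_cast n.factorial_ne_zero
  rw [div_mul_div_comm, div_eq_div_iff h4 (mul_ne_zero h2 h3), ← h1]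
  ring

theorem tc_add (n : ℕ) : tc D q (f + g) n = tc D q f n + tc D q g n := by
  unfold tc
  rw [iterate_map_add, map_add, add_div]

theorem conv_add (hf : Conv D q t f) (hg : Conv D q t g) : Conv D q t (f + g) := by
  unfold Conv at *
  refine Summable.of_nonneg_of_le (fun n => by positivity) (fun n => ?_) (hf.add hg)
  rw [tc_add, ← add_mul]
  exact mul_le_mul_of_nonneg_right (norm_add_le _ _) (by positivity)

theorem F1_norm (hf : Conv D q t f) : Summable fun n => ‖tc D q f n * t ^ n‖ := by
  unfold Conv at hf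
  refine hf.congr fun n => ?_
  rw [norm_mul, norm_pow]

theorem F1_coef (n : ℕ) : ∑ kl ∈ Finset.HasAntidiagonal.antidiagonal n,
    tc D q f kl.1 * t ^ kl.1 * (tc D q g kl.2 * t ^ kl.2) = tc D q (f * g) n * t ^ n := by
  rw [tc_mul, Finset.sum_mul]
  refine Finset.sum_congr rfl fun kl hkl => ?_
  rw [← Finset.HasAntidiagonal.mem_antidiagonal.1 hkl, pow_add]
  ring

theorem F1_tc_const (h : D f = 0) {n : ℕ} (hn : n ≠ 0) : tc D q f n = 0 := by
  obtain ⟨m, rfl⟩ := Nat.exists_eq_succ_of_ne_zero hn
  unfold tc
  rw [Function.iterate_succ_apply, h]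
  have h1 : D^[m] (0 : S) = 0 := by
    induction m with
    | zero => rfl
    | succ m ih => rw [Function.iterate_succ_apply, map_zero, ih (by simp)]
  rw [h1, map_zero, zero_div]

/-- Cauchy product of absolutely convergent series
(`summable_norm_sum_mul_antidiagonal_of_summable_norm`). -/
theorem conv_mul (hf : Conv D q t f) (hg : Conv D q t g) : Conv D q t (f * g) := by
  have hf' := F1_norm hf
  have hg' := F1_norm hg
  have h := summable_norm_sum_mul_antidiagonal_of_summable_norm hf' hg'
  unfold Conv
  refine h.congr fun n => ?_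
  rw [F1_coef, norm_mul, norm_pow]

theorem conv_const (h : D f = 0) : Conv D q t f := by
  unfold Conv
  refine summable_of_ne_finset_zero (s := {0}) fun n hn => ?_
  rw [F1_tc_const h (by simpa using hn), norm_zero, zero_mul]

theorem conv_algebraMap (c : ℂ) : Conv D q t (algebraMap ℂ S c) := by
  exact conv_const (D.map_algebraMap c)

theorem ev_add (hf : Conv D q t f) (hg : Conv D q t g) :
    ev D q t (f + g) = ev D q t f + ev D q t g := by
  unfold ev
  rw [← (F1_norm hf).of_norm.tsum_add (F1_norm hg).of_norm]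
  refine tsum_congr fun n => ?_
  rw [tc_add]
  ring

theorem ev_mul (hf : Conv D q t f) (hg : Conv D q t g) :
    ev D q t (f * g) = ev D q t f * ev D q t g := by
  unfold ev
  rw [tsum_mul_tsum_eq_tsum_sum_antidiagonal_of_summable_norm (F1_norm hf) (F1_norm hg)]
  exact tsum_congr fun n => (F1_coef n).symm

theorem ev_const (h : D f = 0) : ev D q t f = q f := by
  unfold ev
  rw [tsum_eq_single 0 (fun n hn => by rw [F1_tc_const h hn, zero_mul])]
  simp [tc]

theorem ev_algebraMap (c : ℂ) : ev D q t (algebraMap ℂ S c) = c := by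
  rw [ev_const (D.map_algebraMap c)]
  exact q.commutes c

theorem conv_adjoin {s : Set S} (h : ∀ f ∈ s, Conv D q t f) :
    ∀ f ∈ Algebra.adjoin ℂ s, Conv D q t f := by
  intro f hf
  induction hf using Algebra.adjoin_induction with
  | mem x hx => exact h x hx
  | algebraMap r => exact conv_algebraMap r
  | add x y _ _ hx hy => exact conv_add hx hy
  | mul x y _ _ hx hy => exact conv_mul hx hy

theorem IsFlow.unique (h : IsFlow D q t q') (h' : IsFlow D q t q'') : q' = q'' := by
  ext f
  rw [(h f).2, (h' f).2]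

theorem exists_isFlow (h : ∀ f, Conv D q t f) : ∃ q', IsFlow D q t q' := by
  have h1 : ev D q t 1 = 1 := by
    have h1 := ev_algebraMap (D := D) (q := q) (t := t) 1
    rwa [map_one] at h1
  have h0 : ev D q t 0 = 0 := by
    have h1 := ev_algebraMap (D := D) (q := q) (t := t) 0
    rwa [map_zero] at h1
  let φ : S →+* ℂ :=
    { toFun := ev D q t
      map_one' := h1
      map_mul' := fun f g => ev_mul (h f) (h g)
      map_zero' := h0
      map_add' := fun f g => ev_add (h f) (h g) }
  exact ⟨{ φ with commutes' := fun c => ev_algebraMap c }, fun f => ⟨h f, rfl⟩⟩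

theorem IsFlow.step (h : IsFlow D q t q') : Step D q t q' := fun f _ => (h f).2

/-- If everything converges, a partial flow is the flow. -/
theorem Step.isFlow (h : Step D q t q') (hc : ∀ f, Conv D q t f) : IsFlow D q t q' :=
  fun f => ⟨hc f, h f (hc f)⟩

end Pool.Agent.CampanaFlow
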