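import Pool.Agent.Lib_MP_1209e6_fl.Defs

/-! PIECE F3: growth of iterated derivatives of the coordinates of a polynomial vector field. -/

set_option autoImplicit false

open Filter Topology

namespace Pool.Agent.CampanaFlow

variable {S : Type} [CommRing S] [Algebra ℂ S]

section f3

variable {σ : Type} [Fintype σ]

/-- weighted norm of a polynomial -/
noncomputable def f3nu (w : σ → ℝ) (p : MvPolynomial σ ℂ) : ℝ :=
  ∑ s ∈ p.support, ‖p.coeff s‖ * ∏ j, w j ^ s j

/-- all monomials of `p` have degree at most `d` -/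
def F3deg (dg : σ → ℕ) (p : MvPolynomial σ ℂ) (d : ℕ) : Prop :=
  ∀ s ∈ p.support, ∑ j, s j * dg j ≤ d

theorem f3nu_eq (w : σ → ℝ) (p : MvPolynomial σ ℂ) (T : Finset (σ →₀ ℕ)) (hT : p.support ⊆ T) :
    f3nu w p = ∑ s ∈ T, ‖p.coeff s‖ * ∏ j, w j ^ s j := by
  unfold f3nu
  apply Finset.sum_subset hT
  intro s _ hs
  rw [MvPolynomial.notMem_support_iff.1 hs, norm_zero, zero_mul]

theorem f3prod_nonneg (w : σ → ℝ) (hw : ∀ i, 0 ≤ w i) (s : σ →₀ ℕ) : 0 ≤ ∏ j, w j ^ s j :=
  Finset.prod_nonneg fun j _ => pow_nonneg (hw j) _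

theorem f3nu_nonneg (w : σ → ℝ) (hw : ∀ i, 0 ≤ w i) (p : MvPolynomial σ ℂ) : 0 ≤ f3nu w p :=
  Finset.sum_nonneg fun s _ => mul_nonneg (norm_nonneg _) (f3prod_nonneg w hw s)

theorem f3nu_zero (w : σ → ℝ) : f3nu w (0 : MvPolynomial σ ℂ) = 0 := by
  simp [f3nu]

theorem f3nu_add (w : σ → ℝ) (hw : ∀ i, 0 ≤ w i) (p q : MvPolynomial σ ℂ) :
    f3nu w (p + q) ≤ f3nu w p + f3nu w q := by
  classical
  rw [f3nu_eq w (p + q) (p.support ∪ q.support) MvPolynomial.support_add,
    f3nu_eq w p (p.support ∪ q.support) Finset.subset_union_left,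
    f3nu_eq w q (p.support ∪ q.support) Finset.subset_union_right, ← Finset.sum_add_distrib]
  refine Finset.sum_le_sum fun s _ => ?_
  rw [MvPolynomial.coeff_add, ← add_mul]
  exact mul_le_mul_of_nonneg_right (norm_add_le _ _) (f3prod_nonneg w hw s)

theorem f3nu_sum (w : σ → ℝ) (hw : ∀ i, 0 ≤ w i) {ι : Type*} (F : Finset ι) (p : ι → MvPolynomial σ ℂ) :
    f3nu w (∑ i ∈ F, p i) ≤ ∑ i ∈ F, f3nu w (p i) := by
  classical
  induction F using Finset.induction_on with
  | empty => simp [f3nu_zero]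
  | insert a F ha ih =>
    rw [Finset.sum_insert ha, Finset.sum_insert ha]
    exact (f3nu_add w hw _ _).trans (add_le_add le_rfl ih)

theorem f3nu_monomial (w : σ → ℝ) (s : σ →₀ ℕ) (c : ℂ) :
    f3nu w (MvPolynomial.monomial s c) = ‖c‖ * ∏ j, w j ^ s j := by
  classical
  rw [f3nu_eq w _ {s} MvPolynomial.support_monomial_subset, Finset.sum_singleton, MvPolynomial.coeff_monomial,
    if_pos rfl]

theorem f3nu_monomial_mul (w : σ → ℝ) (hw : ∀ i, 0 ≤ w i) (s : σ →₀ ℕ) (c : ℂ) (p : MvPolynomial σ ℂ) :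
    f3nu w (MvPolynomial.monomial s c * p) ≤ ‖c‖ * (∏ j, w j ^ s j) * f3nu w p := by
  conv_lhs => rw [p.as_sum, Finset.mul_sum]
  refine (f3nu_sum w hw _ _).trans ?_
  unfold f3nu
  rw [Finset.mul_sum]
  refine Finset.sum_le_sum fun t _ => ?_
  rw [MvPolynomial.monomial_mul]
  have h := f3nu_monomial w (s + t) (c * p.coeff t)
  unfold f3nu at h
  rw [h, norm_mul]
  have h2 : ∏ j, w j ^ (s + t) j = (∏ j, w j ^ s j) * ∏ j, w j ^ t j := by
    rw [← Finset.prod_mul_distrib]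
    refine Finset.prod_congr rfl fun j _ => ?_
    rw [Finsupp.add_apply, pow_add]
  rw [h2]
  apply le_of_eq
  ring

theorem f3deg_add (dg : σ → ℕ) {p q : MvPolynomial σ ℂ} {d : ℕ} (hp : F3deg dg p d) (hq : F3deg dg q d) :
    F3deg dg (p + q) d := by
  classical
  intro s hs
  rcases Finset.mem_union.1 (MvPolynomial.support_add hs) with h | h
  · exact hp s h
  · exact hq s h

theorem f3deg_zero (dg : σ → ℕ) (d : ℕ) : F3deg dg (0 : MvPolynomial σ ℂ) d := by
  intro s hs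
  simp at hs

theorem f3deg_sum (dg : σ → ℕ) {ι : Type*} (F : Finset ι) (p : ι → MvPolynomial σ ℂ) (d : ℕ)
    (h : ∀ i ∈ F, F3deg dg (p i) d) : F3deg dg (∑ i ∈ F, p i) d := by
  classical
  induction F using Finset.induction_on with
  | empty => simpa using f3deg_zero dg d
  | insert a F ha ih =>
    rw [Finset.sum_insert ha]
    exact f3deg_add dg (h a (Finset.mem_insert_self _ _)) (ih fun i hi => h i (Finset.mem_insert_of_mem hi))

theorem f3deg_monomial_mul (dg : σ → ℕ) (s : σ →₀ ℕ) (c : ℂ) (p : MvPolynomial σ ℂ) (d : ℕ) (h : F3deg dg p d) :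
    F3deg dg (MvPolynomial.monomial s c * p) (∑ j, s j * dg j + d) := by
  classical
  rw [p.as_sum, Finset.mul_sum]
  apply f3deg_sum
  intro t ht u hu
  rw [MvPolynomial.monomial_mul] at hu
  have h1 := MvPolynomial.support_monomial_subset hu
  rw [Finset.mem_singleton] at h1
  subst h1
  have h2 := h t ht
  have h3 : ∑ j, (s + t) j * dg j = ∑ j, s j * dg j + ∑ j, t j * dg j := by
    rw [← Finset.sum_add_distrib]
    refine Finset.sum_congr rfl fun j _ => ?_
    rw [Finsupp.add_apply, add_mul]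
  omega

end f3

section f3b

variable {σ : Type} [Fintype σ] [DecidableEq σ]

/-- the derivative of a monomial -/
theorem f3_der (P : σ → MvPolynomial σ ℂ) (s : σ →₀ ℕ) (c : ℂ) :
    MvPolynomial.mkDerivation ℂ P (MvPolynomial.monomial s c) =
      ∑ i ∈ s.support, MvPolynomial.monomial (s - Finsupp.single i 1) (c * (s i : ℂ)) * P i := by
  rw [MvPolynomial.mkDerivation_monomial, Finsupp.sum, Finset.smul_sum]
  refine Finset.sum_congr rfl fun i _ => ?_
  rw [smul_eq_mul, ← smul_mul_assoc, MvPolynomial.smul_monomial, smul_eq_mul]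

theorem f3_sub (s : σ →₀ ℕ) (i : σ) (hi : i ∈ s.support) (dg : σ → ℕ) :
    ∑ j, (s - Finsupp.single i 1 : σ →₀ ℕ) j * dg j + dg i = ∑ j, s j * dg j := by
  have h1 : s - Finsupp.single i 1 + Finsupp.single i 1 = s := by
    apply tsub_add_cancel_of_le
    rw [Finsupp.single_le_iff]
    exact Nat.one_le_iff_ne_zero.2 (Finsupp.mem_support_iff.1 hi)
  have h2 : ∑ j, s j * dg j = ∑ j, (s - Finsupp.single i 1 + Finsupp.single i 1 : σ →₀ ℕ) j * dg j := by
    rw [h1]
  rw [h2]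
  simp only [Finsupp.add_apply, add_mul, Finset.sum_add_distrib]
  congr 1
  rw [Finset.sum_eq_single i]
  · simp
  · intro b _ hb
    rw [Finsupp.single_eq_of_ne hb, zero_mul]
  · intro h
    exact absurd (Finset.mem_univ i) h

theorem f3_prod (s : σ →₀ ℕ) (i : σ) (hi : i ∈ s.support) (w : σ → ℝ) (hw : ∀ i, 0 ≤ w i) (h1 : 1 ≤ w i) :
    ∏ j, w j ^ (s - Finsupp.single i 1 : σ →₀ ℕ) j ≤ ∏ j, w j ^ s j := by
  refine Finset.prod_le_prod (fun j _ => pow_nonneg (hw j) _) fun j _ => ?_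
  by_cases h : j = i
  · subst h
    apply pow_le_pow_right₀ h1
    simp
  · have : (s - Finsupp.single i 1 : σ →₀ ℕ) j = s j := by
      rw [Finsupp.tsub_apply, Finsupp.single_eq_of_ne h, tsub_zero]
    rw [this]

variable (P : σ → MvPolynomial σ ℂ) (dg : σ → ℕ) (hdg : ∀ i, dg i = 0 → P i = 0)
    (hdg1 : ∀ i, dg i ≤ 1) (δ : ℕ) (hδ : ∀ i, ∀ s ∈ (P i).support, ∑ j, s j * dg j ≤ δ + 1)
    (w : σ → ℝ) (hw0 : ∀ i, 0 ≤ w i) (hw1 : ∀ i, dg i = 1 → 1 ≤ w i)
    (A : ℝ) (hA : ∀ i, ∑ s ∈ (P i).support, ‖(P i).coeff s‖ * ∏ j, w j ^ s j ≤ A)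

include hdg hdg1 hδ in
theorem f3deg_der (p : MvPolynomial σ ℂ) (d : ℕ) (hp : F3deg dg p d) :
    F3deg dg (MvPolynomial.mkDerivation ℂ P p) (d + δ) := by
  rw [p.as_sum, map_sum]
  apply f3deg_sum
  intro s hs
  rw [f3_der]
  apply f3deg_sum
  intro i hi
  rcases Nat.le_one_iff_eq_zero_or_eq_one.1 (hdg1 i) with h | h
  · rw [hdg i h, mul_zero]
    exact f3deg_zero dg _
  · have h1 := f3deg_monomial_mul dg (s - Finsupp.single i 1) (p.coeff s * (s i : ℂ)) (P i) (δ + 1) (hδ i)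
    intro u hu
    have h2 := h1 u hu
    have h3 := f3_sub s i hi dg
    have h4 := hp s hs
    omega

include hdg hdg1 hw0 hw1 hA in
theorem f3nu_der (p : MvPolynomial σ ℂ) (d : ℕ) (hp : F3deg dg p d) (hA0 : 0 ≤ A) :
    f3nu w (MvPolynomial.mkDerivation ℂ P p) ≤ d * A * f3nu w p := by
  conv_lhs => rw [p.as_sum, map_sum]
  refine (f3nu_sum w hw0 _ _).trans ?_
  conv_rhs => rw [f3nu, Finset.mul_sum]
  refine Finset.sum_le_sum fun s hs => ?_
  rw [f3_der]
  refine (f3nu_sum w hw0 _ _).trans ?_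
  have hs0 := f3prod_nonneg w hw0 s
  have h1 : ∀ i ∈ s.support, f3nu w (MvPolynomial.monomial (s - Finsupp.single i 1) (p.coeff s * (s i : ℂ)) * P i) ≤
      ((s i * dg i : ℕ) : ℝ) * (A * (‖p.coeff s‖ * ∏ j, w j ^ s j)) := by
    intro i hi
    rcases Nat.le_one_iff_eq_zero_or_eq_one.1 (hdg1 i) with h | h
    · rw [hdg i h, mul_zero, f3nu_zero, h]
      simp
    · refine (f3nu_monomial_mul w hw0 _ _ _).trans ?_
      rw [norm_mul, Complex.norm_natCast, h, mul_one]
      have h2 := f3_prod s i hi w hw0 (hw1 i h)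
      have h3 : f3nu w (P i) ≤ A := hA i
      have h4 := f3prod_nonneg w hw0 (s - Finsupp.single i 1)
      calc ‖p.coeff s‖ * (s i : ℝ) * (∏ j, w j ^ (s - Finsupp.single i 1 : σ →₀ ℕ) j) * f3nu w (P i)
          ≤ ‖p.coeff s‖ * (s i : ℝ) * (∏ j, w j ^ s j) * A := by
            apply mul_le_mul _ h3 (f3nu_nonneg w hw0 _) (by positivity)
            exact mul_le_mul_of_nonneg_left h2 (by positivity)
        _ = (s i : ℝ) * (A * (‖p.coeff s‖ * ∏ j, w j ^ s j)) := by ring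
  refine (Finset.sum_le_sum h1).trans ?_
  rw [← Finset.sum_mul, mul_assoc]
  apply mul_le_mul_of_nonneg_right _ (by positivity)
  have h2 : ∑ i ∈ s.support, s i * dg i ≤ d := by
    refine le_trans ?_ (hp s hs)
    exact Finset.sum_le_univ_sum_of_nonneg fun i => Nat.zero_le _
  exact_mod_cast h2

end f3b

theorem f3_aeval {σ : Type} (y : σ → S) (D : Derivation ℂ S S) (P : σ → MvPolynomial σ ℂ)
    (hP : ∀ i, D (y i) = MvPolynomial.aeval y (P i)) (p : MvPolynomial σ ℂ) :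
    D (MvPolynomial.aeval y p) = MvPolynomial.aeval y (MvPolynomial.mkDerivation ℂ P p) := by
  induction p using MvPolynomial.induction_on with
  | C a => simp [MvPolynomial.aeval_C]
  | add p q hp hq => rw [map_add, map_add, map_add, map_add, hp, hq]
  | mul_X p i hp =>
    rw [map_mul, MvPolynomial.aeval_X, Derivation.leibniz, Derivation.leibniz, hp, hP,
      MvPolynomial.mkDerivation_X, map_add, smul_eq_mul, smul_eq_mul, smul_eq_mul, smul_eq_mul, map_mul, map_mul,
      MvPolynomial.aeval_X]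

/-- Growth. Let `ν p = ∑_{s ∈ supp p} ‖p_s‖ ∏_j w_j^{s_j}` for `p ∈ MvPolynomial σ ℂ` and
`D̃ = ∑_i P_i ∂_i` (`MvPolynomial.mkDerivation ℂ P`), so `D (aeval y p) = aeval y (D̃ p)` (both sides are
derivations along `aeval y` which agree on the variables). Facts: `‖q (aeval y p)‖ ≤ ν p`;
`ν (p + p') ≤ ν p + ν p'`, `ν (p p') ≤ ν p ν p'`; for a monomial `c X^s` one has
`D̃ (c X^s) = ∑_i s_i c X^{s - e_i} P_i`, only `i` with `dg i = 1` contribute (else `P_i = 0`) and then
`w_i ≥ 1`, so `ν (D̃ (c X^s)) ≤ (∑_{dg i = 1} s_i) ν(c X^s) A`. So if all monomials of `p` have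
`dg`-degree `∑ s_j dg_j ≤ d`, then `ν (D̃ p) ≤ d A ν p` and all monomials of `D̃ p` have `dg`-degree at
most `d + δ` (`d - 1 + δ + 1`; if `d = 0` then `D̃ p = 0`). Starting with `X_i` (`d ≤ 1`) one gets
`ν (D̃^n X_i) ≤ w_i ∏_{k<n} ((1 + k δ) A) ≤ w_i n! ((1+δ) A)^n`, since `1 + k δ ≤ (1 + δ)(1 + k)`.
(`A ≥ 0` because it bounds a sum of nonnegative numbers.) -/
theorem grow {σ : Type} [Fintype σ] [DecidableEq σ] (y : σ → S) (D : Derivation ℂ S S)
    (P : σ → MvPolynomial σ ℂ)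
    (hP : ∀ i, D (y i) = MvPolynomial.aeval y (P i)) (dg : σ → ℕ) (hdg : ∀ i, dg i = 0 → P i = 0)
    (hdg1 : ∀ i, dg i ≤ 1) (δ : ℕ) (hδ : ∀ i, ∀ s ∈ (P i).support, ∑ j, s j * dg j ≤ δ + 1)
    (q : S →ₐ[ℂ] ℂ) (w : σ → ℝ) (hw : ∀ i, ‖q (y i)‖ ≤ w i) (hw1 : ∀ i, dg i = 1 → 1 ≤ w i)
    (A : ℝ) (hA : ∀ i, ∑ s ∈ (P i).support, ‖(P i).coeff s‖ * ∏ j, w j ^ s j ≤ A) (n : ℕ) (i : σ) :
    ‖q (D^[n] (y i))‖ ≤ w i * n.factorial * ((1 + δ) * A) ^ n := by
  have hw0 : ∀ i, 0 ≤ w i := fun i => (norm_nonneg _).trans (hw i)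
  have hA0 : 0 ≤ A := by
    refine le_trans ?_ (hA i)
    exact f3nu_nonneg w hw0 (P i)
  -- the iterates
  have hit : ∀ n : ℕ, ∃ p : MvPolynomial σ ℂ, D^[n] (y i) = MvPolynomial.aeval y p ∧ F3deg dg p (1 + n * δ) ∧
      f3nu w p ≤ w i * n.factorial * ((1 + δ) * A) ^ n := by
    intro n
    induction n with
    | zero =>
      refine ⟨MvPolynomial.X i, by simp, ?_, ?_⟩
      · intro s hs
        have h1 := MvPolynomial.support_monomial_subset (R := ℂ) (s := Finsupp.single i 1) (a := 1) hs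
        rw [Finset.mem_singleton] at h1
        subst h1
        rw [Finset.sum_eq_single i]
        · simpa using hdg1 i
        · intro b _ hb
          rw [Finsupp.single_eq_of_ne hb, zero_mul]
        · intro h
          exact absurd (Finset.mem_univ i) h
      · have h1 := f3nu_monomial w (Finsupp.single i 1) (1 : ℂ)
        have h2 : ∏ j, w j ^ (Finsupp.single i 1 : σ →₀ ℕ) j = w i := by
          rw [Finset.prod_eq_single i]
          · simp
          · intro b _ hb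
            rw [Finsupp.single_eq_of_ne hb, pow_zero]
          · intro h
            exact absurd (Finset.mem_univ i) h
        rw [h2, norm_one, one_mul] at h1
        have h3 : (MvPolynomial.X i : MvPolynomial σ ℂ) = MvPolynomial.monomial (Finsupp.single i 1) 1 := rfl
        rw [h3, h1]
        simp
    | succ n ih =>
      obtain ⟨p, h1, h2, h3⟩ := ih
      refine ⟨MvPolynomial.mkDerivation ℂ P p, ?_, ?_, ?_⟩
      · rw [Function.iterate_succ_apply', h1, f3_aeval y D P hP]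
      · have h4 := f3deg_der P dg hdg hdg1 δ hδ p _ h2
        have h5 : 1 + n * δ + δ = 1 + (n + 1) * δ := by ring
        rwa [h5] at h4
      · refine (f3nu_der P dg hdg hdg1 w hw0 hw1 A hA p _ h2 hA0).trans ?_
        have h4 : ((1 + n * δ : ℕ) : ℝ) ≤ (1 + δ) * (n + 1) := by
          push_cast
          have : (0 : ℝ) ≤ δ := Nat.cast_nonneg _
          have : (0 : ℝ) ≤ n := Nat.cast_nonneg _
          nlinarith
        calc ((1 + n * δ : ℕ) : ℝ) * A * f3nu w p
            ≤ ((1 + δ) * (n + 1)) * A * (w i * n.factorial * ((1 + δ) * A) ^ n) := by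
              apply mul_le_mul (mul_le_mul_of_nonneg_right h4 hA0) h3 (f3nu_nonneg w hw0 _) (by positivity)
          _ = w i * (n + 1).factorial * ((1 + δ) * A) ^ (n + 1) := by
              rw [Nat.factorial_succ, pow_succ]
              push_cast
              ring
  obtain ⟨p, h1, -, h3⟩ := hit n
  rw [h1]
  refine le_trans ?_ h3
  have h4 : q (MvPolynomial.aeval y p) = ∑ s ∈ p.support, p.coeff s * ∏ j, q (y j) ^ s j := by
    rw [MvPolynomial.aeval_def, MvPolynomial.eval₂_eq', map_sum]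
    refine Finset.sum_congr rfl fun s _ => ?_
    rw [map_mul, AlgHom.commutes, map_prod]
    simp
  rw [h4]
  refine (norm_sum_le _ _).trans ?_
  unfold f3nu
  refine Finset.sum_le_sum fun s _ => ?_
  rw [norm_mul, norm_prod]
  apply mul_le_mul_of_nonneg_left _ (norm_nonneg _)
  refine Finset.prod_le_prod (fun j _ => norm_nonneg _) fun j _ => ?_
  rw [norm_pow]
  exact pow_le_pow_left₀ (norm_nonneg _) (hw j) _

end Pool.Agent.CampanaFlow
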