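import Mathlib

/-! PIECE D6: a common affine open subset. -/

set_option autoImplicit false

namespace Pool.Agent.CampanaFlow

private theorem spread_adjoin {K : Type} [Field K] [Algebra ℂ K] (R : Subalgebra ℂ K) (β : K)
    (hβ : β ∈ R) (G : Set K) (hG : ∀ g ∈ G, ∃ m : ℕ, g * β ^ m ∈ R) :
    ∀ f ∈ Algebra.adjoin ℂ G, ∃ m : ℕ, f * β ^ m ∈ R := by
  intro f hf
  induction hf using Algebra.adjoin_induction with
  | mem x hx => exact hG x hx
  | algebraMap r => exact ⟨0, by rw [pow_zero, mul_one]; exact R.algebraMap_mem r⟩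
  | add x y _ _ hx hy =>
    obtain ⟨m, hm⟩ := hx
    obtain ⟨n, hn⟩ := hy
    refine ⟨m + n, ?_⟩
    have e : (x + y) * β ^ (m + n) = x * β ^ m * β ^ n + y * β ^ n * β ^ m := by ring
    rw [e]
    exact R.add_mem (R.mul_mem hm (R.pow_mem hβ n)) (R.mul_mem hn (R.pow_mem hβ m))
  | mul x y _ _ hx hy =>
    obtain ⟨m, hm⟩ := hx
    obtain ⟨n, hn⟩ := hy
    refine ⟨m + n, ?_⟩
    have e : (x * y) * β ^ (m + n) = (x * β ^ m) * (y * β ^ n) := by ring
    rw [e]
    exact R.mul_mem hm hn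

private theorem spread_denom {K : Type} [Field K] [Algebra ℂ K] (R : Subalgebra ℂ K)
    (hfrac : ∀ (u : K), ∃ r ∈ R, ∃ s ∈ R, s ≠ 0 ∧ u = r / s) (G : Finset K) :
    ∃ b ∈ R, b ≠ 0 ∧ ∀ g ∈ G, g * b ∈ R := by
  classical
  induction G using Finset.induction_on with
  | empty => exact ⟨1, R.one_mem, one_ne_zero, fun g hg => absurd hg (Finset.notMem_empty g)⟩
  | insert a s _ ih =>
    obtain ⟨b, hb, hb0, hbg⟩ := ih
    obtain ⟨r, hr, t, ht, ht0, hat⟩ := hfrac a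
    refine ⟨b * t, R.mul_mem hb ht, mul_ne_zero hb0 ht0, fun g hg => ?_⟩
    rcases Finset.mem_insert.1 hg with h | h
    · rw [h, hat]
      have e : r / t * (b * t) = r * b := by field_simp
      rw [e]
      exact R.mul_mem hr hb
    · rw [← mul_assoc]
      exact R.mul_mem (hbg g h) ht

/-- Let `S₀` be generated by `T` and all `R a`; it is finitely generated. For each `a` there is
`0 ≠ b_a ∈ R a` such that for each of the finitely many generators `g` of `S₀`, `b_a g ∈ R a`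
(common denominator), hence `∀ f ∈ S₀, ∃ m, f b_a^m ∈ R a`. Let `b = ∏ b_a ∈ S₀` and `S = S₀[1/b]`
(generated by `S₀` and `b⁻¹`). For `a` fixed: `b b_a^m = c ∈ R a` for some `m`; put `β = c b_a ∈ R a`.
Then `β⁻¹ = b⁻¹ b_a⁻¹ b_a^{-m} ∈ S`, since `b_a⁻¹ = b⁻¹ ∏_{a' ≠ a} b_{a'}`. Every `f ∈ S` is `g b⁻ⁿ` with
`g ∈ S₀`, and `b⁻¹ = b_a^m / c`, so `f (c b_a)^M = g b_a^{mn} c^{M-n} b_a^M ∈ R a` for large `M`. -/
theorem spread {K α : Type} [Field K] [Algebra ℂ K] [Finite α] (R : α → Subalgebra ℂ K)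
    (hR : ∀ a, (R a).FG) (hfrac : ∀ a (u : K), ∃ r ∈ R a, ∃ s ∈ R a, s ≠ 0 ∧ u = r / s)
    (T : Finset K) :
    ∃ S : Subalgebra ℂ K, S.FG ∧ (T : Set K) ⊆ S ∧ (∀ a, R a ≤ S) ∧
      ∀ a, ∃ β ∈ R a, β ≠ 0 ∧ β⁻¹ ∈ S ∧ ∀ f ∈ S, ∃ m : ℕ, f * β ^ m ∈ R a := by
  classical
  haveI : Fintype α := Fintype.ofFinite α
  choose G hG using hR
  set Gn : Finset K := T ∪ Finset.univ.biUnion G with hGn
  choose b hbR hb0 hbg using fun a => spread_denom (R a) (hfrac a) Gn
  have hRle : ∀ a, R a ≤ Algebra.adjoin ℂ (Gn : Set K) := by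
    intro a
    rw [← hG a]
    apply Algebra.adjoin_mono
    intro x hx
    rw [hGn]
    exact Finset.mem_coe.2 (Finset.mem_union_right _
      (Finset.mem_biUnion.2 ⟨a, Finset.mem_univ a, Finset.mem_coe.1 hx⟩))
  set B : K := ∏ a, b a with hB
  have hB0 : B ≠ 0 := Finset.prod_ne_zero_iff.2 fun a _ => hb0 a
  have hBS : B ∈ Algebra.adjoin ℂ (Gn : Set K) :=
    Subalgebra.prod_mem _ fun a _ => hRle a (hbR a)
  have hle : Algebra.adjoin ℂ (Gn : Set K) ≤ Algebra.adjoin ℂ ((insert B⁻¹ Gn : Finset K) : Set K) := by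
    apply Algebra.adjoin_mono
    intro x hx
    exact Finset.mem_coe.2 (Finset.mem_insert_of_mem (Finset.mem_coe.1 hx))
  have hBi : B⁻¹ ∈ Algebra.adjoin ℂ ((insert B⁻¹ Gn : Finset K) : Set K) :=
    Algebra.subset_adjoin (Finset.mem_coe.2 (Finset.mem_insert_self _ _))
  refine ⟨Algebra.adjoin ℂ ((insert B⁻¹ Gn : Finset K) : Set K), ⟨insert B⁻¹ Gn, rfl⟩, ?_, ?_, ?_⟩
  · intro x hx
    refine hle (Algebra.subset_adjoin ?_)
    rw [hGn]
    exact Finset.mem_coe.2 (Finset.mem_union_left _ (Finset.mem_coe.1 hx))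
  · exact fun a => (hRle a).trans hle
  · intro a
    obtain ⟨m, hm⟩ := spread_adjoin (R a) (b a) (hbR a) (Gn : Set K)
      (fun g hg => ⟨1, by rw [pow_one]; exact hbg a g (Finset.mem_coe.1 hg)⟩) B hBS
    have hbi : (b a)⁻¹ ∈ Algebra.adjoin ℂ ((insert B⁻¹ Gn : Finset K) : Set K) := by
      have e : (b a)⁻¹ = B⁻¹ * ∏ a' ∈ Finset.univ.erase a, b a' := by
        have h1 : b a * ∏ a' ∈ Finset.univ.erase a, b a' = B :=
          Finset.mul_prod_erase Finset.univ b (Finset.mem_univ a)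
        rw [eq_comm, inv_mul_eq_iff_eq_mul₀ hB0, ← h1, mul_comm (b a), mul_assoc,
          mul_inv_cancel₀ (hb0 a), mul_one]
      rw [e]
      exact Subalgebra.mul_mem _ hBi (Subalgebra.prod_mem _ fun a' _ => hle (hRle a' (hbR a')))
    have hβR : B * b a ^ m * b a ∈ R a := (R a).mul_mem hm (hbR a)
    refine ⟨B * b a ^ m * b a, hβR,
      mul_ne_zero (mul_ne_zero hB0 (pow_ne_zero _ (hb0 a))) (hb0 a), ?_, ?_⟩
    · rw [mul_inv, mul_inv, ← inv_pow]
      exact Subalgebra.mul_mem _ (Subalgebra.mul_mem _ hBi (Subalgebra.pow_mem _ hbi m)) hbi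
    · apply spread_adjoin (R a) _ hβR
      intro g hg
      refine ⟨1, ?_⟩
      rw [pow_one]
      rcases Finset.mem_insert.1 (Finset.mem_coe.1 hg) with h | h
      · have e : g * (B * b a ^ m * b a) = b a ^ m * b a := by
          rw [h]
          field_simp
        rw [e]
        exact (R a).mul_mem ((R a).pow_mem (hbR a) m) (hbR a)
      · have e : g * (B * b a ^ m * b a) = (B * b a ^ m) * (g * b a) := by ring
        rw [e]
        exact (R a).mul_mem hm (hbg a g h)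

end Pool.Agent.CampanaFlow
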