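import Mathlib

/-! PIECE W1: Weierstrass product with prescribed orders. -/

set_option autoImplicit false

open Filter Topology

namespace Pool.Agent.CampanaFlow

theorem W1_fin (m : ℂ → ℕ) (hm : ∀ z, ∀ᶠ w in 𝓝[≠] z, m w = 0) (r : ℝ) :
    {a : ℂ | ‖a‖ ≤ r ∧ m a ≠ 0}.Finite := by
  by_contra h
  have h1 : Set.Infinite {a : ℂ | ‖a‖ ≤ r ∧ m a ≠ 0} := h
  obtain ⟨x, -, hacc⟩ := h1.exists_accPt_of_subset_isCompact (isCompact_closedBall (0 : ℂ) r)
    (fun a ha => by simpa using ha.1)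
  rw [accPt_iff_frequently_nhdsNE] at hacc
  exact hacc ((hm x).mono fun w hw h => h.2 hw)

open Classical in
/-- the zeros in an annulus -/
noncomputable def W1_S (m : ℂ → ℕ) (hm : ∀ z, ∀ᶠ w in 𝓝[≠] z, m w = 0) (n : ℕ) : Finset ℂ :=
  (W1_fin m hm (n + 1)).toFinset.filter (fun a => a ≠ 0 ∧ ⌊‖a‖⌋₊ = n)

theorem W1_mem {m : ℂ → ℕ} {hm : ∀ z, ∀ᶠ w in 𝓝[≠] z, m w = 0} {n : ℕ} {a : ℂ} :
    a ∈ W1_S m hm n ↔ m a ≠ 0 ∧ a ≠ 0 ∧ ⌊‖a‖⌋₊ = n := by
  unfold W1_S
  rw [Finset.mem_filter, Set.Finite.mem_toFinset]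
  constructor
  · rintro ⟨⟨-, h1⟩, h2, h3⟩
    exact ⟨h1, h2, h3⟩
  · rintro ⟨h1, h2, h3⟩
    refine ⟨⟨?_, h1⟩, h2, h3⟩
    have := Nat.lt_floor_add_one ‖a‖
    rw [h3] at this
    exact this.le

/-- the elementary factor -/
noncomputable def W1_w (K : ℕ) (a z : ℂ) : ℂ :=
  (1 + -z / a) * Complex.exp (-Complex.logTaylor (K + 1) (-z / a))

theorem W1_logTaylor_diff (K : ℕ) : Differentiable ℂ (Complex.logTaylor K) := by
  unfold Complex.logTaylor
  fun_prop

theorem W1_w_diff (K : ℕ) (a : ℂ) : Differentiable ℂ (W1_w K a) := by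
  have h := W1_logTaylor_diff (K + 1)
  have h2 : Differentiable ℂ fun z : ℂ => -z / a := by fun_prop
  unfold W1_w
  exact ((differentiable_const _).add h2).mul (h.comp h2).neg.cexp

theorem W1_w_order (K : ℕ) {a : ℂ} (ha : a ≠ 0) (z : ℂ) :
    analyticOrderAt (W1_w K a) z = if z = a then 1 else 0 := by
  have hA : AnalyticAt ℂ (W1_w K a) z := (W1_w_diff K a).analyticAt z
  split_ifs with h
  · subst h
    have : (1 : ℕ∞) = ((1 : ℕ) : ℕ∞) := rfl
    rw [this, hA.analyticOrderAt_eq_natCast]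
    have hE : Differentiable ℂ fun w : ℂ => Complex.exp (-Complex.logTaylor (K + 1) (-w / z)) := by
      have h := W1_logTaylor_diff (K + 1)
      have h2 : Differentiable ℂ fun w : ℂ => -w / z := by fun_prop
      exact (h.comp h2).neg.cexp
    refine ⟨fun w => -1 / z * Complex.exp (-Complex.logTaylor (K + 1) (-w / z)), ?_, ?_, ?_⟩
    · exact ((differentiable_const _).mul hE).analyticAt z
    · exact mul_ne_zero (div_ne_zero (by norm_num) ha) (Complex.exp_ne_zero _)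
    · refine Eventually.of_forall fun w => ?_
      unfold W1_w
      rw [pow_one, smul_eq_mul]
      field_simp
      ring
  · rw [hA.analyticOrderAt_eq_zero]
    unfold W1_w
    refine mul_ne_zero (fun h0 => h ?_) (Complex.exp_ne_zero _)
    have h1 : (1 + -z / a) * a = 0 := by rw [h0, zero_mul]
    have h2 : (1 + -z / a) * a = a - z := by field_simp; ring
    rw [h2] at h1
    exact (sub_eq_zero.1 h1).symm

theorem W1_order_prod {ι : Type} (s : Finset ι) (f : ι → ℂ → ℂ) (z : ℂ)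
    (hf : ∀ i ∈ s, AnalyticAt ℂ (f i) z) :
    AnalyticAt ℂ (fun w => ∏ i ∈ s, f i w) z ∧
    analyticOrderAt (fun w => ∏ i ∈ s, f i w) z = ∑ i ∈ s, analyticOrderAt (f i) z := by
  classical
  induction s using Finset.induction_on with
  | empty =>
    refine ⟨by simpa using analyticAt_const, ?_⟩
    rw [Finset.sum_empty]
    have : (fun w : ℂ => ∏ i ∈ (∅ : Finset ι), f i w) = fun _ => (1 : ℂ) := by
      funext w
      simp
    rw [this, AnalyticAt.analyticOrderAt_eq_zero analyticAt_const]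
    exact one_ne_zero
  | insert a s ha ih =>
    obtain ⟨h1, h2⟩ := ih fun i hi => hf i (Finset.mem_insert_of_mem hi)
    have h3 := hf a (Finset.mem_insert_self _ _)
    have e : (fun w : ℂ => ∏ i ∈ insert a s, f i w) = f a * fun w => ∏ i ∈ s, f i w := by
      funext w
      rw [Finset.prod_insert ha, Pi.mul_apply]
    rw [e]
    refine ⟨h3.mul h1, ?_⟩
    rw [analyticOrderAt_mul h3 h1, h2, Finset.sum_insert ha]

section
variable (m : ℂ → ℕ) (hm : ∀ z, ∀ᶠ w in 𝓝[≠] z, m w = 0)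

/-- the degree of the polynomials -/
noncomputable def W1_K (n : ℕ) : ℕ := n + ∑ a ∈ W1_S m hm n, m a

/-- the factor of an annulus -/
noncomputable def W1_F (n : ℕ) (z : ℂ) : ℂ := ∏ a ∈ W1_S m hm n, W1_w (W1_K m hm n) a z ^ m a

/-- its logarithm -/
noncomputable def W1_g (n : ℕ) (z : ℂ) : ℂ := ∑ a ∈ W1_S m hm n, (m a : ℂ) *
  (Complex.log (1 + -z / a) - Complex.logTaylor (W1_K m hm n + 1) (-z / a))

variable {m hm}

theorem W1_half {n : ℕ} {a z : ℂ} (hn : 1 ≤ n) (ha : a ∈ W1_S m hm n) (hz : ‖z‖ ≤ n / 2) :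
    ‖-z / a‖ ≤ 1 / 2 := by
  obtain ⟨h1, h2, h3⟩ := W1_mem.1 ha
  have h4 : (n : ℝ) ≤ ‖a‖ := by
    rw [← h3]
    exact Nat.floor_le (norm_nonneg _)
  have h5 : (1 : ℝ) ≤ n := by exact_mod_cast hn
  rw [norm_div, norm_neg, div_le_iff₀ (by linarith)]
  linarith

theorem W1_exp_g {n : ℕ} {z : ℂ} (hn : 1 ≤ n) (hz : ‖z‖ ≤ n / 2) :
    Complex.exp (W1_g m hm n z) = W1_F m hm n z := by
  unfold W1_g W1_F
  rw [Complex.exp_sum]
  refine Finset.prod_congr rfl fun a ha => ?_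
  have h1 := W1_half hn ha hz
  rw [Complex.exp_nat_mul]
  congr 1
  unfold W1_w
  rw [sub_eq_add_neg, Complex.exp_add, Complex.exp_log]
  intro h0
  have h2 : -z / a = -1 := by linear_combination h0
  rw [h2, norm_neg, norm_one] at h1
  norm_num at h1

theorem W1_g_norm {n : ℕ} {z : ℂ} (hn : 1 ≤ n) (hz : ‖z‖ ≤ n / 2) :
    ‖W1_g m hm n z‖ ≤ (1 / 2) ^ n := by
  unfold W1_g
  refine (norm_sum_le _ _).trans ?_
  have h1 : ∀ a ∈ W1_S m hm n, ‖(m a : ℂ) *
      (Complex.log (1 + -z / a) - Complex.logTaylor (W1_K m hm n + 1) (-z / a))‖ ≤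
      m a * (1 / 2) ^ (W1_K m hm n) := by
    intro a ha
    have h2 := W1_half hn ha hz
    rw [norm_mul, Complex.norm_natCast]
    refine mul_le_mul_of_nonneg_left ?_ (Nat.cast_nonneg _)
    refine (Complex.norm_log_sub_logTaylor_le _ (by linarith)).trans ?_
    set K := W1_K m hm n with hK
    have h3 : ‖-z / a‖ ^ (K + 1) ≤ (1 / 2) ^ (K + 1) := pow_le_pow_left₀ (norm_nonneg _) h2 _
    have h4 : (1 - ‖-z / a‖)⁻¹ ≤ 2 := by
      rw [inv_le_comm₀ (by linarith) (by norm_num)]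
      linarith
    have h5 : 0 ≤ (1 - ‖-z / a‖)⁻¹ := inv_nonneg.2 (by linarith)
    have h6 : ‖-z / a‖ ^ (K + 1) * (1 - ‖-z / a‖)⁻¹ ≤ (1 / 2) ^ (K + 1) * 2 :=
      mul_le_mul h3 h4 h5 (by positivity)
    have h7 : (1 : ℝ) ≤ (K : ℝ) + 1 := by
      have : (0 : ℝ) ≤ K := Nat.cast_nonneg _
      linarith
    calc ‖-z / a‖ ^ (K + 1) * (1 - ‖-z / a‖)⁻¹ / ((K : ℝ) + 1)
        ≤ ‖-z / a‖ ^ (K + 1) * (1 - ‖-z / a‖)⁻¹ :=
          div_le_self (by positivity) h7
      _ ≤ (1 / 2) ^ (K + 1) * 2 := h6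
      _ = (1 / 2) ^ K := by rw [pow_succ]; ring
  refine (Finset.sum_le_sum h1).trans ?_
  rw [← Finset.sum_mul, ← Nat.cast_sum]
  unfold W1_K
  set c := ∑ a ∈ W1_S m hm n, m a with hc
  rw [pow_add]
  have h8 : (c : ℝ) ≤ 2 ^ c := by
    have : c < 2 ^ c := Nat.lt_two_pow_self
    exact_mod_cast this.le
  have h9 : (c : ℝ) * (1 / 2) ^ c ≤ 1 := by
    rw [one_div, inv_pow, ← div_eq_mul_inv, div_le_one (by positivity)]
    exact h8
  have h10 : (0 : ℝ) ≤ (1 / 2) ^ n := by positivity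
  calc (c : ℝ) * ((1 / 2) ^ n * (1 / 2) ^ c) = ((c : ℝ) * (1 / 2) ^ c) * (1 / 2) ^ n := by ring
    _ ≤ 1 * (1 / 2) ^ n := mul_le_mul_of_nonneg_right h9 h10
    _ = (1 / 2) ^ n := one_mul _

theorem W1_g_diff {n : ℕ} {z : ℂ} (hn : 1 ≤ n) (hz : ‖z‖ ≤ n / 2) :
    DifferentiableAt ℂ (W1_g m hm n) z := by
  unfold W1_g
  refine DifferentiableAt.fun_sum fun a ha => ?_
  have h1 := W1_half hn ha hz
  have h2 : DifferentiableAt ℂ (fun z : ℂ => -z / a) z := by fun_prop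
  have h3 : (1 + -z / a) ∈ Complex.slitPlane := by
    refine Or.inl ?_
    rw [Complex.add_re, Complex.one_re]
    have := (abs_le.1 (Complex.abs_re_le_norm (-z / a))).1
    linarith
  refine (differentiableAt_const _).mul ?_
  exact (((differentiableAt_const _).add h2).clog h3).sub
    ((W1_logTaylor_diff _ _).comp z h2)

theorem W1_F_diff (n : ℕ) : Differentiable ℂ (W1_F m hm n) := by
  unfold W1_F
  exact Differentiable.fun_finsetProd fun a _ => (W1_w_diff _ a).pow _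

theorem W1_F_order (n : ℕ) (z : ℂ) :
    analyticOrderAt (W1_F m hm n) z = if z ∈ W1_S m hm n then (m z : ℕ∞) else 0 := by
  classical
  have h1 : ∀ a ∈ W1_S m hm n, AnalyticAt ℂ (fun w => W1_w (W1_K m hm n) a w ^ m a) z :=
    fun a _ => ((W1_w_diff _ a).pow _).analyticAt z
  have h2 := (W1_order_prod _ (fun a w => W1_w (W1_K m hm n) a w ^ m a) z h1).2
  have e : W1_F m hm n = fun w => ∏ a ∈ W1_S m hm n, W1_w (W1_K m hm n) a w ^ m a := rfl
  rw [e, h2]
  have h3 : ∀ a ∈ W1_S m hm n, analyticOrderAt (fun w => W1_w (W1_K m hm n) a w ^ m a) z =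
      if a = z then (m z : ℕ∞) else 0 := by
    intro a ha
    have h4 := analyticOrderAt_pow ((W1_w_diff (W1_K m hm n) a).analyticAt z) (m a)
    have e2 : (fun w => W1_w (W1_K m hm n) a w ^ m a) = W1_w (W1_K m hm n) a ^ m a := rfl
    rw [e2, h4, W1_w_order _ (W1_mem.1 ha).2.1]
    by_cases h : z = a
    · subst h
      simp
    · rw [if_neg h, if_neg (Ne.symm h)]
      simp
  rw [Finset.sum_congr rfl h3, Finset.sum_ite_eq']

/-- the product on a disc -/
noncomputable def W1_Phi (m : ℂ → ℕ) (hm : ∀ z, ∀ᶠ w in 𝓝[≠] z, m w = 0) (N : ℕ) (z : ℂ) : ℂ :=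
  z ^ m 0 * (∏ n ∈ Finset.range N, W1_F m hm n z) * Complex.exp (∑' k, W1_g m hm (k + N) z)

theorem W1_bd {N : ℕ} {z : ℂ} (hN : 1 ≤ N) (hz : ‖z‖ ≤ N / 2) (k : ℕ) :
    ‖W1_g m hm (k + N) z‖ ≤ (1 / 2) ^ k := by
  refine (W1_g_norm (by omega) (hz.trans ?_)).trans ?_
  · push_cast
    have : (0 : ℝ) ≤ k := Nat.cast_nonneg _
    linarith
  · exact pow_le_pow_of_le_one (by norm_num) (by norm_num) (by omega)

theorem W1_sum {N : ℕ} {z : ℂ} (hN : 1 ≤ N) (hz : ‖z‖ ≤ N / 2) :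
    Summable fun k => W1_g m hm (k + N) z :=
  Summable.of_norm_bounded (summable_geometric_of_lt_one (by norm_num) (by norm_num))
    (W1_bd hN hz)

theorem W1_step {N : ℕ} {z : ℂ} (hN : 1 ≤ N) (hz : ‖z‖ ≤ N / 2) :
    W1_Phi m hm (N + 1) z = W1_Phi m hm N z := by
  unfold W1_Phi
  rw [(W1_sum hN hz).tsum_eq_zero_add, Finset.prod_range_succ, Complex.exp_add, zero_add,
    W1_exp_g hN hz]
  have e : ∑' k, W1_g m hm (k + (N + 1)) z = ∑' k, W1_g m hm (k + 1 + N) z := by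
    congr 1
    funext k
    congr 1
    ring
  rw [e]
  ring

theorem W1_indep {N M : ℕ} {z : ℂ} (hN : 1 ≤ N) (hz : ‖z‖ ≤ N / 2) (hM : N ≤ M) :
    W1_Phi m hm M z = W1_Phi m hm N z := by
  induction M, hM using Nat.le_induction with
  | base => rfl
  | succ M hM ih =>
    rw [W1_step (by omega) (hz.trans ?_), ih]
    have : (N : ℝ) ≤ M := by exact_mod_cast hM
    linarith

theorem W1_Phi_tail (N : ℕ) (hN : 1 ≤ N) :
    DifferentiableOn ℂ (fun z => ∑' k, W1_g m hm (k + N) z) {z | ‖z‖ < N / 2} := by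
  have hU : IsOpen {z : ℂ | ‖z‖ < (N : ℝ) / 2} := isOpen_lt continuous_norm continuous_const
  refine Complex.differentiableOn_tsum_of_summable_norm (u := fun k => (1 / 2 : ℝ) ^ k)
    (summable_geometric_of_lt_one (by norm_num) (by norm_num)) (fun k z hz => ?_) hU
    (fun k z hz => W1_bd hN (le_of_lt hz) k)
  refine (W1_g_diff (by omega) ((le_of_lt hz).trans ?_)).differentiableWithinAt
  push_cast
  have : (0 : ℝ) ≤ k := Nat.cast_nonneg _
  linarith

end

/-- The support of `m` is closed and discrete, hence finite in each disc; enumerate it (with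
multiplicities, without `0`) as `a_1, a_2, …` with `‖a_k‖ → ∞` and take
`z^{m 0} ∏_k E_k(z / a_k)`, `E_k(u) = (1 - u) exp (u + … + u^k / k)`, `‖E_k(u) - 1‖ ≤ ‖u‖^{k+1}` for
`‖u‖ ≤ 1` (or `≤ 2 ‖u‖^{k+1}` for `‖u‖ ≤ 1/2`, which is enough). Alternative: an infinite sum of
logarithms on each disc, glued. -/
theorem weierstrass (m : ℂ → ℕ) (hm : ∀ z, ∀ᶠ w in 𝓝[≠] z, m w = 0) :
    ∃ E : ℂ → ℂ, Differentiable ℂ E ∧ ∀ z, analyticOrderAt E z = m z := by
  classical
  set E : ℂ → ℂ := fun z => W1_Phi m hm (⌊2 * ‖z‖⌋₊ + 1) z with hE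
  have key : ∀ z : ℂ, ∀ N : ℕ, N = ⌊2 * ‖z‖⌋₊ + 1 → E =ᶠ[𝓝 z] W1_Phi m hm N := by
    intro z N hN
    have hU : IsOpen {z : ℂ | ‖z‖ < (N : ℝ) / 2} := isOpen_lt continuous_norm continuous_const
    have hz : z ∈ {z : ℂ | ‖z‖ < (N : ℝ) / 2} := by
      have := Nat.lt_floor_add_one (2 * ‖z‖)
      rw [Set.mem_ofPred_eq, hN]
      push_cast
      linarith
    filter_upwards [hU.mem_nhds hz] with w hw
    rw [hE]
    refine (W1_indep (by omega) ?_ ?_).symm
    · have := Nat.lt_floor_add_one (2 * ‖w‖)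
      push_cast
      linarith
    · have h1 : ⌊2 * ‖w‖⌋₊ < N := by
        rw [Nat.floor_lt (by positivity)]
        linarith
      omega
  have hmem : ∀ z : ℂ, ∀ N : ℕ, N = ⌊2 * ‖z‖⌋₊ + 1 → {z : ℂ | ‖z‖ < (N : ℝ) / 2} ∈ 𝓝 z := by
    intro z N hN
    have hU : IsOpen {z : ℂ | ‖z‖ < (N : ℝ) / 2} := isOpen_lt continuous_norm continuous_const
    refine hU.mem_nhds ?_
    have := Nat.lt_floor_add_one (2 * ‖z‖)
    rw [Set.mem_ofPred_eq, hN]
    push_cast
    linarith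
  -- the exponential of the tail
  have hT : ∀ z : ℂ, ∀ N : ℕ, N = ⌊2 * ‖z‖⌋₊ + 1 →
      AnalyticAt ℂ (fun w => Complex.exp (∑' k, W1_g m hm (k + N) w)) z := by
    intro z N hN
    have h1 := (W1_Phi_tail (m := m) (hm := hm) N (by omega)).analyticAt (hmem z N hN)
    exact h1.cexp
  have hZ : ∀ z : ℂ, AnalyticAt ℂ (fun w : ℂ => w ^ m 0) z := fun z =>
    (differentiable_id.pow (m 0)).analyticAt z
  have hP : ∀ z : ℂ, ∀ N : ℕ, AnalyticAt ℂ (fun w => ∏ n ∈ Finset.range N, W1_F m hm n w) z :=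
    fun z N => (W1_order_prod _ _ z fun n _ => (W1_F_diff n).analyticAt z).1
  have hA : ∀ z : ℂ, ∀ N : ℕ, N = ⌊2 * ‖z‖⌋₊ + 1 → AnalyticAt ℂ (W1_Phi m hm N) z := by
    intro z N hN
    exact ((hZ z).mul (hP z N)).mul (hT z N hN)
  refine ⟨E, fun z => ?_, fun z => ?_⟩
  · exact ((hA z _ rfl).congr (key z _ rfl).symm).differentiableAt
  · set N := ⌊2 * ‖z‖⌋₊ + 1 with hN
    rw [analyticOrderAt_congr (key z N hN)]
    have e : W1_Phi m hm N = ((fun w : ℂ => w ^ m 0) * (fun w => ∏ n ∈ Finset.range N, W1_F m hm n w)) *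
        (fun w => Complex.exp (∑' k, W1_g m hm (k + N) w)) := rfl
    rw [e, analyticOrderAt_mul ((hZ z).mul (hP z N)) (hT z N hN),
      analyticOrderAt_mul (hZ z) (hP z N)]
    have h1 : analyticOrderAt (fun w => Complex.exp (∑' k, W1_g m hm (k + N) w)) z = 0 := by
      rw [(hT z N hN).analyticOrderAt_eq_zero]
      exact Complex.exp_ne_zero _
    have h2 := (W1_order_prod (Finset.range N) (fun n => W1_F m hm n) z
      fun n _ => (W1_F_diff n).analyticAt z).2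
    rw [h1, add_zero, h2, Finset.sum_congr rfl fun n _ => W1_F_order n z]
    by_cases hz : z = 0
    · subst hz
      have h3 : analyticOrderAt (fun w : ℂ => w ^ m 0) 0 = (m 0 : ℕ∞) := by
        rw [(hZ 0).analyticOrderAt_eq_natCast]
        refine ⟨fun _ => 1, analyticAt_const, one_ne_zero, Eventually.of_forall fun w => ?_⟩
        simp
      rw [h3]
      have h4 : ∀ n ∈ Finset.range N, (if (0 : ℂ) ∈ W1_S m hm n then (m 0 : ℕ∞) else 0) = 0 := by
        intro n _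
        rw [if_neg]
        intro h
        exact (W1_mem.1 h).2.1 rfl
      rw [Finset.sum_eq_zero h4, add_zero]
    · have h3 : analyticOrderAt (fun w : ℂ => w ^ m 0) z = 0 := by
        rw [(hZ z).analyticOrderAt_eq_zero]
        exact pow_ne_zero _ hz
      rw [h3, zero_add]
      by_cases hmz : m z = 0
      · rw [hmz]
        simp
      · have h4 : ∀ n ∈ Finset.range N, (if z ∈ W1_S m hm n then (m z : ℕ∞) else 0) =
            if n = ⌊‖z‖⌋₊ then (m z : ℕ∞) else 0 := by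
          intro n _
          congr 1
          rw [W1_mem]
          refine propext ⟨fun h => h.2.2.symm, fun h => ⟨hmz, hz, h.symm⟩⟩
        rw [Finset.sum_congr rfl h4, Finset.sum_ite_eq']
        rw [if_pos]
        rw [Finset.mem_range, hN]
        have : ⌊‖z‖⌋₊ ≤ ⌊2 * ‖z‖⌋₊ := Nat.floor_le_floor (by linarith [norm_nonneg z])
        omega

end Pool.Agent.CampanaFlow
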