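import Pool.Agent.Lib_MP_1209e6_ag.Defs
import Pool.Agent.Lib_MP_1209e6_ag.Embed
import Pool.Agent.Lib_MP_1209e6_fl.Defs
import Pool.Agent.Lib_MP_1209e6_fl.W1

/-! PIECE W4: from a dense curve of points to a dense entire curve in the projective variety. -/

set_option autoImplicit false

open Filter Topology Pool.Agent.Campana

namespace Pool.Agent.CampanaFlow

/-- the function field is finitely generated -/
theorem funField_fg {n : ℕ} (P : Ideal (MvPolynomial (Fin (n + 1)) ℂ)) [P.IsPrime] :
    ∃ T : Finset (FunField P), IntermediateField.adjoin ℂ (T : Set (FunField P)) = ⊤ := by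
  classical
  refine ⟨Finset.univ.image fun ij : Fin (n + 1) × Fin (n + 1) => ratio P ij.1 ij.2, ?_⟩
  set S := IntermediateField.adjoin ℂ
    ((Finset.univ.image fun ij : Fin (n + 1) × Fin (n + 1) => ratio P ij.1 ij.2 :
      Finset (FunField P)) : Set (FunField P)) with hS
  rw [eq_top_iff]
  intro x _
  have hx : FunField.val P x ∈ IntermediateField.adjoin ℂ
      (Set.range fun ij : Fin (n + 1) × Fin (n + 1) => coord P ij.1 / coord P ij.2) :=
    (FunField.mem_range_val P _).1 ⟨x, rfl⟩
  have hle : IntermediateField.adjoin ℂ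
      (Set.range fun ij : Fin (n + 1) × Fin (n + 1) => coord P ij.1 / coord P ij.2) ≤
      S.map (FunField.val P) := by
    rw [IntermediateField.adjoin_le_iff]
    rintro _ ⟨⟨i, j⟩, rfl⟩
    refine ⟨ratio P i j, ?_, val_ratio P i j⟩
    exact IntermediateField.subset_adjoin _ _ (by simp)
  obtain ⟨y, hy, hyx⟩ := hle hx
  have : y = x := FunField.val_injective P hyx
  rw [← this]
  exact hy

/-- Let `u l z = γ z (ratio P l l₀)`, meromorphic on `ℂ`, `u l₀ = 1`, and
`m z = -min_l ord_z (u l) ≥ 0` (a natural number; over the `l` with `u l` not locally zero; `0` off `B`).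
`E` from `weierstrass` has order `m z` at every `z`. `E * u l` has order `≥ 0` everywhere, so it extends to
an entire function `F l` (`toMeromorphicNFOn`, `MeromorphicNFAt.meromorphicOrderAt_nonneg_iff_analyticAt`),
and at each `z` some `F l z ≠ 0` (the `l` of minimal order). For `q ∈ P` (homogeneous components are in
`P`) and `w` generic, `q_D (F w) = E w ^ D q_D (u w) = E w ^ D γ w (q_D (ratio)) = 0`, as
`q_D (ratio P l l₀)_l = 0` in the function field; by continuity everywhere. If `q` is homogeneous of degree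
`D` and vanishes on `F`, then `γ w (q (ratio)) = 0` for `w` generic, hence (analyticity) for all `w ∉ B`,
so `q (ratio) = 0` by `hdense`, so `q ∈ P`. -/
theorem brody_of_curve {n : ℕ} (P : Ideal (MvPolynomial (Fin (n + 1)) ℂ)) [P.IsPrime]
    (hP : IsVariety P) (l₀ : Fin (n + 1)) (hl₀ : MvPolynomial.X l₀ ∉ P)
    (S : Subalgebra ℂ (FunField P)) (hS : ∀ l, ratio P l l₀ ∈ S)
    (γ : ℂ → S →ₐ[ℂ] ℂ) (B : Set ℂ) (hγ : IsCurve Set.univ γ B)
    (hdense : ∀ f : S, (∀ z, z ∉ B → γ z f = 0) → f = 0) : BrodySpecial P := by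
  classical
  have hc : coord P l₀ ≠ 0 := fun h => hl₀ ((coord_eq_zero_iff P l₀).1 h)
  have hr1 : ratio P l₀ l₀ = 1 := by
    apply FunField.val_injective P
    rw [val_ratio, map_one, div_self hc]
  let R : Fin (n + 1) → S := fun l => ⟨ratio P l l₀, hS l⟩
  have hR1 : R l₀ = 1 := Subtype.ext hr1
  let u : Fin (n + 1) → ℂ → ℂ := fun l w => γ w (R l)
  have hu1 : ∀ w, u l₀ w = 1 := fun w => by
    change γ w (R l₀) = 1
    rw [hR1, map_one]
  have humer : ∀ l z, MeromorphicAt (u l) z := fun l z => hγ.mer (R l) z trivial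
  have huana : ∀ l z, z ∉ B → AnalyticAt ℂ (u l) z := fun l z hz => hγ.ana (R l) z trivial hz
  have hord0 : ∀ z, meromorphicOrderAt (u l₀) z = 0 := by
    intro z
    have : u l₀ = fun _ => (1 : ℂ) := funext hu1
    rw [this, meromorphicOrderAt_const]
    simp
  have hmex : ∀ z, ∃ m : ℕ, ∃ l, meromorphicOrderAt (u l) z = ((-(m : ℤ) : ℤ) : WithTop ℤ) ∧
      ∀ i, ((-(m : ℤ) : ℤ) : WithTop ℤ) ≤ meromorphicOrderAt (u i) z := by
    intro z
    obtain ⟨l, hl⟩ := Finite.exists_min fun l => meromorphicOrderAt (u l) z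
    have h0 : meromorphicOrderAt (u l) z ≤ 0 := (hord0 z) ▸ hl l₀
    have hne : meromorphicOrderAt (u l) z ≠ ⊤ := fun h => by
      rw [h] at h0
      exact absurd h0 (by simp)
    obtain ⟨a, ha⟩ := WithTop.ne_top_iff_exists.1 hne
    have ha0 : a ≤ 0 := by
      rw [← ha] at h0
      exact_mod_cast h0
    have haa : (-(((-a).toNat : ℕ) : ℤ) : ℤ) = a := by omega
    refine ⟨(-a).toNat, l, ?_, fun i => ?_⟩
    · rw [haa, ha]
    · rw [haa, ha]
      exact hl i
  choose m hm using hmex
  have hmB : ∀ z, z ∉ B → m z = 0 := by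
    intro z hz
    obtain ⟨l, hl, -⟩ := hm z
    have h0 : 0 ≤ meromorphicOrderAt (u l) z := (huana l z hz).meromorphicOrderAt_nonneg
    rw [hl] at h0
    have : (0 : ℤ) ≤ -(m z : ℤ) := by exact_mod_cast h0
    omega
  obtain ⟨E, hE, hEord⟩ := weierstrass m fun z => (hγ.disc z trivial).mono fun w hw => hmB w hw
  have hEana : ∀ z, AnalyticAt ℂ E z := fun z => hE.analyticAt z
  have hEmer : ∀ z, meromorphicOrderAt E z = ((m z : ℤ) : WithTop ℤ) := by
    intro z
    rw [(hEana z).meromorphicOrderAt_eq, hEord z]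
    rfl
  have hEne : ∀ z, ∀ᶠ w in 𝓝[≠] z, E w ≠ 0 := by
    intro z
    rw [← meromorphicOrderAt_ne_top_iff_eventually_ne_zero (hEana z).meromorphicAt, hEmer z]
    exact WithTop.coe_ne_top
  let G : Fin (n + 1) → ℂ → ℂ := fun l => E * u l
  have hGmer : ∀ l, MeromorphicOn (G l) Set.univ := fun l z _ =>
    (hEana z).meromorphicAt.mul (humer l z)
  have hGord : ∀ l z, meromorphicOrderAt (G l) z =
      ((m z : ℤ) : WithTop ℤ) + meromorphicOrderAt (u l) z := by
    intro l z
    rw [← hEmer z]
    exact meromorphicOrderAt_mul (hEana z).meromorphicAt (humer l z)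
  have hsum0 : ∀ z, ((m z : ℤ) : WithTop ℤ) + ((-(m z : ℤ) : ℤ) : WithTop ℤ) = 0 := by
    intro z
    rw [← WithTop.coe_add, add_neg_cancel]
    rfl
  let F : Fin (n + 1) → ℂ → ℂ := fun l => toMeromorphicNFOn (G l) Set.univ
  have hFnf : ∀ l z, MeromorphicNFAt (F l) z := fun l z =>
    meromorphicNFOn_toMeromorphicNFOn (G l) Set.univ (Set.mem_univ z)
  have hFord : ∀ l z, meromorphicOrderAt (F l) z =
      ((m z : ℤ) : WithTop ℤ) + meromorphicOrderAt (u l) z := fun l z =>
    (meromorphicOrderAt_toMeromorphicNFOn (hGmer l) (Set.mem_univ z)).trans (hGord l z)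
  have hFana : ∀ l z, AnalyticAt ℂ (F l) z := by
    intro l z
    rw [← (hFnf l z).meromorphicOrderAt_nonneg_iff_analyticAt, hFord, ← hsum0 z]
    obtain ⟨-, -, h⟩ := hm z
    exact add_le_add le_rfl (h l)
  have hFeq : ∀ z, ∀ᶠ w in 𝓝[≠] z, ∀ l, F l w = E w * u l w := by
    intro z
    rw [Filter.eventually_all]
    intro l
    exact (hGmer l).toMeromorphicNFOn_eq_self_on_nhdsNE (Set.mem_univ z)
  have hFdiff : ∀ l, Differentiable ℂ (F l) := fun l z => (hFana l z).differentiableAt
  have hFd : Differentiable ℂ (fun z l => F l z) := by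
    rw [differentiable_pi]
    exact hFdiff
  have heval : ∀ (q : MvPolynomial (Fin (n + 1)) ℂ), Continuous fun z =>
      MvPolynomial.eval (fun l => F l z) q := by
    intro q
    exact (MvPolynomial.continuous_eval q).comp hFd.continuous
  have hgen : ∀ (q : MvPolynomial (Fin (n + 1)) ℂ) (w : ℂ), MvPolynomial.eval (fun l => u l w) q =
      γ w (MvPolynomial.aeval R q) := by
    intro q w
    have h2 := MvPolynomial.comp_aeval_apply (R := ℂ) (f := R) (γ w) q
    rw [h2, MvPolynomial.aeval_eq_eval]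
  have hcoe : ∀ (q : MvPolynomial (Fin (n + 1)) ℂ),
      ((MvPolynomial.aeval R q : S) : FunField P) =
        MvPolynomial.aeval (fun i => ratio P i l₀) q := by
    intro q
    have h2 := MvPolynomial.comp_aeval_apply (R := ℂ) (f := R) S.val q
    exact h2
  have hhom : ∀ (q : MvPolynomial (Fin (n + 1)) ℂ) (D : ℕ), q.IsHomogeneous D → ∀ z,
      ∀ᶠ w in 𝓝[≠] z, MvPolynomial.eval (fun l => F l w) q =
        E w ^ D * γ w (MvPolynomial.aeval R q) := by
    intro q D hq z
    filter_upwards [hFeq z] with w hw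
    rw [← hgen q w]
    have h1 := aeval_mul_hom (E w) (fun l => u l w) q D hq
    rw [MvPolynomial.aeval_eq_eval, MvPolynomial.aeval_eq_eval] at h1
    have h3 : (fun l => F l w) = fun i => E w * u i w := funext hw
    rw [h3]
    exact h1
  refine ⟨fun z l => F l z, hFd, ?_, ?_, ?_⟩
  · intro z hz
    obtain ⟨l, hl, -⟩ := hm z
    have h0 : meromorphicOrderAt (F l) z = 0 := by rw [hFord, hl, hsum0]
    exact ((hFnf l z).meromorphicOrderAt_eq_zero_iff.1 h0) (congrFun hz l)
  · intro q hq z
    have hcomp : ∀ D, MvPolynomial.eval (fun l => F l z)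
        (MvPolynomial.homogeneousComponent D q) = 0 := by
      intro D
      have hqD := hP.2.1 q hq D
      have hhD := MvPolynomial.homogeneousComponent_isHomogeneous D q
      have h0 := (eval_ratio P l₀ hl₀ _ D hhD).1 hqD
      have h1 : (MvPolynomial.aeval R (MvPolynomial.homogeneousComponent D q) : S) = 0 :=
        Subtype.ext ((hcoe _).trans h0)
      have hev : (fun w => MvPolynomial.eval (fun l => F l w)
          (MvPolynomial.homogeneousComponent D q)) =ᶠ[𝓝[≠] z] fun _ => (0 : ℂ) := by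
        filter_upwards [hhom _ D hhD z] with w hw
        rw [hw, h1, map_zero, mul_zero]
      exact ((heval _).continuousAt.eventuallyEq_nhds_iff_eventuallyEq_nhdsNE
        continuousAt_const).1 hev |>.eq_of_nhds
    rw [← MvPolynomial.sum_homogeneousComponent q, map_sum]
    exact Finset.sum_eq_zero fun D _ => hcomp D
  · intro q D hq hz
    rw [eval_ratio P l₀ hl₀ q D hq, ← hcoe q]
    have h0 : (MvPolynomial.aeval R q : S) = 0 := by
      apply hdense
      intro z hzB
      have hev : (fun w => γ w (MvPolynomial.aeval R q)) =ᶠ[𝓝[≠] z] fun _ => (0 : ℂ) := by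
        filter_upwards [hhom q D hq z, hEne z] with w hw hEw
        rw [hz w] at hw
        rcases mul_eq_zero.1 hw.symm with h | h
        · exact absurd h (pow_ne_zero _ hEw)
        · exact h
      exact ((hγ.ana _ z trivial hzB).continuousAt.eventuallyEq_nhds_iff_eventuallyEq_nhdsNE
        continuousAt_const).1 hev |>.eq_of_nhds
    rw [h0]
    rfl

end Pool.Agent.CampanaFlow
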