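import Pool.Agent.Lib_MP_1209e6_fl.S1

/-! PIECE S3: the integral closure of a finitely generated domain is finitely generated. -/

set_option autoImplicit false

namespace Pool.Agent.CampanaFlow

/-- the subalgebra over `k` -/
private theorem s3_adj {K : Type} [Field K] [Algebra ℂ K] (k : IntermediateField ℂ K) (S : Set K) :
    Algebra.adjoin ℂ ((k : Set K) ∪ S) = (Algebra.adjoin k S).restrictScalars ℂ := by
  apply le_antisymm
  · apply Algebra.adjoin_le
    rintro x (hx | hx)
    · exact (Algebra.adjoin k S).algebraMap_mem (⟨x, hx⟩ : k)
    · exact Algebra.subset_adjoin hx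
  · have key : ∀ x ∈ Algebra.adjoin k S, x ∈ Algebra.adjoin ℂ ((k : Set K) ∪ S) := by
      intro x hx
      induction hx using Algebra.adjoin_induction with
      | mem x hx => exact Algebra.subset_adjoin (Or.inr hx)
      | algebraMap r => exact Algebra.subset_adjoin (Or.inl r.2)
      | add x y _ _ h1 h2 => exact add_mem h1 h2
      | mul x y _ _ h1 h2 => exact mul_mem h1 h2
    exact fun x hx => key x hx

private theorem s3_ft {K : Type} [Field K] [Algebra ℂ K] (k : IntermediateField ℂ K) (S : Finset K) :
    Algebra.FiniteType k (Algebra.adjoin k (S : Set K)) :=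
  (Subalgebra.fg_iff_finiteType _).1 ⟨S, rfl⟩

/-- the finiteness of the integral closure -/
private theorem s3_core {K : Type} [Field K] [Algebra ℂ K] (k : IntermediateField ℂ K)
    (R : Subalgebra k K) (hft : Algebra.FiniteType k R)
    (hfrac : ∀ a : K, ∃ b ∈ R, ∃ c ∈ R, c ≠ 0 ∧ a = b / c) :
    ∃ T : Finset K, (∀ t ∈ T, IsIntegral R t) ∧
      ∀ a : K, IsIntegral R a → a ∈ Algebra.adjoin k (T : Set K) := by
  classical
  obtain ⟨s, g, ginj, gfin⟩ := exists_finite_inj_algHom_of_fg k R
  let A := MvPolynomial (Fin s) k
  let _ : Algebra A R := g.toRingHom.toAlgebra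
  let _ : Algebra A K := ((algebraMap R K).comp g.toRingHom).toAlgebra
  have : IsScalarTower A R K := IsScalarTower.of_algebraMap_eq' rfl
  have : Module.Finite A R := gfin
  have hinj : Function.Injective (algebraMap A K) := by
    intro a b hab
    apply ginj
    exact Subtype.coe_injective hab
  have : FaithfulSMul A K := (faithfulSMul_iff_algebraMap_injective A K).2 hinj
  let _ : Algebra (FractionRing A) K := FractionRing.liftAlgebra A K
  have : IsScalarTower A (FractionRing A) K := FractionRing.isScalarTower_liftAlgebra A K
  have : IsFractionRing R K := by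
    apply IsFractionRing.of_field R K
    intro a
    obtain ⟨b, hb, c, hc, hc0, h⟩ := hfrac a
    exact ⟨⟨b, hb⟩, ⟨c, hc⟩, h⟩
  have : Algebra.EssFiniteType R K := Algebra.EssFiniteType.of_isLocalization K (nonZeroDivisors R)
  have : Algebra.EssFiniteType A K := Algebra.EssFiniteType.comp A R K
  have : Algebra.EssFiniteType (FractionRing A) K := Algebra.EssFiniteType.of_comp A (FractionRing A) K
  have : Algebra.IsIntegral A R := Algebra.IsIntegral.of_finite A R
  have : Algebra.IsAlgebraic A R := Algebra.IsIntegral.isAlgebraic
  have : Algebra.IsAlgebraic A K := (IsFractionRing.isAlgebraic_iff' A R K).1 inferInstance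
  have : Algebra.IsAlgebraic (FractionRing A) K :=
    (IsFractionRing.comap_isAlgebraic_iff (A := A) (K := FractionRing A) (C := K)).1 inferInstance
  have : FiniteDimensional (FractionRing A) K := Algebra.finite_of_essFiniteType_of_isAlgebraic
  have : Module.Finite A (integralClosure A K) :=
    IsIntegralClosure.finite A (FractionRing A) K (integralClosure A K)
  obtain ⟨T0, hT0⟩ := (‹Module.Finite A (integralClosure A K)›).fg_top
  refine ⟨T0.image (fun x : integralClosure A K => (x : K)) ∪ Finset.univ.image (fun i : Fin s => algebraMap A K (MvPolynomial.X i)),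
    ?_, ?_⟩
  · intro t ht
    rw [Finset.mem_union, Finset.mem_image, Finset.mem_image] at ht
    rcases ht with ⟨x, _, rfl⟩ | ⟨i, _, rfl⟩
    · have h1 : IsIntegral A (x : K) := x.2
      exact h1.tower_top
    · rw [IsScalarTower.algebraMap_apply A R K]
      exact isIntegral_algebraMap
  · intro a ha
    have h1 : IsIntegral A a := isIntegral_trans (A := R) a ha
    set B := Algebra.adjoin k ((T0.image (fun x : integralClosure A K => (x : K)) ∪
      Finset.univ.image (fun i : Fin s => algebraMap A K (MvPolynomial.X i)) : Finset K) : Set K) with hB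
    have hA : ∀ q : A, algebraMap A K q ∈ B := by
      intro q
      induction q using MvPolynomial.induction_on with
      | C r =>
        have h2 : algebraMap A K (MvPolynomial.C r) = algebraMap k K r := by
          show algebraMap R K (g (algebraMap k A r)) = _
          rw [g.commutes]
          rfl
        rw [h2]
        exact B.algebraMap_mem r
      | add p q h3 h4 => rw [map_add]; exact add_mem h3 h4
      | mul_X p i h3 =>
        rw [map_mul]
        refine mul_mem h3 (Algebra.subset_adjoin ?_)
        rw [Finset.mem_coe, Finset.mem_union]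
        exact Or.inr (Finset.mem_image_of_mem _ (Finset.mem_univ i))
    have h5 : (⟨a, h1⟩ : integralClosure A K) ∈ Submodule.span A (T0 : Set (integralClosure A K)) := by
      rw [hT0]; trivial
    have h6 : ∀ x ∈ Submodule.span A (T0 : Set (integralClosure A K)), (x : K) ∈ B := by
      intro x hx
      induction hx using Submodule.span_induction with
      | mem x hx =>
        apply Algebra.subset_adjoin
        rw [Finset.mem_coe, Finset.mem_union]
        exact Or.inl (Finset.mem_image_of_mem _ hx)
      | zero => exact zero_mem B
      | add x y _ _ h7 h8 => exact add_mem h7 h8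
      | smul c x _ h7 =>
        have h8 : ((c • x : integralClosure A K) : K) = algebraMap A K c * (x : K) := by
          rw [← Algebra.smul_def]
          rfl
        rw [h8]
        exact mul_mem (hA c) h7
    exact h6 _ h5

/-- Proof. `R` is a finitely generated `k`-algebra (make it a `Subalgebra k K`). Noether normalization
(`Mathlib.RingTheory.NoetherNormalization`, `exists_integral_inj_algHom_of_fg`): an injective integral
`g : MvPolynomial (Fin s) k → R`. `A = MvPolynomial (Fin s) k` is a noetherian UFD, hence integrally
closed, `L = FractionRing A`; `K` is a finite separable extension of `L` (algebraic and finitely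
generated, characteristic zero: `Algebra.finite_of_essFiniteType_of_isAlgebraic` or generated by
finitely many algebraic elements), the integral closure of `A` in `K` is a finite `A`-module
(`IsIntegralClosure.finite A L K`), it equals the integral closure of `R`
(`isIntegral_trans`). So it is generated by finitely many elements over `k`. -/
theorem exists_generators {K : Type} [Field K] [Algebra ℂ K] (k : IntermediateField ℂ K)
    (S : Finset K)
    (hfrac : ∀ a : K, ∃ b ∈ Algebra.adjoin ℂ ((k : Set K) ∪ S),
      ∃ c ∈ Algebra.adjoin ℂ ((k : Set K) ∪ S), c ≠ 0 ∧ a = b / c) :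
    ∃ T : Finset K, intCl (Algebra.adjoin ℂ ((k : Set K) ∪ S)) =
      Algebra.adjoin ℂ ((k : Set K) ∪ T) := by
  classical
  have hR := s3_adj k (S : Set K)
  have hfrac' : ∀ a : K, ∃ b ∈ Algebra.adjoin k (S : Set K),
      ∃ c ∈ Algebra.adjoin k (S : Set K), c ≠ 0 ∧ a = b / c := by
    intro a
    obtain ⟨b, hb, c, hc, h⟩ := hfrac a
    rw [hR] at hb hc
    exact ⟨b, hb, c, hc, h⟩
  obtain ⟨T, hT1, hT2⟩ := s3_core k (Algebra.adjoin k (S : Set K)) (s3_ft k S) hfrac'
  have hint : ∀ a : K, a ∈ intCl (Algebra.adjoin ℂ ((k : Set K) ∪ S)) ↔
      IsIntegral (Algebra.adjoin k (S : Set K)) a := by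
    intro a
    rw [hR]
    exact Iff.rfl
  refine ⟨T, le_antisymm ?_ ?_⟩
  · intro a ha
    rw [s3_adj k (T : Set K)]
    exact hT2 a ((hint a).1 ha)
  · apply Algebra.adjoin_le
    rintro x (hx | hx)
    · exact le_intCl _ (Algebra.subset_adjoin (Or.inl hx))
    · exact (hint x).2 (hT1 x hx)

/-- a finitely generated `k`-algebra is noetherian -/
theorem isNoetherianRing_adjoin {K : Type} [Field K] [Algebra ℂ K] (k : IntermediateField ℂ K)
    (S : Finset K) : IsNoetherianRing (Algebra.adjoin ℂ ((k : Set K) ∪ S)) := by
  have hft := s3_ft k S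
  have h := Algebra.FiniteType.isNoetherianRing k (Algebra.adjoin k (S : Set K))
  rw [s3_adj k (S : Set K)]
  exact h

end Pool.Agent.CampanaFlow
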