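import Pool.Agent.Lib_MP_1209e6_fl.S4b

/-! PIECE S5: an element which is integral over all charts of a projective variety over `k` is
algebraic over `k`. -/

set_option autoImplicit false

namespace Pool.Agent.CampanaFlow

open Pool.Agent.Campana

variable {K : Type} [Field K] [Algebra ℂ K]

theorem intCl_le_valuation (V : ValuationSubring K) (R : Subalgebra ℂ K) (hR : ∀ r ∈ R, r ∈ V)
    {z : K} (hz : z ∈ intCl R) : z ∈ V := by
  obtain ⟨p, hp, hpz⟩ := (mem_intCl.1 hz : IsIntegral _ z)
  let φ : R →+* V :=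
    { toFun := fun a => ⟨a, hR a a.2⟩
      map_one' := rfl
      map_mul' := fun a b => rfl
      map_zero' := rfl
      map_add' := fun a b => rfl }
  have h2 : IsIntegral V z := by
    refine ⟨p.map φ, hp.map φ, ?_⟩
    rw [Polynomial.eval₂_map]
    exact hpz
  obtain ⟨y, hy⟩ := (IsIntegrallyClosed.isIntegral_iff (R := V) (K := K)).1 h2
  rw [← hy]
  exact y.2

/-- every valuation ring containing `k` contains a chart -/
theorem exists_chart_le (k : IntermediateField ℂ K) {N : ℕ} (x : Fin (N + 1) → K)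
    (hx : ∀ i, x i ≠ 0) (V : ValuationSubring K) (hV : ∀ z ∈ k, z ∈ V) :
    ∃ j, ∀ r ∈ Chart k x j, r ∈ V := by
  obtain ⟨j, hj⟩ := Finite.exists_max fun i => V.valuation (x i)
  refine ⟨j, fun r hr => ?_⟩
  unfold Chart at hr
  induction hr using Algebra.adjoin_induction with
  | mem y hy =>
    rcases hy with hy | ⟨i, rfl⟩
    · exact hV y hy
    · change x i / x j ∈ V
      rw [← V.valuation_le_one_iff, map_div₀]
      exact div_le_one_of_le₀ (hj i) zero_le
  | algebraMap c => exact hV _ (k.algebraMap_mem c)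
  | add y z _ _ h1 h2 => exact V.add_mem _ _ h1 h2
  | mul y z _ _ h1 h2 => exact V.mul_mem _ _ h1 h2

theorem isAlgebraic_of_charts (k : IntermediateField ℂ K) {N : ℕ} (x : Fin (N + 1) → K)
    (hx : ∀ i, x i ≠ 0) (g : K) (hg : ∀ j, g ∈ intCl (Chart k x j)) : IsAlgebraic k g := by
  by_contra hcon
  have h1 : g ∉ (integralClosure k K).toSubring := fun h =>
    hcon (IsIntegral.isAlgebraic (R := k) h)
  have : IsIntegrallyClosedIn (integralClosure k K).toSubring K :=
    inferInstanceAs (IsIntegrallyClosedIn (integralClosure k K) K)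
  obtain ⟨V, hV, hgV⟩ := Subring.exists_le_valuationSubring_of_isIntegrallyClosedIn h1
  obtain ⟨j, hj⟩ := exists_chart_le k x hx V fun z hz =>
    hV (isIntegral_algebraMap (R := k) (A := K) (x := ⟨z, hz⟩))
  exact hgV (intCl_le_valuation V _ hj (hg j))

end Pool.Agent.CampanaFlow
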