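import Pool.Agent.Lib_MP_1209e6_fl.S2
import Pool.Agent.Lib_MP_1209e6_fl.S3
import Pool.Agent.Lib_MP_1209e6_fl.S5

/-! PIECE S6: ratios of sections are constant along almost homogeneous fibrations. -/

set_option autoImplicit false

namespace Pool.Agent.CampanaFlow

open Polynomial Pool.Agent.Campana

variable {K : Type} [Field K] [Algebra ℂ K]

theorem isAlgebraic_over_basis {ι : Type} (k : IntermediateField ℂ K) (y : ι → k)
    (hy : IsTranscendenceBasis ℂ y) (z : K) (hz : z ∈ k) :
    IsAlgebraic (IntermediateField.adjoin ℂ (Set.range fun i => (y i : K))) z := by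
  by_contra hcon
  have h0 : AlgebraicIndependent ℂ (fun i => (y i : K)) :=
    hy.1.map' (f := k.val) k.val.injective
  have h1 : Transcendental (Algebra.adjoin ℂ (Set.range fun i => (y i : K))) z := fun h =>
    hcon (IntermediateField.isAlgebraic_adjoin_iff.mpr h)
  have h2 := (h0.option_iff_transcendental z).2 h1
  have h3 : AlgebraicIndependent ℂ (fun o : Option ι => o.elim (⟨z, hz⟩ : k) y) := by
    refine AlgebraicIndependent.of_comp k.val ?_
    convert h2 using 1
    ext o
    cases o <;> rfl
  have h4 := (hy.1.option_iff_transcendental _).1 h3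
  exact h4 (hy.isAlgebraic.isAlgebraic _)

theorem der_preserves {ι : Type} (k : IntermediateField ℂ K) (y : ι → k)
    (hy : IsTranscendenceBasis ℂ y) (E : Derivation ℂ K K)
    (hE : ∀ i, E (y i : K) ∈ IntermediateField.adjoin ℂ (Set.range fun i => (y i : K))) :
    ∀ z ∈ k, E z ∈ k := by
  intro z hz
  have halg := isAlgebraic_over_basis k y hy z hz
  set F := IntermediateField.adjoin ℂ (Set.range fun i => (y i : K)) with hF
  have hFk : F ≤ k := by
    rw [hF, IntermediateField.adjoin_le_iff]
    rintro _ ⟨i, rfl⟩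
    exact (y i).2
  have hEF : ∀ x ∈ F, E x ∈ F := fun x hx => RatPlace.der_adjoin E _ (by
    rintro _ ⟨i, rfl⟩
    exact hE i) x hx
  obtain ⟨q, hq⟩ := der_aeval F E hEF z (minpoly F z)
  rw [minpoly.aeval, map_zero] at hq
  have h4 : aeval z (derivative (minpoly F z)) ≠ 0 :=
    (minpoly.irreducible halg.isIntegral).separable.aeval_derivative_ne_zero (minpoly.aeval F z)
  have h5 : ∀ r : F[X], aeval z r ∈ k := by
    intro r
    rw [aeval_eq_sum_range]
    refine sum_mem fun i _ => ?_
    rw [Algebra.smul_def]
    exact mul_mem (hFk (r.coeff i).2) (pow_mem hz i)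
  have h6 : E z = -(aeval z q) / aeval z (derivative (minpoly F z)) := by
    rw [eq_div_iff h4]
    linear_combination -hq
  rw [h6]
  exact div_mem (neg_mem (h5 q)) (h5 _)

/-- the derivations which preserve `k` span all derivations modulo the `k`-linear ones -/
theorem span_lifts [FinTrdeg ℂ K] (k : IntermediateField ℂ K) :
    Submodule.span K {E : Derivation ℂ K K | ∀ z ∈ k, E z ∈ k} = ⊤ := by
  classical
  obtain ⟨b, hb⟩ := exists_isTranscendenceBasis ℂ k
  have hbK : AlgebraicIndependent ℂ (fun i : b => ((i : k) : K)) :=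
    hb.1.map' (f := k.val) k.val.injective
  have hfin : Finite b := finite_of_algebraicIndependent hbK
  have := Fintype.ofFinite b
  have hex : ∀ i : b, ∃ E : Derivation ℂ K K, ∀ j : b, E ((j : k) : K) = if i = j then 1 else 0 :=
    fun i => exists_derivation _ hbK _
  choose E hE using hex
  have hEL : ∀ i, E i ∈ {E : Derivation ℂ K K | ∀ z ∈ k, E z ∈ k} := by
    intro i
    refine der_preserves k (fun i : b => (i : k)) hb (E i) fun j => ?_
    rw [hE]
    split_ifs
    · exact one_mem _
    · exact zero_mem _
  rw [eq_top_iff]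
  intro δ _
  have hsum : ∀ z : K, (∑ i : b, δ ((i : k) : K) • E i) z = ∑ i : b, δ ((i : k) : K) * E i z := by
    intro z
    have h := congrArg (fun φ : K → K => φ z)
      (map_sum (Derivation.coeFnAddMonoidHom (R := ℂ) (A := K) (M := K))
        (fun i : b => δ ((i : k) : K) • E i) Finset.univ)
    simp only [Finset.sum_apply] at h
    exact h
  have h1 : ∀ z ∈ k, (δ - ∑ i : b, δ ((i : k) : K) • E i) z = 0 := by
    refine der_kills k (fun i : b => (i : k)) hb _ fun j => ?_
    rw [Derivation.sub_apply, hsum]
    simp [hE]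
  have h2 : δ - ∑ i : b, δ ((i : k) : K) • E i ∈
      Submodule.span K {E : Derivation ℂ K K | ∀ z ∈ k, E z ∈ k} :=
    Submodule.subset_span fun z hz => by rw [h1 z hz]; exact k.zero_mem
  have h3 := Submodule.add_mem _ h2 (Submodule.sum_mem _ (t := Finset.univ)
    (f := fun i : b => δ ((i : k) : K) • E i) fun i _ =>
    Submodule.smul_mem _ (δ ((i : k) : K)) (Submodule.subset_span (hEL i)))
  rwa [sub_add_cancel] at h3

theorem exists_tuple {p : ℕ} (ω : Form K p) (hω : ω ≠ 0) (G : Set (Derivation ℂ K K))
    (hG : Submodule.span K G = ⊤) : ∃ w : Fin p → Derivation ℂ K K, (∀ a, w a ∈ G) ∧ ω w ≠ 0 := by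
  by_contra hcon
  push Not at hcon
  apply hω
  refine Module.Basis.ext_alternating (Module.Basis.ofSpan hG.ge) fun v _ => ?_
  rw [hcon _ fun a => Module.Basis.ofSpan_subset hG.ge ⟨v a, rfl⟩]
  rfl

/-- the contraction: a nonzero value of `ω` which does not depend on the choice of the lifts -/
theorem exists_contraction {p : ℕ} (ω : Form K p) (hω : ω ≠ 0) (k : IntermediateField ℂ K)
    (hL : Submodule.span K {E : Derivation ℂ K K | ∀ z ∈ k, E z ∈ k} = ⊤)
    (G : Set (Derivation ℂ K K)) (hGk : ∀ D ∈ G, ∀ z ∈ k, D z = 0)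
    (hG : ∀ D : Derivation ℂ K K, (∀ z ∈ k, D z = 0) → D ∈ Submodule.span K G) :
    ∃ w : Fin p → Derivation ℂ K K, (∀ a, ∀ z ∈ k, w a z ∈ k) ∧ ω w ≠ 0 ∧
      ∀ w' : Fin p → Derivation ℂ K K, (∀ a, w a ∈ G → w' a = w a) →
        (∀ a, ∀ z ∈ k, w' a z = w a z) → ω w' = ω w := by
  classical
  have hex : ∃ n : ℕ, ∃ w : Fin p → Derivation ℂ K K, (∀ a, ∀ z ∈ k, w a z ∈ k) ∧ ω w ≠ 0 ∧
      p - (Finset.univ.filter fun a => w a ∈ G).card = n := by
    obtain ⟨w, hw, hw0⟩ := exists_tuple ω hω _ hL
    exact ⟨_, w, hw, hw0, rfl⟩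
  obtain ⟨w, hw, hw0, hwn⟩ := Nat.find_spec hex
  have hmax : ∀ w' : Fin p → Derivation ℂ K K, (∀ a, ∀ z ∈ k, w' a z ∈ k) →
      (Finset.univ.filter fun a => w a ∈ G).card < (Finset.univ.filter fun a => w' a ∈ G).card →
      ω w' = 0 := by
    intro w' hw' hlt
    by_contra h0
    have h1 : (Finset.univ.filter fun a => w' a ∈ G).card ≤ p := by
      refine (Finset.card_filter_le _ _).trans ?_
      simp
    refine Nat.find_min hex (m := p - (Finset.univ.filter fun a => w' a ∈ G).card) ?_
      ⟨w', hw', h0, rfl⟩
    rw [← hwn]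
    omega
  refine ⟨w, hw, hw0, fun w' hG' hk' => ?_⟩
  have hw'k : ∀ a, ∀ z ∈ k, w' a z ∈ k := fun a z hz => by rw [hk' a z hz]; exact hw a z hz
  have key : ∀ s : Finset (Fin p), ω (fun a => if a ∈ s then w' a else w a) = ω w := by
    intro s
    induction s using Finset.induction_on with
    | empty => simp
    | insert b s hb ih =>
      set u : Fin p → Derivation ℂ K K := fun a => if a ∈ s then w' a else w a with hu
      have hub : u b = w b := by simp [hu, hb]
      have hfun : (fun a => if a ∈ insert b s then w' a else w a) = Function.update u b (w' b) := by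
        ext1 a
        by_cases hab : a = b
        · subst hab
          simp
        · simp [hu, hab]
      have huk : ∀ a, ∀ z ∈ k, u a z ∈ k := by
        intro a z hz
        simp only [hu]
        split_ifs
        · exact hw'k a z hz
        · exact hw a z hz
      rw [hfun]
      by_cases hbG : w b ∈ G
      · rw [hG' b hbG, ← hub, Function.update_eq_self]
        exact ih
      have h1 : w' b = w b + (w' b - w b) := by abel
      rw [h1, AlternatingMap.map_update_add]
      have h2 : Function.update u b (w b) = u := by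
        rw [← hub, Function.update_eq_self]
      rw [h2, ih]
      have h3 : w' b - w b ∈ Submodule.span K G := hG _ fun z hz => by
        rw [Derivation.sub_apply, hk' b z hz, sub_self]
      have h4 : ∀ δ ∈ Submodule.span K G, ω (Function.update u b δ) = 0 := by
        intro δ hδ
        induction hδ using Submodule.span_induction with
        | mem D hD =>
          apply hmax
          · intro a z hz
            by_cases hab : a = b
            · subst hab
              rw [Function.update_self, hGk D hD z hz]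
              exact k.zero_mem
            · rw [Function.update_of_ne hab]
              exact huk a z hz
          · have h5 : insert b (Finset.univ.filter fun a => w a ∈ G) ⊆
                Finset.univ.filter fun a => Function.update u b D a ∈ G := by
              intro a ha
              rw [Finset.mem_filter]
              refine ⟨Finset.mem_univ _, ?_⟩
              by_cases hab : a = b
              · subst hab
                rw [Function.update_self]
                exact hD
              · rw [Function.update_of_ne hab]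
                have h6 : w a ∈ G := by
                  rw [Finset.mem_insert, Finset.mem_filter] at ha
                  exact (ha.resolve_left hab).2
                simp only [hu]
                split_ifs
                · rw [hG' a h6]
                  exact h6
                · exact h6
            have h7 := Finset.card_le_card h5
            rw [Finset.card_insert_of_notMem (by
              rw [Finset.mem_filter]
              exact fun h => hbG h.2)] at h7
            omega
        | zero => exact ω.map_update_zero _ _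
        | add x y _ _ hx hy => rw [AlternatingMap.map_update_add, hx, hy, add_zero]
        | smul c x _ hx => rw [AlternatingMap.map_update_smul, hx, smul_zero]
      rw [h4 _ h3, add_zero]
  have := key Finset.univ
  simpa using this

/-- the fraction field of every chart -/
theorem chart_frac (k : IntermediateField ℂ K) {N : ℕ} (x : Fin (N + 1) → K)
    (hx : ∀ i, x i ≠ 0)
    (hgen : IntermediateField.adjoin ℂ ((k : Set K) ∪ Set.range fun i => x i / x 0) = ⊤)
    (j : Fin (N + 1)) (a : K) :
    ∃ b ∈ Chart k x j, ∃ c ∈ Chart k x j, c ≠ 0 ∧ a = b / c := by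
  have h1 : IntermediateField.adjoin ℂ ((k : Set K) ∪ Set.range fun i => x i / x j) = ⊤ := by
    rw [eq_top_iff, ← hgen, IntermediateField.adjoin_le_iff]
    rintro z (hz | ⟨i, rfl⟩)
    · exact IntermediateField.subset_adjoin _ _ (Or.inl hz)
    · have h2 : x i / x 0 = (x i / x j) / (x 0 / x j) := by
        have := hx j
        have := hx 0
        field_simp
      change x i / x 0 ∈ _
      rw [h2]
      exact div_mem (IntermediateField.subset_adjoin _ _ (Or.inr ⟨i, rfl⟩))
        (IntermediateField.subset_adjoin _ _ (Or.inr ⟨0, rfl⟩))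
  have h3 : a ∈ IntermediateField.adjoin ℂ ((k : Set K) ∪ Set.range fun i => x i / x j) := by
    rw [h1]
    trivial
  rw [IntermediateField.mem_adjoin_iff_div] at h3
  obtain ⟨b, hb, c, hc, rfl⟩ := h3
  by_cases hc0 : c = 0
  · refine ⟨0, Subalgebra.zero_mem _, 1, Subalgebra.one_mem _, one_ne_zero, ?_⟩
    rw [hc0, div_zero, zero_div]
  · exact ⟨b, hb, c, hc, hc0, rfl⟩

theorem chart_eq (k : IntermediateField ℂ K) {N : ℕ} (x : Fin (N + 1) → K) (j : Fin (N + 1)) :
    ∃ S : Finset K, Chart k x j = Algebra.adjoin ℂ ((k : Set K) ∪ S) := by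
  classical
  refine ⟨Finset.univ.image fun i => x i / x j, ?_⟩
  unfold Chart
  congr 2
  ext z
  simp

theorem intCl_integrallyClosed (R : Subalgebra ℂ K) (a : K) (ha : IsIntegral (intCl R) a) :
    a ∈ intCl R := by
  have h1 : IsIntegral (integralClosure R K) a := ha
  exact isIntegral_trans (R := R) (A := integralClosure R K) a h1

/-- at a discrete valuation ring which is a localisation of a normalised chart, the sections times
powers of the contraction are regular -/
theorem mem_intCl_chart [FinTrdeg ℂ K] (k : IntermediateField ℂ K) {N : ℕ}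
    (x : Fin (N + 1) → K) (h : AlmostHomogeneous k x) {p m : ℕ} (ω : Form K p)
    (w : Fin p → Derivation ℂ K K) (hw : ∀ a, ∀ z ∈ k, w a z ∈ k)
    (hww : ∀ w' : Fin p → Derivation ℂ K K,
      (∀ a, w a ∈ {D : Derivation ℂ K K | GlobalField k x D} → w' a = w a) →
        (∀ a, ∀ z ∈ k, w' a z = w a z) → ω w' = ω w) (f : K)
    (hreg : ∀ O : ValuationSubring K, IsPlace O → RegularAt O ω m f) (j : Fin (N + 1)) :
    f * (ω w) ^ m ∈ intCl (Chart k x j) := by
  classical
  by_contra hcon
  obtain ⟨S, hS⟩ := chart_eq k x j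
  have hfrac := chart_frac k x h.ne_zero h.gen j
  have hfracS : ∀ a : K, ∃ b ∈ Algebra.adjoin ℂ ((k : Set K) ∪ S),
      ∃ c ∈ Algebra.adjoin ℂ ((k : Set K) ∪ S), c ≠ 0 ∧ a = b / c := by
    rw [← hS]
    exact hfrac
  obtain ⟨T, hT⟩ := exists_generators k S hfracS
  rw [← hS] at hT
  have hnoeth : IsNoetherianRing (intCl (Chart k x j)) := by
    rw [hT]
    exact isNoetherianRing_adjoin k T
  have hnoethC : IsNoetherianRing (Chart k x j) := by
    rw [hS]
    exact isNoetherianRing_adjoin k S
  obtain ⟨O, hdvr, hBO, hgO, hloc⟩ := exists_dvr (intCl (Chart k x j)) hnoeth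
    (fun a => by
      obtain ⟨b, hb, c, hc, hc0, hac⟩ := hfrac a
      exact ⟨b, le_intCl _ hb, c, le_intCl _ hc, hc0, hac⟩)
    (intCl_integrallyClosed _) _ hcon
  have hO : IsPlace O := ⟨fun c => hBO _ (Subalgebra.algebraMap_mem _ c), hdvr⟩
  have hTO : ∀ r ∈ Algebra.adjoin ℂ ((k : Set K) ∪ T), r ∈ O := by
    rw [← hT]
    exact hBO
  have hlocT : ∀ z ∈ O, ∃ b ∈ Algebra.adjoin ℂ ((k : Set K) ∪ T),
      ∃ s ∈ Algebra.adjoin ℂ ((k : Set K) ∪ T), s ≠ 0 ∧ s⁻¹ ∈ O ∧ z = b / s := by
    rw [← hT]
    exact hloc
  have hex : ∀ a, ∃ E' : Derivation ℂ K K, (∀ z ∈ k, E' z = w a z) ∧ ∀ z ∈ O, E' z ∈ O :=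
    fun a => exists_lift k O hO T hTO hlocT (w a) (hw a)
  choose E' hE'k hE'O using hex
  set w' : Fin p → Derivation ℂ K K := fun a =>
    if w a ∈ {D : Derivation ℂ K K | GlobalField k x D} then w a else E' a with hw'
  have hval : ω w' = ω w := by
    apply hww
    · intro a ha
      simp only [hw', if_pos ha]
    · intro a z hz
      simp only [hw']
      split_ifs
      · rfl
      · exact hE'k a z hz
  have hpres : ∀ a, ∀ z ∈ O, w' a z ∈ O := by
    intro a
    simp only [hw']
    split_ifs with ha
    · intro z hz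
      have h1 := seidenberg (w a) (Chart k x j) hnoethC hfrac (ha.2 j)
      obtain ⟨b, hb, s, hs, hs0, hs', rfl⟩ := hloc z hz
      have h3 : w a (b / s) = s⁻¹ * (w a b) - b * (s⁻¹ * s⁻¹) * (w a s) := by
        rw [Derivation.leibniz_div]
        simp only [smul_eq_mul]
        field_simp
      rw [h3]
      exact sub_mem (O.mul_mem _ _ hs' (hBO _ (h1 b hb))) (O.mul_mem _ _ (O.mul_mem _ _ (hBO b hb)
        (O.mul_mem _ _ hs' hs')) (hBO _ (h1 s hs)))
    · exact hE'O a
  obtain ⟨u, hu0, hu, hfu⟩ := hreg O hO
  have h4 := hu w' hpres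
  rw [hval] at h4
  apply hgO
  have h5 : f * (ω w) ^ m = (f * u ^ m) * (u⁻¹ * ω w) ^ m := by
    rw [mul_pow, inv_pow]
    have := pow_ne_zero m hu0
    field_simp
  rw [h5]
  exact O.mul_mem _ _ hfu (pow_mem h4 m)

/-- regular sections of powers of rank one subsheaves of forms have ratios which are algebraic over the
base field of every almost homogeneous model -/
theorem isAlgebraic_ratio {K : Type} [Field K] [Algebra ℂ K]
    (hfg : ∃ T : Finset K, IntermediateField.adjoin ℂ (T : Set K) = ⊤)
    (k : IntermediateField ℂ K) {N : ℕ} (x : Fin (N + 1) → K) (h : AlmostHomogeneous k x)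
    {p m : ℕ} (ω : Form K p) (hω : ω ≠ 0) (f₀ f₁ : K) (hf₀ : f₀ ≠ 0)
    (hreg : ∀ O : ValuationSubring K, IsPlace O → RegularAt O ω m f₀ ∧ RegularAt O ω m f₁) :
    IsAlgebraic k (f₁ / f₀) := by
  have hess : Algebra.EssFiniteType ℂ K := IntermediateField.fg_top_iff.1 hfg
  have : FinTrdeg ℂ K := inferInstance
  obtain ⟨w, hw, hw0, hww⟩ := exists_contraction ω hω k (span_lifts k)
    {D : Derivation ℂ K K | GlobalField k x D} (fun D hD z hz => hD.1 z hz) h.span
  have h0 := isAlgebraic_of_charts k x h.ne_zero _ fun j =>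
    mem_intCl_chart k x h ω w hw hww f₀ (fun O hO => (hreg O hO).1) (m := m) j
  have h1 := isAlgebraic_of_charts k x h.ne_zero _ fun j =>
    mem_intCl_chart k x h ω w hw hww f₁ (fun O hO => (hreg O hO).2) (m := m) j
  have h2 : f₁ / f₀ = (f₁ * ω w ^ m) * (f₀ * ω w ^ m)⁻¹ := by
    have := pow_ne_zero m hw0
    field_simp
  rw [h2]
  exact h1.mul h0.inv

end Pool.Agent.CampanaFlow
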