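import Pool.Agent.Lib_MP_1209e6_ag.Defs
import Pool.Agent.Lib_MP_1209e6_fl.Defs
import Pool.Agent.Lib_MP_1209e6_fl.S6

/-! The special side. -/

set_option autoImplicit false

open Pool.Agent.Campana

namespace Pool.Agent.CampanaFlow

theorem special_main {K : Type} [Field K] [Algebra ℂ K]
    (hfg : ∃ T : Finset K, IntermediateField.adjoin ℂ (T : Set K) = ⊤)
    {r : ℕ} (k : Fin r → IntermediateField ℂ K) (N : Fin r → ℕ) (x : ∀ i, Fin (N i + 1) → K)
    (h : ∀ i, AlmostHomogeneous (k i) (x i))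
    (hc : ∀ u : K, (∀ i, IsAlgebraic (k i) u) → ∃ c : ℂ, u = algebraMap ℂ K c) :
    SpecialField K := by
  intro p hp ω hω m hm f₀ hf₀ f hreg hind
  have i0 : Fin p := ⟨0, hp⟩
  obtain ⟨c, hc'⟩ := hc (f i0 / f₀) fun i =>
    isAlgebraic_ratio hfg (k i) (x i) (h i) ω hω f₀ (f i0) hf₀ fun O hO =>
      ⟨(hreg O hO).1, (hreg O hO).2 i0⟩
  have h1 := hind.transcendental i0
  apply h1
  simp only [hc']
  exact isAlgebraic_algebraMap c

end Pool.Agent.CampanaFlow
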