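import Pool.Agent.Lib_MP_1209e6_fl.F1

/-! PIECE D5: vanishing on a grid of times. -/

set_option autoImplicit false

open Filter Topology

namespace Pool.Agent.CampanaFlow

variable {S : Type} [CommRing S] [Algebra ℂ S] {ι : Type}

theorem FlowsTo.unique (d : ι → Derivation ℂ S S) (p : S →ₐ[ℂ] ℂ) (l : List ι) (ts : List ℂ)
    {q q' : S →ₐ[ℂ] ℂ} (h : FlowsTo d p l ts q) (h' : FlowsTo d p l ts q') : q = q' := by
  induction l generalizing ts q q' with
  | nil =>
    cases ts with
    | nil =>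
      have h1 : q = p := h
      have h2 : q' = p := h'
      rw [h1, h2]
    | cons t ts => exact absurd h id
  | cons i l ih =>
    cases ts with
    | nil => exact absurd h id
    | cons t ts =>
      obtain ⟨q1, h1, h2⟩ := h
      obtain ⟨q2, h3, h4⟩ := h'
      have h5 := ih ts h1 h3
      subst h5
      apply AlgHom.ext
      intro f
      rw [(h2 f).2, (h4 f).2]

/-- A power series converging absolutely at `Λ 0 ≠ 0` and vanishing at the points `Λ k → 0`, `Λ k ≠ 0`,
is zero (identity theorem, `HasFPowerSeries...` or directly by induction on the first nonzero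
coefficient). -/
theorem tc_eq_zero {D : Derivation ℂ S S} {q : S →ₐ[ℂ] ℂ} {f : S} (Λ : ℕ → ℂ)
    (hΛ0 : ∀ k, Λ k ≠ 0) (hΛ : Tendsto Λ atTop (𝓝 0)) (hc : ∀ k, Conv D q (Λ k) f)
    (h : ∀ k, ev D q (Λ k) f = 0) : ∀ n, tc D q f n = 0 := by
  intro n
  induction n using Nat.strong_induction_on with
  | _ n ih =>
    set a : ℕ → ℂ := tc D q f with ha
    set r : ℝ := ‖Λ 0‖ with hr
    have hr0 : 0 < r := norm_pos_iff.mpr (hΛ0 0)
    have hs0 : Summable (fun m => ‖a m‖ * r ^ m) := hc 0
    have hs1 : Summable (fun j => ‖a (j + (n + 1))‖ * r ^ j) := by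
      have h1 := ((summable_nat_add_iff (n + 1)).2 hs0).mul_right (r ^ (n + 1))⁻¹
      refine h1.congr (fun j => ?_)
      rw [pow_add]
      field_simp
    set M : ℝ := ∑' j, ‖a (j + (n + 1))‖ * r ^ j with hM
    have key : ∀ k, ‖Λ k‖ ≤ r → ‖a n‖ ≤ ‖Λ k‖ * M := by
      intro k hk
      set z : ℂ := Λ k with hz
      have hz0 : 0 < ‖z‖ := norm_pos_iff.mpr (hΛ0 k)
      have hcz : Summable (fun m => ‖a m‖ * ‖z‖ ^ m) := hc k
      have hcz2 : Summable (fun m => a m * z ^ m) := by
        apply Summable.of_norm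
        refine hcz.congr (fun m => ?_)
        rw [norm_mul, norm_pow]
      have hev : ∑' m, a m * z ^ m = 0 := h k
      rw [← hcz2.sum_add_tsum_nat_add (n + 1), Finset.sum_range_succ,
        Finset.sum_eq_zero (fun m hm => by rw [ih m (Finset.mem_range.mp hm), zero_mul]),
        zero_add] at hev
      have h2 : ∑' j, a (j + (n + 1)) * z ^ (j + (n + 1))
          = z ^ (n + 1) * ∑' j, a (j + (n + 1)) * z ^ j := by
        rw [← tsum_mul_left]
        congr 1
        funext j
        rw [pow_add]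
        ring
      have h3 : ‖∑' j, a (j + (n + 1)) * z ^ j‖ ≤ M := by
        apply tsum_of_norm_bounded hs1.hasSum
        intro j
        rw [norm_mul, norm_pow]
        gcongr
      have h4 : a n * z ^ n = -(z ^ (n + 1) * ∑' j, a (j + (n + 1)) * z ^ j) := by
        rw [← h2]
        exact eq_neg_of_add_eq_zero_left hev
      have h5 : ‖a n‖ * ‖z‖ ^ n ≤ ‖z‖ ^ n * (‖z‖ * M) := by
        rw [← norm_pow, ← norm_mul, h4, norm_neg, norm_mul, norm_pow, pow_succ, mul_assoc,
          norm_pow]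
        gcongr
      rw [mul_comm] at h5
      exact le_of_mul_le_mul_left h5 (by positivity)
    have hlim : Tendsto (fun k => ‖Λ k‖ * M) atTop (𝓝 0) := by
      have h1 := (tendsto_zero_iff_norm_tendsto_zero.mp hΛ).mul_const M
      rwa [zero_mul] at h1
    have hev : ∀ᶠ k in atTop, ‖a n‖ ≤ ‖Λ k‖ * M := by
      have h1 := tendsto_zero_iff_norm_tendsto_zero.mp hΛ
      have h2 := h1.eventually (gt_mem_nhds hr0)
      filter_upwards [h2] with k hk
      exact key k hk.le
    have h6 := ge_of_tendsto hlim hev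
    exact norm_le_zero_iff.mp h6

/-- Induction on `l`, for all `f`. `i :: l`: let `n` be given; to show `Kills d p l (D_i^n f)` use the
induction hypothesis. For `ts` of length `l.length`: for every `k` the hypothesis for `Λ k :: ts` gives
`q_k` with `FlowsTo d p l ts q_k` (all equal to `q' = q_0` by uniqueness), `IsFlow (d i) q' (Λ k) q` and
`q f = 0`, so `ev (d i) q' (Λ k) f = 0`; `tc_eq_zero` gives `q' (D_i^n f) = 0`. -/
theorem kills_of_grid (d : ι → Derivation ℂ S S) (p : S →ₐ[ℂ] ℂ) (Λ : ℕ → ℂ)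
    (hΛ0 : ∀ k, Λ k ≠ 0) (hΛ : Tendsto Λ atTop (𝓝 0)) (l : List ι) (f : S)
    (h : ∀ ts : List ℂ, ts.length = l.length → (∀ t ∈ ts, t ∈ Set.range Λ) →
      ∃ q, FlowsTo d p l ts q ∧ q f = 0) : Kills d p l f := by
  induction l generalizing f with
  | nil =>
    obtain ⟨q, hq, hqf⟩ := h [] rfl (fun t ht => absurd ht (List.not_mem_nil))
    have h1 : q = p := hq
    rw [h1] at hqf
    exact hqf
  | cons i l ih =>
    intro n
    apply ih
    intro ts hlen hts
    have h1 : ∀ k, ∃ q q' : S →ₐ[ℂ] ℂ, FlowsTo d p l ts q' ∧ IsFlow (d i) q' (Λ k) q ∧ q f = 0 := by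
      intro k
      obtain ⟨q, hq, hqf⟩ := h (Λ k :: ts) (by simp [hlen]) (by
        intro t ht
        rcases List.mem_cons.mp ht with rfl | ht
        · exact ⟨k, rfl⟩
        · exact hts t ht)
      obtain ⟨q', h2, h3⟩ := hq
      exact ⟨q, q', h2, h3, hqf⟩
    choose q q' h2 h3 h4 using h1
    refine ⟨q' 0, h2 0, ?_⟩
    have h5 : ∀ k, q' k = q' 0 := fun k => FlowsTo.unique d p l ts (h2 k) (h2 0)
    have h6 := tc_eq_zero (D := d i) (q := q' 0) (f := f) Λ hΛ0 hΛ
      (fun k => by have := (h3 k f).1; rwa [h5 k] at this)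
      (fun k => by
        have h7 := (h3 k f).2
        rw [h5 k, h4 k] at h7
        exact h7.symm) n
    unfold tc at h6
    rcases div_eq_zero_iff.mp h6 with h7 | h7
    · exact h7
    · exfalso
      exact (Nat.cast_ne_zero.mpr (Nat.factorial_ne_zero n)) h7

end Pool.Agent.CampanaFlow
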