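import Mathlib

/-! PIECE D2: a complex point avoiding countably many hypersurfaces. -/

set_option autoImplicit false

namespace Pool.Agent.CampanaFlow

/-- a field of countable dimension over `ℂ` is equal to `ℂ` -/
theorem bijective_of_countable_rank {L : Type} [Field L] [Algebra ℂ L]
    (h : Module.rank ℂ L ≤ Cardinal.aleph0) : Function.Bijective (algebraMap ℂ L) := by
  have halg : Algebra.IsAlgebraic ℂ L := by
    refine ⟨fun x => ?_⟩
    by_contra hx
    have h1 : LinearIndependent ℂ (fun a : ℂ => (x - algebraMap ℂ L a)⁻¹) :=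
      Transcendental.linearIndependent_sub_inv (F := ℂ) hx
    have h2 := h1.cardinal_le_rank
    have h3 : Cardinal.mk ℂ ≤ Cardinal.aleph0 := h2.trans h
    rw [Cardinal.mk_complex] at h3
    exact absurd h3 (not_le.2 Cardinal.aleph0_lt_continuum)
  have := Algebra.IsAlgebraic.isIntegral (K := ℂ) (A := L)
  exact IsAlgClosed.algebraMap_bijective_of_isIntegral

/-- Localise `S` at the submonoid generated by the `W n`: `T`, nontrivial, and as a `ℂ`-vector space of
countable dimension (spanned by monomials in the generators of `S` and the inverses of the `W n`). Take a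
maximal ideal of `T` and the residue field `L`: countable dimension over `ℂ`. If `x ∈ L` were
transcendental, the elements `(x - c)⁻¹`, `c ∈ ℂ`, would be linearly independent
(`Transcendental.linearIndependent_sub_inv`) and uncountable in number. So `L` is algebraic over `ℂ`,
`L = ℂ` (`IsAlgClosed.algebraMap_bijective_of_isIntegral`), and `p : S → T → L = ℂ`. -/
theorem avoid {S : Type} [CommRing S] [IsDomain S] [Algebra ℂ S] [Algebra.FiniteType ℂ S]
    (W : ℕ → S) (hW : ∀ n, W n ≠ 0) : ∃ p : S →ₐ[ℂ] ℂ, ∀ n, p (W n) ≠ 0 := by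
  classical
  obtain ⟨k, π, hπ⟩ := Algebra.FiniteType.iff_quotient_mvPolynomial''.1
    (inferInstance : Algebra.FiniteType ℂ S)
  let K := FractionRing S
  let φ : MvPolynomial (Fin k ⊕ ℕ) ℂ →ₐ[ℂ] K :=
    MvPolynomial.aeval (Sum.elim (fun i => algebraMap S K (π (MvPolynomial.X i)))
      (fun n => (algebraMap S K (W n))⁻¹))
  let T : Subalgebra ℂ K := φ.range
  have hφ : ∀ q : MvPolynomial (Fin k) ℂ, φ (MvPolynomial.rename Sum.inl q) =
      algebraMap S K (π q) := by
    intro q
    have : φ.comp (MvPolynomial.rename Sum.inl) = (IsScalarTower.toAlgHom ℂ S K).comp π := by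
      apply MvPolynomial.algHom_ext
      intro i
      simp [φ]
    exact congrArg (fun g : MvPolynomial (Fin k) ℂ →ₐ[ℂ] K => g q) this
  let ρ : S →ₐ[ℂ] T := (IsScalarTower.toAlgHom ℂ S K).codRestrict T (by
    intro s
    obtain ⟨q, rfl⟩ := hπ s
    exact ⟨MvPolynomial.rename Sum.inl q, hφ q⟩)
  have hinv : ∀ n, ∃ t : T, ρ (W n) * t = 1 := by
    intro n
    refine ⟨⟨(algebraMap S K (W n))⁻¹, MvPolynomial.X (Sum.inr n), by simp [φ]⟩, ?_⟩
    apply Subtype.ext
    show algebraMap S K (W n) * (algebraMap S K (W n))⁻¹ = 1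
    apply mul_inv_cancel₀
    intro h0
    exact hW n ((IsFractionRing.injective S K) (by rw [h0, map_zero]))
  obtain ⟨m, hm⟩ := Ideal.exists_maximal T
  let _ : Field (T ⧸ m) := Ideal.Quotient.field m
  have hrank : Module.rank ℂ (T ⧸ m) ≤ Cardinal.aleph0 := by
    have h1 : Function.Surjective ((Ideal.Quotient.mkₐ ℂ m).comp φ.rangeRestrict).toLinearMap :=
      (Ideal.Quotient.mkₐ_surjective ℂ m).comp φ.rangeRestrict_surjective
    have h2 := LinearMap.rank_le_of_surjective _ h1
    refine h2.trans ?_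
    rw [MvPolynomial.rank_eq]
    exact Cardinal.mk_le_aleph0
  have hb := bijective_of_countable_rank hrank
  let e : ℂ ≃ₐ[ℂ] (T ⧸ m) := AlgEquiv.ofBijective (Algebra.ofId ℂ (T ⧸ m)) hb
  refine ⟨(AlgHomClass.toAlgHom e.symm).comp ((Ideal.Quotient.mkₐ ℂ m).comp ρ), ?_⟩
  intro n h0
  obtain ⟨t, ht⟩ := hinv n
  have h1 := congrArg (fun x => e.symm (Ideal.Quotient.mkₐ ℂ m x)) ht
  simp only [map_mul, map_one] at h1
  have h2 : e.symm (Ideal.Quotient.mkₐ ℂ m (ρ (W n))) = 0 := h0
  rw [h2, zero_mul] at h1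
  exact zero_ne_one h1

end Pool.Agent.CampanaFlow
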