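import Pool.Agent.Lib_MP_1209e6_fl.D1
import Pool.Agent.Lib_MP_1209e6_fl.D2

/-! PIECE D3: very general points. -/

set_option autoImplicit false

namespace Pool.Agent.CampanaFlow

theorem word_sum {S ι β : Type} [CommRing S] [Algebra ℂ S] (d : ι → Derivation ℂ S S)
    (w : List ι) (t : Finset β) (c : β → ℂ) (r : β → S) :
    word d w (∑ b ∈ t, c b • r b) = ∑ b ∈ t, c b • word d w (r b) := by
  induction w with
  | nil => rfl
  | cons i l ih =>
    simp only [word, ih, map_sum, Derivation.map_smul]

theorem very_general_fin {K ι : Type} [Field K] [Algebra ℂ K] (S : Subalgebra ℂ K)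
    (D : ι → Derivation ℂ K K) (d : ι → Derivation ℂ S S)
    (hd : ∀ i (f : S), ((d i f : S) : K) = D i f)
    (hc : ∀ u, (∀ i, D i u = 0) → ∃ c : ℂ, u = algebraMap ℂ K c)
    (V : Submodule ℂ S) [FiniteDimensional ℂ V] :
    ∃ W : S, W ≠ 0 ∧ ∀ p : S →ₐ[ℂ] ℂ, p W ≠ 0 → ∀ f ∈ V, f ≠ 0 →
      ∃ w : List ι, p (word d w f) ≠ 0 := by
  classical
  have hword : ∀ (w : List ι) (f : S), ((word d w f : S) : K) = word D w (f : K) := by
    intro w f
    induction w with
    | nil => rfl
    | cons i l ih => simp only [word, hd, ih]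
  let bs := Module.finBasis ℂ V
  let r : Fin (Module.finrank ℂ V) → K := fun b => (((bs b : V) : S) : K)
  have hr : LinearIndependent ℂ r := by
    have h1 : LinearIndependent ℂ (fun b => ((bs b : V) : S)) :=
      bs.linearIndependent.map' V.subtype (Submodule.ker_subtype V)
    exact h1.map' S.val.toLinearMap (LinearMap.ker_eq_bot.2 Subtype.val_injective)
  obtain ⟨w, hw⟩ := wronskian D hc r hr
  set M : Matrix (Fin (Module.finrank ℂ V)) (Fin (Module.finrank ℂ V)) S :=
    Matrix.of fun a b => word d (w a) ((bs b : V) : S) with hM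
  refine ⟨M.det, ?_, ?_⟩
  · intro h0
    apply hw
    have h1 : (S.val : S →+* K) M.det = 0 := by rw [h0, map_zero]
    rw [RingHom.map_det] at h1
    rw [← h1]
    congr 1
    ext a b
    exact (hword (w a) ((bs b : V) : S)).symm
  · intro p hp f hf hf0
    by_contra hcon
    push Not at hcon
    have hrep : f = ∑ b, bs.repr ⟨f, hf⟩ b • ((bs b : V) : S) := by
      have h1 := congrArg (V.subtype) (bs.sum_repr ⟨f, hf⟩)
      rw [map_sum] at h1
      simpa using h1.symm
    set c : Fin (Module.finrank ℂ V) → ℂ := fun b => bs.repr ⟨f, hf⟩ b with hcdef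
    have h2 : (M.map p).mulVec c = 0 := by
      funext a
      have h3 := hcon (w a)
      rw [hrep, word_sum, map_sum] at h3
      rw [Pi.zero_apply, ← h3, Matrix.mulVec, dotProduct]
      refine Finset.sum_congr rfl fun b _ => ?_
      rw [map_smul, smul_eq_mul, mul_comm]
      rfl
    have h4 : (M.map p).det ≠ 0 := by
      have h5 := RingHom.map_det (p : S →+* ℂ) M
      intro h6
      apply hp
      have h7 : (p : S →+* ℂ) M.det = 0 := by
        rw [h5]
        exact h6
      exact h7
    have h8 : c = 0 := Matrix.eq_zero_of_mulVec_eq_zero h4 h2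
    apply hf0
    rw [hrep]
    refine Finset.sum_eq_zero fun b _ => ?_
    have h9 : c b = 0 := congrFun h8 b
    show c b • _ = _
    rw [h9, zero_smul]

/-- `S` is the increasing union of finite dimensional subspaces `S_n` (images of the polynomials of degree
`≤ n` in generators). For each `n` choose a basis `r` of `S_n` and words with nonzero Wronskian
(`wronskian`, the words of `d` and `D` agree on `S`): `W n ∈ S`. `p` from `avoid`. If `0 ≠ f ∈ S_n`,
`f = ∑ c_b r_b`, `c ≠ 0`, then the vector `∑_b p (word (w a) (r b)) c_b = p (word (w a) f)` is not zero,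
as the matrix is invertible. -/
theorem very_general {K ι : Type} [Field K] [Algebra ℂ K] (S : Subalgebra ℂ K)
    [Algebra.FiniteType ℂ S] (D : ι → Derivation ℂ K K) (d : ι → Derivation ℂ S S)
    (hd : ∀ i (f : S), ((d i f : S) : K) = D i f)
    (hc : ∀ u, (∀ i, D i u = 0) → ∃ c : ℂ, u = algebraMap ℂ K c) :
    ∃ p : S →ₐ[ℂ] ℂ, ∀ f : S, f ≠ 0 → ∃ w : List ι, p (word d w f) ≠ 0 := by
  classical
  obtain ⟨k, π, hπ⟩ := Algebra.FiniteType.iff_quotient_mvPolynomial''.1
    (inferInstance : Algebra.FiniteType ℂ S)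
  let V : Finset (Fin k →₀ ℕ) → Submodule ℂ S := fun t =>
    Submodule.span ℂ (((t.image fun m => π (MvPolynomial.monomial m 1)) : Finset S) : Set S)
  have hV : ∀ t, FiniteDimensional ℂ (V t) := fun t =>
    FiniteDimensional.span_of_finite ℂ (Finset.finite_toSet _)
  have h1 := fun t => @very_general_fin K ι _ _ S D d hd hc (V t) (hV t)
  choose W hW0 hW using h1
  obtain ⟨e, he⟩ := exists_surjective_nat (Finset (Fin k →₀ ℕ))
  obtain ⟨p, hp⟩ := avoid (fun n => W (e n)) (fun n => hW0 _)
  refine ⟨p, fun f hf => ?_⟩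
  obtain ⟨q, rfl⟩ := hπ f
  obtain ⟨n, hn⟩ := he q.support
  refine hW q.support p (by rw [← hn]; exact hp n) _ ?_ hf
  have h2 : π q = ∑ m ∈ q.support, q.coeff m • π (MvPolynomial.monomial m 1) := by
    conv_lhs => rw [q.as_sum, map_sum]
    refine Finset.sum_congr rfl fun m _ => ?_
    rw [← map_smul, MvPolynomial.smul_monomial, smul_eq_mul, mul_one]
  rw [h2]
  refine Submodule.sum_mem _ fun m hm => Submodule.smul_mem _ _ (Submodule.subset_span ?_)
  rw [Finset.mem_coe, Finset.mem_image]
  exact ⟨m, hm, rfl⟩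

end Pool.Agent.CampanaFlow
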