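import Pool.Agent.Lib_MP_1209e6_fl.Defs

/-! PIECE D4: finitely many flows are enough. -/

set_option autoImplicit false

namespace Pool.Agent.CampanaFlow

variable {S : Type} [CommRing S] [Algebra ℂ S] {ι : Type}

/-- divided powers of a derivation -/
noncomputable def D4_c (D : Derivation ℂ S S) (n : ℕ) (f : S) : S :=
  ((n.factorial : ℂ)⁻¹) • (D^[n] f)

theorem D4_c_zero (D : Derivation ℂ S S) (f : S) : D4_c D 0 f = f := by
  simp [D4_c]

theorem D4_c_succ (D : Derivation ℂ S S) (n : ℕ) (f : S) :
    D (D4_c D n f) = ((n : ℂ) + 1) • D4_c D (n + 1) f := by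
  unfold D4_c
  rw [Derivation.map_smul, smul_smul, Function.iterate_succ_apply']
  congr 1
  have h1 : ((n : ℂ) + 1) ≠ 0 := Nat.cast_add_one_ne_zero n
  have h2 : ((n.factorial : ℕ) : ℂ) ≠ 0 := Nat.cast_ne_zero.2 (Nat.factorial_ne_zero n)
  rw [Nat.factorial_succ]
  push_cast
  field_simp

theorem D4_iter_add (D : Derivation ℂ S S) (n : ℕ) (f g : S) :
    D^[n] (f + g) = D^[n] f + D^[n] g := by
  induction n generalizing f g with
  | zero => rfl
  | succ n ih => rw [Function.iterate_succ_apply, Function.iterate_succ_apply,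
      Function.iterate_succ_apply, map_add, ih]

theorem D4_c_add (D : Derivation ℂ S S) (n : ℕ) (f g : S) :
    D4_c D n (f + g) = D4_c D n f + D4_c D n g := by
  unfold D4_c
  rw [D4_iter_add, smul_add]

theorem D4_leibniz (D : Derivation ℂ S S) (n : ℕ) (f g : S) :
    D4_c D n (f * g) = ∑ p ∈ Finset.HasAntidiagonal.antidiagonal n,
      D4_c D p.1 f * D4_c D p.2 g := by
  induction n with
  | zero => simp [D4_c_zero]
  | succ n ih =>
    have h0 : ((n : ℂ) + 1) ≠ 0 := Nat.cast_add_one_ne_zero n
    have h1 : ((n : ℂ) + 1) • D4_c D (n + 1) (f * g) =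
        ((n : ℂ) + 1) • ∑ p ∈ Finset.HasAntidiagonal.antidiagonal (n + 1), D4_c D p.1 f * D4_c D p.2 g := by
      rw [← D4_c_succ, ih, map_sum]
      have h2 : ∀ p ∈ Finset.HasAntidiagonal.antidiagonal n, D (D4_c D p.1 f * D4_c D p.2 g) =
          ((p.1 : ℂ) + 1) • (D4_c D (p.1 + 1) f * D4_c D p.2 g) +
          ((p.2 : ℂ) + 1) • (D4_c D p.1 f * D4_c D (p.2 + 1) g) := by
        intro p _
        rw [Derivation.leibniz, D4_c_succ, D4_c_succ, smul_eq_mul, smul_eq_mul,
          mul_smul_comm, mul_smul_comm, add_comm, mul_comm (D4_c D p.2 g)]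
      rw [Finset.sum_congr rfl h2, Finset.sum_add_distrib]
      have h3 : ∑ p ∈ Finset.HasAntidiagonal.antidiagonal n,
            ((p.1 : ℂ) + 1) • (D4_c D (p.1 + 1) f * D4_c D p.2 g) =
          ∑ p ∈ Finset.HasAntidiagonal.antidiagonal (n + 1), (p.1 : ℂ) • (D4_c D p.1 f * D4_c D p.2 g) := by
        rw [Finset.Nat.antidiagonal_succ, Finset.sum_cons, Finset.sum_map]
        simp
      have h4 : ∑ p ∈ Finset.HasAntidiagonal.antidiagonal n,
            ((p.2 : ℂ) + 1) • (D4_c D p.1 f * D4_c D (p.2 + 1) g) =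
          ∑ p ∈ Finset.HasAntidiagonal.antidiagonal (n + 1), (p.2 : ℂ) • (D4_c D p.1 f * D4_c D p.2 g) := by
        rw [Finset.Nat.antidiagonal_succ', Finset.sum_cons, Finset.sum_map]
        simp
      rw [h3, h4, ← Finset.sum_add_distrib, Finset.smul_sum]
      refine Finset.sum_congr rfl fun p hp => ?_
      rw [← add_smul]
      congr 1
      have h5 := Finset.HasAntidiagonal.mem_antidiagonal.1 hp
      have h6 : ((p.1 + p.2 : ℕ) : ℂ) = ((n + 1 : ℕ) : ℂ) := by rw [h5]
      push_cast at h6
      exact h6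
    have h2 := congrArg (fun z => ((n : ℂ) + 1)⁻¹ • z) h1
    simpa [smul_smul, inv_mul_cancel₀ h0] using h2

theorem D4_iter_zero (D : Derivation ℂ S S) (n : ℕ) : D^[n] (0 : S) = 0 := by
  induction n with
  | zero => rfl
  | succ n ih => rw [Function.iterate_succ_apply, map_zero, ih]

theorem D4_c_alg (D : Derivation ℂ S S) (n : ℕ) (a : ℂ) :
    D4_c D (n + 1) (algebraMap ℂ S a) = 0 := by
  unfold D4_c
  rw [Function.iterate_succ_apply, Derivation.map_algebraMap, D4_iter_zero, smul_zero]

/-- Taylor expansion along `D` -/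
noncomputable def D4_T {A : Type} [CommRing A] [Algebra ℂ A] (D : Derivation ℂ S S)
    (θ : S →ₐ[ℂ] A) : S →ₐ[ℂ] PowerSeries A where
  toFun f := PowerSeries.mk fun n => θ (D4_c D n f)
  map_one' := by
    ext n
    rw [PowerSeries.coeff_mk, PowerSeries.coeff_one]
    cases n with
    | zero => simp [D4_c_zero]
    | succ n =>
      have h := D4_c_alg D n (1 : ℂ)
      rw [map_one] at h
      rw [h]
      simp
  map_mul' f g := by
    ext n
    rw [PowerSeries.coeff_mk, PowerSeries.coeff_mul, D4_leibniz, map_sum]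
    refine Finset.sum_congr rfl fun p _ => ?_
    rw [map_mul, PowerSeries.coeff_mk, PowerSeries.coeff_mk]
  map_zero' := by
    ext n
    rw [PowerSeries.coeff_mk]
    simp [D4_c, D4_iter_zero]
  map_add' f g := by
    ext n
    rw [map_add, PowerSeries.coeff_mk, PowerSeries.coeff_mk, PowerSeries.coeff_mk, D4_c_add,
      map_add]
  commutes' a := by
    ext n
    rw [PowerSeries.coeff_mk]
    cases n with
    | zero =>
      rw [D4_c_zero, AlgHom.commutes, PowerSeries.algebraMap_apply, PowerSeries.coeff_C]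
      simp
    | succ n =>
      rw [D4_c_alg, PowerSeries.algebraMap_apply, PowerSeries.coeff_C]
      simp

theorem D4_T_eq_zero {A : Type} [CommRing A] [Algebra ℂ A] (D : Derivation ℂ S S)
    (θ : S →ₐ[ℂ] A) (f : S) : D4_T D θ f = 0 ↔ ∀ n, θ (D^[n] f) = 0 := by
  constructor
  · intro h n
    have h1 : θ (D4_c D n f) = 0 := by
      have h2 := congrArg (PowerSeries.coeff n) h
      rw [map_zero] at h2
      rw [← h2]
      show _ = PowerSeries.coeff n (PowerSeries.mk fun n => θ (D4_c D n f))
      rw [PowerSeries.coeff_mk]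
    unfold D4_c at h1
    rw [map_smul] at h1
    have h3 : ((n.factorial : ℕ) : ℂ) ≠ 0 := Nat.cast_ne_zero.2 (Nat.factorial_ne_zero n)
    have h4 := congrArg (fun z => ((n.factorial : ℕ) : ℂ) • z) h1
    simpa [smul_smul, mul_inv_cancel₀ h3] using h4
  · intro h
    ext n
    show PowerSeries.coeff n (PowerSeries.mk fun n => θ (D4_c D n f)) = _
    rw [PowerSeries.coeff_mk, map_zero]
    unfold D4_c
    rw [map_smul, h, smul_zero]

/-- By induction on `l` there are a domain `A` over `ℂ` and `θ : S →ₐ[ℂ] A` with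
`θ f = 0 ↔ Kills d p l f`: `A = ℂ`, `θ = p` for `[]`; for `i :: l` take `PowerSeries A` and
`θ' f = ∑ θ (D_i^n f) / n! X^n`, a ring homomorphism by the Leibniz rule. -/
theorem kills_prime (d : ι → Derivation ℂ S S) (p : S →ₐ[ℂ] ℂ) (l : List ι) :
    ∃ I : Ideal S, I.IsPrime ∧ ∀ f, f ∈ I ↔ Kills d p l f := by
  have main : ∀ l : List ι, ∃ (A : Type) (_ : CommRing A) (_ : IsDomain A) (_ : Algebra ℂ A)
      (θ : S →ₐ[ℂ] A), ∀ f, θ f = 0 ↔ Kills d p l f := by
    intro l
    induction l with
    | nil => exact ⟨ℂ, inferInstance, inferInstance, inferInstance, p, fun f => Iff.rfl⟩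
    | cons i l ih =>
      obtain ⟨A, _, _, _, θ, hθ⟩ := ih
      refine ⟨PowerSeries A, inferInstance, inferInstance, inferInstance, D4_T (d i) θ, ?_⟩
      intro f
      rw [D4_T_eq_zero]
      exact forall_congr' fun n => hθ _
  obtain ⟨A, _, _, _, θ, hθ⟩ := main l
  exact ⟨RingHom.ker θ, RingHom.ker_isPrime _, fun f => hθ f⟩

/-- take `n = 0` for the missing letters; induction on the sublist relation -/
theorem Kills.sublist (d : ι → Derivation ℂ S S) (p : S →ₐ[ℂ] ℂ) {l l' : List ι}
    (h : l.Sublist l') {f : S} (hf : Kills d p l' f) : Kills d p l f := by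
  induction h generalizing f with
  | slnil => exact hf
  | cons a _ ih => exact ih (hf 0)
  | cons_cons a _ ih => exact fun n => ih (hf n)

theorem D4_word_append (d : ι → Derivation ℂ S S) (a b : List ι) (f : S) :
    word d (a ++ b) f = word d a (word d b f) := by
  induction a with
  | nil => rfl
  | cons i a ih =>
    show d i (word d (a ++ b) f) = d i (word d a (word d b f))
    rw [ih]

theorem D4_word (d : ι → Derivation ℂ S S) (p : S →ₐ[ℂ] ℂ) (l : List ι) {f : S}
    (hf : Kills d p l f) : p (word d l.reverse f) = 0 := by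
  induction l generalizing f with
  | nil => exact hf
  | cons i l ih =>
    rw [List.reverse_cons, D4_word_append]
    exact ih (hf 1)

theorem Kills.word (d : ι → Derivation ℂ S S) (p : S →ₐ[ℂ] ℂ) (w : List ι) {f : S}
    (hf : Kills d p w.reverse f) : p (word d w f) = 0 := by
  have h := D4_word d p w.reverse hf
  rwa [List.reverse_reverse] at h

/-- The primes `I_l` of `kills_prime`: if `I_l ≠ 0` for some `0 ≠ f ∈ I_l`, a word `w` with
`p (word w f) ≠ 0` gives `I_{w.reverse ++ l} ⊊ I_l` (`sublist`, `word`). A strictly decreasing sequence of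
primes is impossible in a noetherian ring: the heights are finite (`Ideal.height_ne_top`,
`Ideal.height_strict_mono...`). So some `I_l = 0`. -/
theorem exists_list [IsNoetherianRing S] (d : ι → Derivation ℂ S S)
    (p : S →ₐ[ℂ] ℂ) (hp : ∀ f : S, f ≠ 0 → ∃ w : List ι, p (word d w f) ≠ 0) :
    ∃ l : List ι, ∀ f, Kills d p l f → f = 0 := by
  choose I hI hIk using kills_prime d p
  have key : ∀ h : ℕ∞, ∀ l : List ι, (I l).height = h → ∃ l' : List ι, ∀ f, Kills d p l' f → f = 0 := by
    intro h
    induction h using WellFoundedLT.induction with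
    | ind h ih =>
      intro l hl
      by_cases hc : ∀ f, Kills d p l f → f = 0
      · exact ⟨l, hc⟩
      · push Not at hc
        obtain ⟨f, hf, hf0⟩ := hc
        obtain ⟨w, hw⟩ := hp f hf0
        have hlt : I (w.reverse ++ l) < I l := by
          refine lt_of_le_of_ne ?_ ?_
          · intro g hg
            rw [hIk] at hg ⊢
            exact hg.sublist d p (List.sublist_append_right _ _)
          · intro he
            have h1 : f ∈ I (w.reverse ++ l) := by
              rw [he, hIk]
              exact hf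
            rw [hIk] at h1
            exact hw ((h1.sublist d p (List.sublist_append_left _ _)).word d p w)
        haveI := hI (w.reverse ++ l)
        haveI := hI l
        have h2 := Ideal.height_strict_mono_of_isPrime hlt
        rw [hl] at h2
        exact ih _ h2 _ rfl
  exact key _ [] rfl

end Pool.Agent.CampanaFlow
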