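import Pool.Agent.Lib_MP_1209e6_fl.C9
import Pool.Agent.Lib_MP_1209e6_fl.D3
import Pool.Agent.Lib_MP_1209e6_fl.D4
import Pool.Agent.Lib_MP_1209e6_fl.D5
import Pool.Agent.Lib_MP_1209e6_fl.D7
import Pool.Agent.Lib_MP_1209e6_fl.W4

/-! Assembly of the Brody side. -/

set_option autoImplicit false

open Filter Topology Pool.Agent.Campana

namespace Pool.Agent.CampanaFlow

/-- the dense curve on the ring `S` -/
theorem dense_curve {S : Type} [CommRing S] [IsDomain S] [Algebra ℂ S] [Algebra.FiniteType ℂ S]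
    {ι : Type} (d : ι → Derivation ℂ S S) (cd : ∀ i, ChartData (d i)) (p : S →ₐ[ℂ] ℂ)
    (hp : ∀ f : S, f ≠ 0 → ∃ w : List ι, p (word d w f) ≠ 0) :
    ∃ (γ : ℂ → S →ₐ[ℂ] ℂ) (B : Set ℂ), IsCurve Set.univ γ B ∧
      ∀ f : S, (∀ z, z ∉ B → γ z f = 0) → f = 0 := by
  have hN : IsNoetherianRing S := Algebra.FiniteType.isNoetherianRing ℂ S
  obtain ⟨l, hl⟩ := exists_list d p hp
  obtain ⟨G, hG⟩ := (Subalgebra.fg_def.1 (Algebra.FiniteType.out (R := ℂ) (A := S)))
  obtain ⟨hGf, hG⟩ := hG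
  obtain ⟨ρ, M, hρ, H⟩ := exists_curve d cd hGf.toFinset (by simpa using hG) p l
  -- the grid
  let Λ : ℕ → ℂ := fun k => ((ρ / (k + 2) : ℝ) : ℂ)
  have hΛ0 : ∀ k, Λ k ≠ 0 := by
    intro k
    have : (ρ / (k + 2) : ℝ) ≠ 0 := by positivity
    exact Complex.ofReal_ne_zero.2 this
  have hΛ : Tendsto Λ atTop (𝓝 0) := by
    have h1 : Tendsto (fun k : ℕ => (ρ / ((k : ℝ) + 2))) atTop (𝓝 0) :=
      tendsto_const_nhds.div_atTop (tendsto_atTop_add_const_right _ _ tendsto_natCast_atTop_atTop)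
    have h2 := (Complex.continuous_ofReal.tendsto 0).comp h1
    simpa [Λ, Function.comp_def] using h2
  have hΛρ : ∀ k, ‖Λ k‖ < ρ := by
    intro k
    have h1 : (0 : ℝ) < (k : ℝ) + 2 := by positivity
    have h2 : ‖Λ k‖ = ρ / (k + 2) := by
      simp only [Λ]
      rw [Complex.norm_real, Real.norm_of_nonneg (by positivity)]
    rw [h2, div_lt_iff₀ h1]
    nlinarith
  -- enumeration of the lists
  obtain ⟨e, he⟩ : ∃ e : ℕ → {ks : List ℕ // ks.length = l.length}, Function.Surjective e := by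
    have : Nonempty {ks : List ℕ // ks.length = l.length} := ⟨⟨List.replicate l.length 0, by simp⟩⟩
    exact exists_surjective_nat _
  obtain ⟨γ, B, hγ, hB, -, hF⟩ := H (fun n => ((e n).1.map Λ)) (fun n => by simp [(e n).2])
    (fun n t ht => by
      obtain ⟨k, -, rfl⟩ := List.mem_map.1 ht
      exact hΛρ k)
  refine ⟨γ, B, hγ, fun f hf => hl f ?_⟩
  apply kills_of_grid d p Λ hΛ0 hΛ l f
  intro ts hts hr
  obtain ⟨ks, rfl⟩ : ∃ ks : List ℕ, ks.map Λ = ts := by
    clear hts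
    induction ts with
    | nil => exact ⟨[], rfl⟩
    | cons t ts ih =>
      obtain ⟨ks, hks⟩ := ih (fun s hs => hr s (List.mem_cons_of_mem _ hs))
      obtain ⟨k, hk⟩ := hr t (List.mem_cons_self)
      exact ⟨k :: ks, by simp [hk, hks]⟩
  obtain ⟨n, hn⟩ := he ⟨ks, by simpa using hts⟩
  refine ⟨γ n, ?_, hf _ (hB n)⟩
  have := hF n
  rwa [hn] at this

/-- Brody side: complete derivations with only constants in common. -/
theorem brody_main {n : ℕ} (P : Ideal (MvPolynomial (Fin (n + 1)) ℂ)) [P.IsPrime]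
    (hP : IsVariety P) {ι : Type} [Finite ι] (D : ι → Derivation ℂ (FunField P) (FunField P))
    (hD : ∀ i, ∃ (k : IntermediateField ℂ (FunField P)) (N : ℕ) (x : Fin (N + 1) → FunField P),
      (∀ l, x l ≠ 0) ∧
      IntermediateField.adjoin ℂ ((k : Set (FunField P)) ∪ Set.range fun l => x l / x 0) = ⊤ ∧
      GlobalField k x (D i))
    (hc : ∀ u, (∀ i, D i u = 0) → ∃ c : ℂ, u = algebraMap ℂ (FunField P) c) : BrodySpecial P := by
  classical
  obtain ⟨l₀, hl₀⟩ := hP.2.2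
  obtain ⟨S, d, hS, hT, hd, hcd⟩ := exists_ring (funField_fg P) D hD
    (Finset.univ.image fun l => ratio P l l₀)
  obtain ⟨p, hp⟩ := very_general S D d hd hc
  obtain ⟨γ, B, hγ, hdense⟩ := dense_curve d (fun i => (hcd i).some) p hp
  refine brody_of_curve P hP l₀ hl₀ S (fun l => hT ?_) γ B hγ hdense
  simp

end Pool.Agent.CampanaFlow
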