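import Pool.Agent.Lib_MP_1209e6_fl.D8
import Pool.Agent.Lib_MP_1209e6_fl.D9
import Pool.Agent.Lib_MP_1209e6_fl.E6

/-! Assembly. -/

set_option autoImplicit false

open Pool.Agent.Campana

namespace Pool.Agent.CampanaFlow

theorem main {n : ℕ} (P : Ideal (MvPolynomial (Fin (n + 1)) ℂ)) [P.IsPrime]
    (hP : IsVariety P) {r : ℕ} (k : Fin r → IntermediateField ℂ (FunField P)) (N : Fin r → ℕ)
    (x : ∀ i, Fin (N i + 1) → FunField P) (h : ∀ i, AlmostHomogeneous (k i) (x i))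
    (hc : ∀ u : FunField P, (∀ i, IsAlgebraic (k i) u) → ∃ c : ℂ, u = algebraMap ℂ (FunField P) c) :
    SpecialField (FunField P) ∧ BrodySpecial P := by
  refine ⟨special_main (funField_fg P) k N x h hc, ?_⟩
  obtain ⟨m, D, hD, hDu⟩ := finite_fields (funField_fg P) k N x h
  refine brody_main P hP D (fun a => ?_) fun u hu => hc u (hDu u hu)
  obtain ⟨i, hi⟩ := hD a
  exact ⟨k i, N i, x i, (h i).ne_zero, (h i).gen, hi⟩

end Pool.Agent.CampanaFlow
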