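import Mathlib

/-! PIECE C0: a disc minus a discrete set is preconnected. -/

set_option autoImplicit false

open Filter Topology

namespace Pool.Agent.CampanaFlow

/-- `B ∩ ball` is a discrete subspace (each point has a punctured neighbourhood without points of `B`)
of a second countable space, hence countable. The ball is homeomorphic to `ℂ`
(`Homeomorph.unitBall` / `OpenPartialHomeomorph.univBall`), the image of `B ∩ ball` is countable, and the
complement of a countable set in `ℂ` is connected
(`Set.Countable.isConnected_compl_of_one_lt_rank`, `Complex.rank_real_complex`). -/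
theorem preconn (R : ℝ) (B : Set ℂ)
    (hB : ∀ z ∈ Metric.ball (0 : ℂ) R, ∀ᶠ w in 𝓝[≠] z, w ∉ B) :
    IsPreconnected (Metric.ball (0 : ℂ) R \ B) := by
  rcases le_or_gt R 0 with hR | hR
  · rw [Metric.ball_eq_empty.2 hR, Set.empty_sdiff]
    exact isPreconnected_empty
  have hcount : (B ∩ Metric.ball (0 : ℂ) R).Countable := by
    have hd : DiscreteTopology ↥(B ∩ Metric.ball (0 : ℂ) R) := by
      rw [discreteTopology_subtype_iff]
      intro x hx
      rw [Filter.inf_principal_eq_bot]
      filter_upwards [hB x hx.2] with w hw hw2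
      exact hw hw2.1
    have := countable_of_Lindelof_of_discrete (X := ↥(B ∩ Metric.ball (0 : ℂ) R))
    exact Set.countable_coe_iff.1 this
  set f := OpenPartialHomeomorph.univBall (0 : ℂ) R with hf
  have hsrc : f.source = Set.univ := OpenPartialHomeomorph.univBall_source _ _
  have htgt : f.target = Metric.ball (0 : ℂ) R := OpenPartialHomeomorph.univBall_target _ hR
  have hinj : Function.Injective f := by
    intro x y hxy
    exact f.injOn (by rw [hsrc]; trivial) (by rw [hsrc]; trivial) hxy
  have hmem : ∀ x, f x ∈ Metric.ball (0 : ℂ) R := fun x => by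
    rw [← htgt]
    exact f.map_source (by rw [hsrc]; trivial)
  have hA : (f ⁻¹' B).Countable := by
    have h1 : f ⁻¹' B = f ⁻¹' (B ∩ Metric.ball (0 : ℂ) R) := by
      ext x
      exact ⟨fun h => ⟨h, hmem x⟩, fun h => h.1⟩
    rw [h1]
    exact hcount.preimage_of_injOn hinj.injOn
  have hcon : IsConnected (f ⁻¹' B)ᶜ := by
    apply hA.isConnected_compl_of_one_lt_rank
    rw [Complex.rank_real_complex]
    norm_num
  have himg : f '' (f ⁻¹' B)ᶜ = Metric.ball (0 : ℂ) R \ B := by
    ext y
    constructor
    · rintro ⟨x, hx, rfl⟩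
      exact ⟨hmem x, hx⟩
    · rintro ⟨hy, hyB⟩
      rw [← htgt] at hy
      refine ⟨f.symm y, ?_, f.right_inv hy⟩
      intro h
      apply hyB
      have h2 : f (f.symm y) ∈ B := h
      rwa [f.right_inv hy] at h2
  rw [← himg]
  refine hcon.isPreconnected.image f ?_
  have hc : ContinuousOn f f.source := f.continuousOn
  rw [hsrc] at hc
  exact hc.mono (Set.subset_univ _)

end Pool.Agent.CampanaFlow
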