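import Pool.Agent.Lib_MP_1209e6_fl.F5

/-! PIECE C1: the flow of a holomorphic family is holomorphic in a chart. -/

set_option autoImplicit false

open Filter Topology

namespace Pool.Agent.CampanaFlow

variable {S : Type} [CommRing S] [Algebra ℂ S] {D : Derivation ℂ S S}

/-- Induction over `Algebra.adjoin`. For `f = X j l`: the series `∑ tc D (γ w) f n * τ w ^ n` of analytic
functions is dominated on `V` by `2 (1/4)^n` (`ChartData.term_le`), so its sum is differentiable on `V`
(`differentiableOn_tsum_of_summable_norm`), hence analytic at each point. For `f = c a`: `ev = γ w (c a)`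
(`ev_const`). Sums and products: `ev_add`, `ev_mul` hold at all points of `V` (`ChartData.conv`), a
neighbourhood of `z`. -/
theorem ChartData.ana (cd : ChartData D) {V : Set ℂ} (hV : IsOpen V) (γ : ℂ → S →ₐ[ℂ] ℂ)
    (hγ : ∀ f, ∀ z ∈ V, AnalyticAt ℂ (fun w => γ w f) z) (τ : ℂ → ℂ)
    (hτ : ∀ z ∈ V, AnalyticAt ℂ τ z) (j : Fin (cd.N + 1))
    (hj : ∀ z ∈ V, ∀ l, ‖γ z (cd.X j l)‖ ≤ 2) (hs : ∀ z ∈ V, ‖τ z‖ * cd.size (γ z) ≤ 1 / 4)
    (f : S) (hf : f ∈ Algebra.adjoin ℂ (Set.range (Sum.elim cd.c (cd.X j)))) :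
    ∀ z ∈ V, AnalyticAt ℂ (fun w => ev D (γ w) (τ w) f) z := by
  have htc : ∀ (g : S) (n : ℕ), ∀ z ∈ V,
      AnalyticAt ℂ (fun w => tc D (γ w) g n * τ w ^ n) z := by
    intro g n z hz
    exact ((hγ (D^[n] g) z hz).div_const).mul ((hτ z hz).pow n)
  refine Algebra.adjoin_induction (s := Set.range (Sum.elim cd.c (cd.X j)))
    (p := fun f _ => ∀ z ∈ V, AnalyticAt ℂ (fun w => ev D (γ w) (τ w) f) z) ?_ ?_ ?_ ?_ hf
  · rintro _ ⟨(a | l), rfl⟩
    · intro z hz
      have h1 : (fun w => ev D (γ w) (τ w) (cd.c a)) = fun w => γ w (cd.c a) := by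
        funext w
        exact ev_const (cd.Dc a)
      rw [Sum.elim_inl, h1]
      exact hγ _ z hz
    · intro z hz
      rw [Sum.elim_inr]
      have hu : Summable fun n : ℕ => (2 : ℝ) * (1 / 4) ^ n :=
        (summable_geometric_of_lt_one (by norm_num) (by norm_num)).mul_left 2
      have hdiff : DifferentiableOn ℂ (fun w => ∑' n, tc D (γ w) (cd.X j l) n * τ w ^ n) V := by
        refine Complex.differentiableOn_tsum_of_summable_norm hu ?_ hV ?_
        · intro n w hw
          exact (htc (cd.X j l) n w hw).differentiableAt.differentiableWithinAt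
        · intro n w hw
          rw [norm_mul, norm_pow]
          exact cd.term_le (γ w) j (hj w hw) (τ w) (hs w hw) l n
      exact hdiff.analyticAt (hV.mem_nhds hz)
  · intro c z _
    have h1 : (fun w => ev D (γ w) (τ w) (algebraMap ℂ S c)) = fun _ => c := by
      funext w
      exact ev_algebraMap c
    rw [h1]
    exact analyticAt_const
  · intro f g hf hg ihf ihg z hz
    refine ((ihf z hz).add (ihg z hz)).congr ?_
    filter_upwards [hV.mem_nhds hz] with w hw
    exact (ev_add (cd.conv (γ w) j (hj w hw) (τ w) (hs w hw) f hf)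
      (cd.conv (γ w) j (hj w hw) (τ w) (hs w hw) g hg)).symm
  · intro f g hf hg ihf ihg z hz
    refine ((ihf z hz).mul (ihg z hz)).congr ?_
    filter_upwards [hV.mem_nhds hz] with w hw
    exact (ev_mul (cd.conv (γ w) j (hj w hw) (τ w) (hs w hw) f hf)
      (cd.conv (γ w) j (hj w hw) (τ w) (hs w hw) g hg)).symm

end Pool.Agent.CampanaFlow
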