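import Pool.Agent.Lib_MP_1209e6_fl.C1

/-! PIECE C2: the flow of a meromorphic family is meromorphic in a chart. -/

set_option autoImplicit false

open Filter Topology

namespace Pool.Agent.CampanaFlow

variable {S : Type} [CommRing S] [Algebra ℂ S] {D : Derivation ℂ S S}

/-- a bounded holomorphic function on a punctured neighbourhood is meromorphic at the point -/
theorem C2_removable {f : ℂ → ℂ} {z₀ : ℂ} {u : Set ℂ} (hu : u ∈ 𝓝 z₀)
    (hd : ∀ z ∈ u \ {z₀}, AnalyticAt ℂ f z) (hb : ∀ z ∈ u \ {z₀}, ‖f z‖ ≤ 3) :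
    MeromorphicAt f z₀ := by
  have h1 : DifferentiableOn ℂ (Function.update f z₀ (limUnder (𝓝[≠] z₀) f)) u := by
    refine Complex.differentiableOn_update_limUnder_of_bddAbove hu
      (fun z hz => (hd z hz).differentiableAt.differentiableWithinAt) ⟨3, ?_⟩
    rintro _ ⟨z, hz, rfl⟩
    exact hb z hz
  have h2 : AnalyticAt ℂ (Function.update f z₀ (limUnder (𝓝[≠] z₀) f)) z₀ := h1.analyticAt hu
  refine h2.meromorphicAt.congr ?_
  filter_upwards [self_mem_nhdsWithin] with w hw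
  exact Function.update_of_ne hw _ _

/-- Apply `ana` on the open punctured neighbourhood. For `f = X j l` the function is analytic and bounded
by `3` (`ChartData.ev_le`) on a punctured neighbourhood of `z₀`, so it has a removable singularity
(`MeromorphicAt` by `Complex.analyticAt_update_limUnder...` or
`Complex.differentiableOn_update_limUnder_of_bddAbove`). For `c a` it is eventually `γ w (c a)`. Sums and
products by `ev_add`, `ev_mul` (`MeromorphicAt.congr`). -/
theorem ChartData.mero (cd : ChartData D) (γ : ℂ → S →ₐ[ℂ] ℂ) (τ : ℂ → ℂ) (z₀ : ℂ)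
    (hmer : ∀ f, MeromorphicAt (fun w => γ w f) z₀)
    (hana : ∀ᶠ w in 𝓝[≠] z₀, ∀ f, AnalyticAt ℂ (fun u => γ u f) w) (hτ : AnalyticAt ℂ τ z₀)
    (j : Fin (cd.N + 1)) (hj : ∀ᶠ w in 𝓝[≠] z₀, ∀ l, ‖γ w (cd.X j l)‖ ≤ 2)
    (hs : ∀ᶠ w in 𝓝[≠] z₀, ‖τ w‖ * cd.size (γ w) ≤ 1 / 4)
    (f : S) (hf : f ∈ Algebra.adjoin ℂ (Set.range (Sum.elim cd.c (cd.X j)))) :
    MeromorphicAt (fun w => ev D (γ w) (τ w) f) z₀ := by
  have hτ' : ∀ᶠ w in 𝓝[≠] z₀, AnalyticAt ℂ τ w :=
    hτ.eventually_analyticAt.filter_mono nhdsWithin_le_nhds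
  have hall := hana.and (hτ'.and (hj.and hs))
  obtain ⟨u, hu, hzu, hsub⟩ := mem_nhdsWithin.1 hall
  have hV : IsOpen (u ∩ {z₀}ᶜ) := hu.inter isOpen_compl_singleton
  have hmem : u ∩ {z₀}ᶜ ∈ 𝓝[≠] z₀ := by
    rw [Set.inter_comm]
    exact inter_mem_nhdsWithin _ (hu.mem_nhds hzu)
  have hana' : ∀ g ∈ Algebra.adjoin ℂ (Set.range (Sum.elim cd.c (cd.X j))),
      ∀ z ∈ u ∩ {z₀}ᶜ, AnalyticAt ℂ (fun w => ev D (γ w) (τ w) g) z := fun g hg =>
    cd.ana hV γ (fun f z hz => (hsub hz).1 f) τ (fun z hz => (hsub hz).2.1) j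
      (fun z hz => (hsub hz).2.2.1) (fun z hz => (hsub hz).2.2.2) g hg
  have hconv : ∀ g ∈ Algebra.adjoin ℂ (Set.range (Sum.elim cd.c (cd.X j))),
      ∀ z ∈ u ∩ {z₀}ᶜ, Conv D (γ z) (τ z) g := fun g hg z hz =>
    cd.conv (γ z) j (hsub hz).2.2.1 (τ z) (hsub hz).2.2.2 g hg
  induction hf using Algebra.adjoin_induction with
  | mem x hx =>
    obtain ⟨i, rfl⟩ := hx
    rcases i with a | l
    · refine (hmer (cd.c a)).congr (Eventually.of_forall fun w => ?_)
      exact (ev_const (cd.Dc a)).symm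
    · refine C2_removable (hu.mem_nhds hzu) (fun z hz => ?_) (fun z hz => ?_)
      · exact hana' _ (Algebra.subset_adjoin ⟨Sum.inr l, rfl⟩) z hz
      · exact cd.ev_le (γ z) j (hsub hz).2.2.1 (τ z) (hsub hz).2.2.2 l
  | algebraMap r =>
    have h : (fun w => ev D (γ w) (τ w) (algebraMap ℂ S r)) = fun _ => r := by
      funext w
      exact ev_algebraMap r
    rw [h]
    exact MeromorphicAt.const r z₀
  | add x y hx hy ihx ihy =>
    refine (ihx.add ihy).congr ?_
    filter_upwards [hmem] with w hw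
    exact (ev_add (hconv x hx w hw) (hconv y hy w hw)).symm
  | mul x y hx hy ihx ihy =>
    refine (ihx.mul ihy).congr ?_
    filter_upwards [hmem] with w hw
    exact (ev_mul (hconv x hx w hw) (hconv y hy w hw)).symm

end Pool.Agent.CampanaFlow
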