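import Pool.Agent.Lib_MP_1209e6_fl.F5

/-! PIECE C3: a chart which is good near a point. -/

set_option autoImplicit false

open Filter Topology

namespace Pool.Agent.CampanaFlow

variable {S : Type} [CommRing S] [Algebra ℂ S] {D : Derivation ℂ S S}

/-- `exists_chart` at `z₀` gives `≤ 1`, continuity gives `≤ 2` nearby (finitely many `l`). -/
theorem ChartData.exists_chart_nhds (cd : ChartData D) (γ : ℂ → S →ₐ[ℂ] ℂ) (z₀ : ℂ)
    (hc : ∀ f, ContinuousAt (fun w => γ w f) z₀) :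
    ∃ j, ∀ᶠ w in 𝓝 z₀, ∀ l, ‖γ w (cd.X j l)‖ ≤ 2 := by
  obtain ⟨j, hj⟩ := cd.exists_chart (γ z₀)
  refine ⟨j, ?_⟩
  rw [Filter.eventually_all]
  intro l
  have h1 : ContinuousAt (fun w => ‖γ w (cd.X j l)‖) z₀ := (hc (cd.X j l)).norm
  have h2 : ‖γ z₀ (cd.X j l)‖ < 2 := lt_of_le_of_lt (hj l) (by norm_num)
  exact (h1.eventually_lt_const h2).mono fun w hw => hw.le

/-- The functions `h l w = γ w (X 0 l)` are meromorphic at `z₀` and nowhere zero
(`X 0 l * X l 0 = X 0 0 = 1`), so of finite order `o l`. Let `o` be the minimum of the orders;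
`(w - z₀)^(-o) h l w` tends to a number `v l` as `w → z₀`, `w ≠ z₀`, and some `v l ≠ 0`. Choose `j` with
`‖v j‖` maximal: `γ w (X j l) = h l w / h j w` tends to `v l / v j`, of norm `≤ 1`, so it is eventually of
norm `≤ 2`. -/
theorem ChartData.exists_chart_near (cd : ChartData D) (γ : ℂ → S →ₐ[ℂ] ℂ) (z₀ : ℂ)
    (hmer : ∀ f, MeromorphicAt (fun w => γ w f) z₀) :
    ∃ j, ∀ᶠ w in 𝓝[≠] z₀, ∀ l, ‖γ w (cd.X j l)‖ ≤ 2 := by
  have hex : ∀ l, ∃ (n : ℤ) (g : ℂ → ℂ), AnalyticAt ℂ g z₀ ∧ g z₀ ≠ 0 ∧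
      ∀ᶠ w in 𝓝[≠] z₀, γ w (cd.X 0 l) = (w - z₀) ^ n * g w := by
    intro l
    have hm := hmer (cd.X 0 l)
    have hne : meromorphicOrderAt (fun w => γ w (cd.X 0 l)) z₀ ≠ ⊤ := by
      intro h
      rw [meromorphicOrderAt_eq_top_iff] at h
      obtain ⟨w, hw⟩ := h.exists
      have h1 : γ w (cd.X 0 l) * γ w (cd.X l 0) = 1 := by
        rw [← map_mul, cd.X_mul, cd.X_self, map_one]
      rw [hw, zero_mul] at h1
      exact zero_ne_one h1
    obtain ⟨n, hn⟩ := WithTop.ne_top_iff_exists.1 hne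
    obtain ⟨g, hg, hg0, hgw⟩ := (meromorphicOrderAt_eq_int_iff hm).1 hn.symm
    refine ⟨n, g, hg, hg0, ?_⟩
    filter_upwards [hgw] with w hw
    rw [hw, smul_eq_mul]
  choose n g hg hg0 hgw using hex
  obtain ⟨l₀, -, hl₀⟩ := Finset.exists_min_image (Finset.univ : Finset (Fin (cd.N + 1))) n
    Finset.univ_nonempty
  have hl₀' : ∀ l, n l₀ ≤ n l := fun l => hl₀ l (Finset.mem_univ l)
  set F : Fin (cd.N + 1) → ℂ → ℂ := fun l w => (w - z₀) ^ (n l - n l₀).toNat * g l w with hF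
  have hFc : ∀ l, ContinuousAt (F l) z₀ := by
    intro l
    exact ((continuousAt_id.sub continuousAt_const).pow _).mul (hg l).continuousAt
  have hFw : ∀ l, ∀ᶠ w in 𝓝[≠] z₀, γ w (cd.X 0 l) = (w - z₀) ^ (n l₀) * F l w := by
    intro l
    filter_upwards [hgw l, self_mem_nhdsWithin] with w hw hne
    have hne' : w - z₀ ≠ 0 := sub_ne_zero.2 hne
    rw [hw, hF]
    have h1 : (w - z₀) ^ (n l) = (w - z₀) ^ (n l₀) * (w - z₀) ^ (n l - n l₀).toNat := by
      rw [← zpow_natCast, Int.toNat_of_nonneg (sub_nonneg.2 (hl₀' l)), ← zpow_add₀ hne']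
      congr 1
      ring
    rw [h1, mul_assoc]
  obtain ⟨j, -, hj⟩ := Finset.exists_max_image (Finset.univ : Finset (Fin (cd.N + 1)))
    (fun l => ‖F l z₀‖) Finset.univ_nonempty
  have hj' : ∀ l, ‖F l z₀‖ ≤ ‖F j z₀‖ := fun l => hj l (Finset.mem_univ l)
  have hFj : 0 < ‖F j z₀‖ := by
    refine lt_of_lt_of_le ?_ (hj' l₀)
    rw [norm_pos_iff, hF]
    simp only [sub_self, Int.toNat_zero, pow_zero, one_mul]
    exact hg0 l₀
  refine ⟨j, ?_⟩
  rw [Filter.eventually_all]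
  intro l
  have h2 : ∀ᶠ w in 𝓝[≠] z₀, ‖F l w‖ < 2 * ‖F j w‖ := by
    have h3 : ∀ᶠ w in 𝓝 z₀, ‖F l w‖ < 2 * ‖F j w‖ := by
      refine ContinuousAt.eventually_lt (hFc l).norm (continuousAt_const.mul (hFc j).norm) ?_
      linarith [hj' l]
    exact h3.filter_mono nhdsWithin_le_nhds
  filter_upwards [h2, hFw l, hFw j, self_mem_nhdsWithin] with w hw hwl hwj hne
  have hne' : (w - z₀) ^ (n l₀) ≠ 0 := zpow_ne_zero _ (sub_ne_zero.2 hne)
  have h4 : γ w (cd.X 0 j) * γ w (cd.X j l) = γ w (cd.X 0 l) := by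
    rw [← map_mul, cd.X_mul]
  rw [hwl, hwj, mul_assoc] at h4
  have h5 := mul_left_cancel₀ hne' h4
  have h6 : ‖F j w‖ * ‖γ w (cd.X j l)‖ = ‖F l w‖ := by rw [← norm_mul, h5]
  have h7 : 0 < ‖F j w‖ := by
    have := norm_nonneg (F l w)
    linarith
  by_contra hcon
  push Not at hcon
  nlinarith

end Pool.Agent.CampanaFlow
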