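import Pool.Agent.Lib_MP_1209e6_fl.F1

/-! PIECE F6: extension of a partial flow. -/

set_option autoImplicit false

open Filter Topology

namespace Pool.Agent.CampanaFlow

variable {S : Type} [CommRing S] [Algebra ℂ S] {D : Derivation ℂ S S} {q : S →ₐ[ℂ] ℂ} {t : ℂ}

private theorem f6_conv_pow {β : S} (hβ : Conv D q t β) (k : ℕ) :
    Conv D q t (β ^ k) ∧ ev D q t (β ^ k) = ev D q t β ^ k := by
  induction k with
  | zero =>
    rw [pow_zero, pow_zero]
    have h1 : (1 : S) = algebraMap ℂ S 1 := (map_one _).symm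
    rw [h1]
    exact ⟨conv_algebraMap 1, ev_algebraMap 1⟩
  | succ k ih =>
    rw [pow_succ, pow_succ]
    refine ⟨conv_mul ih.1 hβ, ?_⟩
    rw [ev_mul ih.1 hβ, ih.2]

private theorem f6_shift {β f : S} (hβ : Conv D q t β) {m : ℕ} (hf : Conv D q t (f * β ^ m)) (k : ℕ) :
    Conv D q t (f * β ^ (m + k)) ∧ ev D q t (f * β ^ (m + k)) = ev D q t (f * β ^ m) * ev D q t β ^ k := by
  have h1 := f6_conv_pow hβ k
  rw [pow_add, ← mul_assoc]
  exact ⟨conv_mul hf h1.1, by rw [ev_mul hf h1.1, h1.2]⟩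

private theorem f6_indep {β f : S} (hβ : Conv D q t β) (hβ0 : ev D q t β ≠ 0) {m k : ℕ}
    (hf : Conv D q t (f * β ^ m)) (hg : Conv D q t (f * β ^ k)) :
    ev D q t (f * β ^ m) / ev D q t β ^ m = ev D q t (f * β ^ k) / ev D q t β ^ k := by
  have h1 := (f6_shift hβ hf k).2
  have h2 := (f6_shift hβ hg m).2
  rw [add_comm k m, h1] at h2
  rw [div_eq_div_iff (pow_ne_zero _ hβ0) (pow_ne_zero _ hβ0)]
  exact h2

/-- Define `q' f = ev (f β^m) / (ev β)^m` for any `m` with `Conv (f β^m)`; independent of `m` because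
`ev (f β^(m+m')) = ev (f β^m) (ev β)^m'` (`conv_mul`, `ev_mul`). It is multiplicative and additive
(common exponent) and equals `ev` on `Conv` (take `m = 0` and independence). -/
theorem extend (β : S) (hβ : Conv D q t β) (hβ0 : ev D q t β ≠ 0)
    (hS : ∀ f, ∃ m : ℕ, Conv D q t (f * β ^ m)) : ∃ q' : S →ₐ[ℂ] ℂ, Step D q t q' := by
  choose m hm using hS
  have key : ∀ (f : S) (k : ℕ), Conv D q t (f * β ^ k) →
      ev D q t (f * β ^ m f) / ev D q t β ^ m f = ev D q t (f * β ^ k) / ev D q t β ^ k :=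
    fun f k hk => f6_indep hβ hβ0 (hm f) hk
  have halg : ∀ c : ℂ, ev D q t (algebraMap ℂ S c * β ^ m (algebraMap ℂ S c)) /
      ev D q t β ^ m (algebraMap ℂ S c) = c := by
    intro c
    have h0 : Conv D q t (algebraMap ℂ S c * β ^ 0) := by
      rw [pow_zero, mul_one]
      exact conv_algebraMap c
    rw [key _ 0 h0, pow_zero, pow_zero, mul_one, div_one, ev_algebraMap]
  have hmul : ∀ f g : S, ev D q t (f * g * β ^ m (f * g)) / ev D q t β ^ m (f * g) =
      ev D q t (f * β ^ m f) / ev D q t β ^ m f * (ev D q t (g * β ^ m g) / ev D q t β ^ m g) := by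
    intro f g
    have e1 : f * g * β ^ (m f + m g) = f * β ^ m f * (g * β ^ m g) := by
      rw [pow_add]
      ring
    have h0 : Conv D q t (f * g * β ^ (m f + m g)) := by
      rw [e1]
      exact conv_mul (hm f) (hm g)
    rw [key _ _ h0, e1, ev_mul (hm f) (hm g), pow_add, mul_div_mul_comm]
  have hadd : ∀ f g : S, ev D q t ((f + g) * β ^ m (f + g)) / ev D q t β ^ m (f + g) =
      ev D q t (f * β ^ m f) / ev D q t β ^ m f + ev D q t (g * β ^ m g) / ev D q t β ^ m g := by
    intro f g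
    have h1 := f6_shift hβ (hm f) (m g)
    have h2 := f6_shift hβ (hm g) (m f)
    rw [add_comm (m g) (m f)] at h2
    have e1 : (f + g) * β ^ (m f + m g) = f * β ^ (m f + m g) + g * β ^ (m f + m g) := add_mul _ _ _
    have h0 : Conv D q t ((f + g) * β ^ (m f + m g)) := by
      rw [e1]
      exact conv_add h1.1 h2.1
    rw [key _ _ h0, key _ _ h1.1, key _ _ h2.1, e1, ev_add h1.1 h2.1, add_div]
  let q' : S →ₐ[ℂ] ℂ :=
    { toFun := fun f => ev D q t (f * β ^ m f) / ev D q t β ^ m f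
      map_one' := by
        have := halg 1
        rw [map_one] at this
        exact this
      map_mul' := hmul
      map_zero' := by
        have := halg 0
        rw [map_zero] at this
        exact this
      map_add' := hadd
      commutes' := halg }
  refine ⟨q', fun f hf => ?_⟩
  have h0 : Conv D q t (f * β ^ 0) := by
    rw [pow_zero, mul_one]
    exact hf
  have h1 : q' f = ev D q t (f * β ^ m f) / ev D q t β ^ m f := rfl
  rw [h1, key f 0 h0, pow_zero, pow_zero, mul_one, div_one]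

theorem Step.eq_div {q' : S →ₐ[ℂ] ℂ} (h : Step D q t q') {β f : S} {m : ℕ} (hβ : Conv D q t β)
    (hβ0 : ev D q t β ≠ 0) (hf : Conv D q t (f * β ^ m)) :
    q' f = ev D q t (f * β ^ m) / ev D q t β ^ m := by
  rw [eq_div_iff (pow_ne_zero _ hβ0), ← h _ hf, ← h _ hβ, map_mul, map_pow]

/-- a unit `β` of `S` with `Conv β` has `ev β ≠ 0` as soon as a partial flow exists: `q' β ≠ 0` -/
theorem Step.ev_ne_zero {q' : S →ₐ[ℂ] ℂ} (h : Step D q t q') {β : S} (hu : IsUnit β)
    (hβ : Conv D q t β) : ev D q t β ≠ 0 := by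
  rw [← h β hβ]
  exact (hu.map q').ne_zero

end Pool.Agent.CampanaFlow
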