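import Pool.Agent.Lib_MP_1209e6_fl.F1

/-! PIECE F2: additivity of flows. -/

set_option autoImplicit false

open Filter Topology

namespace Pool.Agent.CampanaFlow

variable {S : Type} [CommRing S] [Algebra ℂ S] {D : Derivation ℂ S S} {q q₁ : S →ₐ[ℂ] ℂ}
  {t : ℂ}

/-- absolute convergence at `t` gives it for smaller times (comparison) -/
theorem Conv.mono {f : S} {s : ℂ} (h : Conv D q t f) (hs : ‖s‖ ≤ ‖t‖) : Conv D q s f := by
  refine Summable.of_nonneg_of_le (fun n => by positivity) (fun n => ?_) h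
  gcongr

theorem tc_iterate (f : S) (m n : ℕ) :
    tc D q (D^[m] f) n = tc D q f (n + m) * ((n + m).factorial / n.factorial) := by
  unfold tc
  rw [Function.iterate_add_apply]
  have h1 : ((n + m).factorial : ℂ) ≠ 0 := by exact_mod_cast Nat.factorial_ne_zero _
  have h2 : (n.factorial : ℂ) ≠ 0 := by exact_mod_cast Nat.factorial_ne_zero _
  field_simp

/-- sum over an antidiagonal: the binomial theorem -/
theorem sum_antidiag_binom {R : Type} [CommRing R] (a : ℕ → R) (x y : R) (N : ℕ) :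
    ∑ p ∈ Finset.HasAntidiagonal.antidiagonal N,
      a (p.1 + p.2) * ((p.1 + p.2).choose p.1 : R) * (x ^ p.1 * y ^ p.2) = a N * (x + y) ^ N := by
  rw [(Commute.all x y).add_pow', Finset.mul_sum]
  refine Finset.sum_congr rfl fun p hp => ?_
  rw [Finset.HasAntidiagonal.mem_antidiagonal.1 hp, nsmul_eq_mul]
  ring

/-- Additivity. Proof: let `a_n = tc D q f n`, `∑ ‖a_n‖ ‖t‖^n < ∞`. For every `m`,
`q₁ (D^m f) = ev D q s₁ (D^m f) = ∑_n (n+m)!/n! a_{n+m} s₁^n` (as `tc D q (D^m f) n = (n+m)!/n! a_{n+m}`),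
so `tc D q₁ f m = ∑_n choose (n+m) m a_{n+m} s₁^n`. Hence
`∑_m ‖tc D q₁ f m‖ ‖s₂‖^m ≤ ∑_m ∑_n choose (n+m) m ‖a_{n+m}‖ ‖s₁‖^n ‖s₂‖^m
= ∑_N ‖a_N‖ (‖s₁‖+‖s₂‖)^N ≤ ∑ ‖a_N‖ ‖t‖^N < ∞` (sum over antidiagonals, binomial theorem), and the same
rearrangement without norms gives `ev D q₁ s₂ f = ev D q (s₁+s₂) f`. -/
theorem conv_flow {f : S} {s₁ s₂ : ℂ} (h : ∀ f, Conv D q t f) (h1 : IsFlow D q s₁ q₁)
    (hs : ‖s₁‖ + ‖s₂‖ ≤ ‖t‖) :
    Conv D q₁ s₂ f ∧ ev D q₁ s₂ f = ev D q (s₁ + s₂) f := by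
  set a : ℕ → ℂ := tc D q f with ha
  set c : ℕ × ℕ → ℂ := fun p =>
    a (p.1 + p.2) * ((p.1 + p.2).choose p.1 : ℂ) * (s₂ ^ p.1 * s₁ ^ p.2) with hc
  -- coefficients of the new series
  have hcoef : ∀ m, tc D q₁ f m * s₂ ^ m = ∑' n, c (m, n) := by
    intro m
    have e1 : q₁ (D^[m] f) = ∑' n, tc D q (D^[m] f) n * s₁ ^ n := (h1 (D^[m] f)).2
    have : tc D q₁ f m * s₂ ^ m = (∑' n, tc D q (D^[m] f) n * s₁ ^ n) * (s₂ ^ m / m.factorial) := by
      unfold tc at e1 ⊢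
      rw [e1]
      ring
    rw [this, ← tsum_mul_right]
    refine tsum_congr fun n => ?_
    simp only [hc]
    rw [tc_iterate, ← ha, add_comm n m]
    have h2 : (n.factorial : ℂ) ≠ 0 := by exact_mod_cast Nat.factorial_ne_zero _
    have h3 : (m.factorial : ℂ) ≠ 0 := by exact_mod_cast Nat.factorial_ne_zero _
    have h4 : (((m + n).choose m : ℕ) : ℂ) * m.factorial * n.factorial = (m + n).factorial := by
      rw [Nat.choose_symm_add]
      exact_mod_cast Nat.add_choose_mul_factorial_mul_factorial m n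
    rw [← h4]
    field_simp
  -- norms
  have hnorm : ∀ p, ‖c p‖ = ‖a (p.1 + p.2)‖ * ((p.1 + p.2).choose p.1 : ℝ) *
      (‖s₂‖ ^ p.1 * ‖s₁‖ ^ p.2) := by
    intro p
    simp only [hc, norm_mul, norm_pow, Complex.norm_natCast]
  -- summability on the product
  have hsn : Summable fun p => ‖c p‖ := by
    rw [← Finset.HasAntidiagonal.sigmaAntidiagonalEquivProd.summable_iff]
    refine (summable_sigma_of_nonneg (fun _ => norm_nonneg _)).2
      ⟨fun N => (hasSum_fintype _).summable, ?_⟩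
    have hh : Summable fun n => ‖a n‖ * ‖t‖ ^ n := h f
    refine Summable.of_nonneg_of_le (fun N => tsum_nonneg fun _ => norm_nonneg _) (fun N => ?_) hh
    have e2 : ∑' y : Finset.HasAntidiagonal.antidiagonal N,
        ‖c (Finset.HasAntidiagonal.sigmaAntidiagonalEquivProd ⟨N, y⟩)‖
        = ∑ p ∈ Finset.HasAntidiagonal.antidiagonal N, ‖c p‖ := by
      rw [tsum_fintype]
      exact Finset.sum_finset_coe (fun p => ‖c p‖) _
    rw [e2]
    have e3 : ∑ p ∈ Finset.HasAntidiagonal.antidiagonal N, ‖c p‖ = ‖a N‖ * (‖s₂‖ + ‖s₁‖) ^ N := by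
      rw [← sum_antidiag_binom (fun n => ‖a n‖)]
      exact Finset.sum_congr rfl fun p _ => hnorm p
    rw [e3]
    have : ‖s₂‖ + ‖s₁‖ ≤ ‖t‖ := by linarith
    gcongr
  have hsum : Summable c := hsn.of_norm
  constructor
  · -- convergence
    have h5 : Summable fun m => ∑' n, ‖c (m, n)‖ := hsn.prod
    refine Summable.of_nonneg_of_le (fun n => by positivity) (fun m => ?_) h5
    rw [← norm_pow, ← norm_mul, hcoef m]
    exact norm_tsum_le_tsum_norm (hsn.prod_factor m)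
  · have e4 : ev D q₁ s₂ f = ∑' m, ∑' n, c (m, n) := tsum_congr hcoef
    rw [e4, ← hsum.tsum_prod, ← Finset.HasAntidiagonal.sigmaAntidiagonalEquivProd.tsum_eq c]
    have hs' : Summable fun x : Σ n : ℕ, Finset.HasAntidiagonal.antidiagonal n =>
        c (Finset.HasAntidiagonal.sigmaAntidiagonalEquivProd x) :=
      (Finset.HasAntidiagonal.sigmaAntidiagonalEquivProd.summable_iff (f := c)).2 hsum
    rw [hs'.tsum_sigma' (fun N => (hasSum_fintype _).summable)]
    refine tsum_congr fun N => ?_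
    rw [tsum_fintype]
    have e5 : ∑ y : Finset.HasAntidiagonal.antidiagonal N,
        c (Finset.HasAntidiagonal.sigmaAntidiagonalEquivProd ⟨N, y⟩)
        = ∑ p ∈ Finset.HasAntidiagonal.antidiagonal N, c p :=
      Finset.sum_finset_coe c _
    rw [e5]
    have := sum_antidiag_binom a s₂ s₁ N
    rw [add_comm s₁ s₂, ← ha]
    exact this

theorem IsFlow.add {s₁ s₂ : ℂ} (h : ∀ f, Conv D q t f) (h1 : IsFlow D q s₁ q₁)
    (hs : ‖s₁‖ + ‖s₂‖ ≤ ‖t‖) : ∃ q₂, IsFlow D q₁ s₂ q₂ ∧ IsFlow D q (s₁ + s₂) q₂ := by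
  obtain ⟨q₂, h2⟩ := exists_isFlow (fun f => (conv_flow (f := f) h h1 hs).1)
  refine ⟨q₂, h2, fun f => ⟨(h f).mono ((norm_add_le _ _).trans hs), ?_⟩⟩
  rw [(h2 f).2, (conv_flow (f := f) h h1 hs).2]

end Pool.Agent.CampanaFlow
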