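import Pool.Agent.Lib_MP_1209e6_fl.C4
import Pool.Agent.Lib_MP_1209e6_fl.F2

/-! PIECE C5: `M` small steps. -/

set_option autoImplicit false

open Filter Topology

namespace Pool.Agent.CampanaFlow

variable {S : Type} [CommRing S] [Algebra ℂ S] {D : Derivation ℂ S S}

/-- the flow of time zero -/
private theorem isFlow_zero (q : S →ₐ[ℂ] ℂ) : IsFlow D q 0 q := by
  intro f
  have h0 : ∀ n : ℕ, n ≠ 0 → tc D q f n * (0 : ℂ) ^ n = 0 := fun n hn => by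
    rw [zero_pow hn, mul_zero]
  constructor
  · unfold Conv
    refine summable_of_ne_finset_zero (s := {0}) fun n hn => ?_
    rw [Finset.mem_singleton] at hn
    rw [norm_zero, zero_pow hn, mul_zero]
  · unfold ev
    rw [tsum_eq_single 0 h0, pow_zero, mul_one]
    unfold tc
    simp

/-- the induction step of `mstep`: one point -/
private theorem mstep_add {q q1 q3 : S →ₐ[ℂ] ℂ} {t : ℂ} {M i : ℕ} (hM : 0 < M) (hi : i < M)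
    (h : IsFlow D q t q3) (h1 : IsFlow D q ((i : ℂ) * t / M) q1) :
    ∃ q2, IsFlow D q1 (t / M) q2 ∧ IsFlow D q (((i + 1 : ℕ) : ℂ) * t / M) q2 := by
  have hM' : (0 : ℝ) < M := Nat.cast_pos.2 hM
  have hs : ‖(i : ℂ) * t / M‖ + ‖t / M‖ ≤ ‖t‖ := by
    rw [norm_div, norm_mul, norm_div, Complex.norm_natCast, Complex.norm_natCast, ← add_div,
      div_le_iff₀ hM']
    have h2 : ((i : ℝ) + 1) ≤ M := by exact_mod_cast hi
    calc (i : ℝ) * ‖t‖ + ‖t‖ = ((i : ℝ) + 1) * ‖t‖ := by ring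
      _ ≤ M * ‖t‖ := mul_le_mul_of_nonneg_right h2 (norm_nonneg t)
      _ = ‖t‖ * M := mul_comm _ _
  obtain ⟨q2, h2, h3⟩ := IsFlow.add (fun f => (h f).1) h1 hs
  refine ⟨q2, h2, ?_⟩
  have h4 : ((i + 1 : ℕ) : ℂ) * t / M = (i : ℂ) * t / M + t / M := by
    push_cast
    ring
  rw [h4]
  exact h3

/-- the induction of `mstep` -/
private theorem mstep_aux {R : ℝ} (hR : 0 < R) {γ : ℂ → S →ₐ[ℂ] ℂ} {B : Set ℂ}
    (hγ : IsCurve (Metric.ball 0 R) γ B) (cd : ChartData D) (φ : ℂ → ℂ) (hφ : Differentiable ℂ φ)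
    (M : ℕ) (hM : 0 < M)
    (hs : ∀ z ∈ Metric.ball (0 : ℂ) R, z ∉ B → ‖φ z‖ * cd.size (γ z) ≤ M / 4)
    (h0 : (0 : ℂ) ∉ B) (hq : ∃ q, IsFlow D (γ 0) (φ 0) q) (i : ℕ) (hi : i ≤ M) :
    ∃ (γ' : ℂ → S →ₐ[ℂ] ℂ) (B' : Set ℂ), IsCurve (Metric.ball 0 R) γ' B' ∧ B ⊆ B' ∧
      (∀ z ∈ Metric.ball (0 : ℂ) R, z ∉ B' → cd.size (γ' z) = cd.size (γ z)) ∧
      ∀ z ∈ Metric.ball (0 : ℂ) R, z ∉ B → ∀ q, IsFlow D (γ z) (φ z) q → z ∉ B' ∧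
        IsFlow D (γ z) ((i : ℂ) * φ z / M) (γ' z) := by
  have hM' : (0 : ℝ) < M := Nat.cast_pos.2 hM
  have hball : (0 : ℂ) ∈ Metric.ball (0 : ℂ) R := Metric.mem_ball_self hR
  induction i with
  | zero =>
    refine ⟨γ, B, hγ, subset_rfl, fun _ _ _ => rfl, fun z _ hz q _ => ⟨hz, ?_⟩⟩
    rw [Nat.cast_zero, zero_mul, zero_div]
    exact isFlow_zero _
  | succ i ih =>
    obtain ⟨γ1, B1, hγ1, hB1, hsz, hfl⟩ := ih (Nat.le_of_succ_le hi)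
    obtain ⟨q0, hq0⟩ := hq
    have h01 := hfl 0 hball h0 q0 hq0
    obtain ⟨q2, hq2, -⟩ := mstep_add hM hi hq0 h01.2
    have hτ : Differentiable ℂ (fun z => φ z / (M : ℂ)) := hφ.div_const _
    have hs1 : ∀ z ∈ Metric.ball (0 : ℂ) R, z ∉ B1 → ‖φ z / (M : ℂ)‖ * cd.size (γ1 z) ≤ 1 / 4 := by
      intro z hz hzB
      rw [hsz z hz hzB, norm_div, Complex.norm_natCast, div_mul_eq_mul_div, div_le_iff₀ hM']
      have := hs z hz (fun h => hzB (hB1 h))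
      linarith
    obtain ⟨γ2, B2, hγ2, hB2, hst, hex⟩ := step_curve hγ1 cd (fun z => φ z / (M : ℂ)) hτ hs1 0 hball
      h01.1 ⟨q2, hq2.step⟩
    refine ⟨γ2, B2, hγ2, hB1.trans hB2, ?_, ?_⟩
    · intro z hz hzB
      rw [cd.size_step (hst z hz hzB), hsz z hz (fun h => hzB (hB2 h))]
    · intro z hz hzB q hqz
      obtain ⟨hz1, hz2⟩ := hfl z hz hzB q hqz
      obtain ⟨q3, hq3, hq3'⟩ := mstep_add hM hi hqz hz2
      have hz3 : z ∉ B2 := hex z hz hz1 ⟨q3, hq3.step⟩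
      refine ⟨hz3, ?_⟩
      have h5 : IsFlow D (γ1 z) (φ z / (M : ℂ)) (γ2 z) :=
        (hst z hz hz3).isFlow fun f => (hq3 f).1
      rw [h5.unique hq3]
      exact hq3'

/-- Induction on `i ≤ M`: there are `γ_i, B_i` with `IsCurve`, `B ⊆ B_i`, `size (γ_i z) = size (γ z)` for
`z ∈ U \ B_i` (`size_step`), and for all `z ∈ U \ B` and `q` with `IsFlow D (γ z) (φ z) q`: `z ∉ B_i` and
`IsFlow D (γ z) (i φ z / M) (γ_i z)`. Start: `γ_0 = γ` (flow of time `0`: `ev D q 0 f = q f`). Step: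
`step_curve` with `τ = φ / M`, base point `0` (there `hq` and `IsFlow.add` give the flow
`IsFlow D (γ_i 0) (φ 0 / M) _`, so a step exists). For `z` with `IsFlow D (γ z) (φ z) q`:
`IsFlow.add` with `t = φ z`, `s₁ = i φ z / M`, `s₂ = φ z / M` gives `q₂` with
`IsFlow D (γ_i z) (φ z/M) q₂` and `IsFlow D (γ z) ((i+1) φ z / M) q₂`; so `z ∉ B_{i+1}` and
`γ_{i+1} z = q₂` because `Step` and full convergence determine it. At `i = M`: `IsFlow.unique`. -/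
theorem mstep {R : ℝ} (hR : 0 < R) {γ : ℂ → S →ₐ[ℂ] ℂ} {B : Set ℂ}
    (hγ : IsCurve (Metric.ball 0 R) γ B) (cd : ChartData D) (φ : ℂ → ℂ) (hφ : Differentiable ℂ φ)
    (M : ℕ) (hM : 0 < M)
    (hs : ∀ z ∈ Metric.ball (0 : ℂ) R, z ∉ B → ‖φ z‖ * cd.size (γ z) ≤ M / 4)
    (h0 : (0 : ℂ) ∉ B) (hq : ∃ q, IsFlow D (γ 0) (φ 0) q) :
    ∃ (γ' : ℂ → S →ₐ[ℂ] ℂ) (B' : Set ℂ), IsCurve (Metric.ball 0 R) γ' B' ∧ B ⊆ B' ∧
      ∀ z ∈ Metric.ball (0 : ℂ) R, z ∉ B → ∀ q, IsFlow D (γ z) (φ z) q → z ∉ B' ∧ γ' z = q := by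
  obtain ⟨γ1, B1, h1, h2, -, h4⟩ := mstep_aux hR hγ cd φ hφ M hM hs h0 hq M le_rfl
  refine ⟨γ1, B1, h1, h2, fun z hz hzB q hqz => ?_⟩
  obtain ⟨h5, h6⟩ := h4 z hz hzB q hqz
  have hM' : (M : ℂ) ≠ 0 := Nat.cast_ne_zero.2 hM.ne'
  rw [mul_div_cancel_left₀ _ hM'] at h6
  exact ⟨h5, h6.unique hqz⟩

end Pool.Agent.CampanaFlow
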