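import Pool.Agent.Lib_MP_1209e6_fl.C0
import Pool.Agent.Lib_MP_1209e6_fl.Defs

/-! PIECE C6: gluing curves over discs. -/

set_option autoImplicit false

open Filter Topology

namespace Pool.Agent.CampanaFlow

variable {S : Type} [CommRing S] [Algebra ℂ S]

/-- Two curves over a disc which agree near `0` agree outside of the exceptional sets: identity theorem
(`AnalyticOnNhd.eqOn_of_preconnected_of_eventuallyEq`) on `ball 0 R \ (B ∪ B')`, preconnected by `C0`,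
applied to `w ↦ γ w f` for each `f`. -/
theorem IsCurve.eq {R : ℝ} (hR : 0 < R) {γ γ' : ℂ → S →ₐ[ℂ] ℂ} {B B' : Set ℂ}
    (h : IsCurve (Metric.ball 0 R) γ B) (h' : IsCurve (Metric.ball 0 R) γ' B')
    (h0 : (0 : ℂ) ∉ B) (h0' : (0 : ℂ) ∉ B') (he : ∀ᶠ w in 𝓝 (0 : ℂ), γ w = γ' w) :
    ∀ z ∈ Metric.ball (0 : ℂ) R, z ∉ B → z ∉ B' → γ z = γ' z := by
  intro z hz hzB hzB'
  have hB : ∀ z ∈ Metric.ball (0 : ℂ) R, ∀ᶠ w in 𝓝[≠] z, w ∉ B ∪ B' := by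
    intro z hz
    filter_upwards [h.disc z hz, h'.disc z hz] with w h1 h2
    rintro (h3 | h3)
    · exact h1 h3
    · exact h2 h3
  have hpre := preconn R (B ∪ B') hB
  apply AlgHom.ext
  intro f
  have ha : AnalyticOnNhd ℂ (fun w => γ w f) (Metric.ball (0 : ℂ) R \ (B ∪ B')) :=
    fun w hw => h.ana f w hw.1 (fun h1 => hw.2 (Or.inl h1))
  have ha' : AnalyticOnNhd ℂ (fun w => γ' w f) (Metric.ball (0 : ℂ) R \ (B ∪ B')) :=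
    fun w hw => h'.ana f w hw.1 (fun h1 => hw.2 (Or.inr h1))
  have hz0 : (0 : ℂ) ∈ Metric.ball (0 : ℂ) R \ (B ∪ B') := by
    refine ⟨Metric.mem_ball_self hR, ?_⟩
    rintro (h3 | h3)
    · exact h0 h3
    · exact h0' h3
  have hev : (fun w => γ w f) =ᶠ[𝓝 0] (fun w => γ' w f) := by
    filter_upwards [he] with w hw
    show γ w f = γ' w f
    rw [hw]
  refine ha.eqOn_of_preconnected_of_eventuallyEq ha' hpre hz0 hev ⟨hz, ?_⟩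
  rintro (h3 | h3)
  · exact hzB h3
  · exact hzB' h3

/-- Let `ν z = ⌈‖z‖⌉₊` (so `‖z‖ < ν z + 1`), `γ' z = γ (ν z) z`, `B' = {z | z ∈ B (ν z) ∨ z ∈ B (ν z + 1)}`.
For `w` near `z₀`, `ν w ∈ {ν z₀, ν z₀ + 1}` and `z₀` lies in the discs of both indices; off
`B (ν z₀) ∪ B (ν z₀ + 1)` the two curves agree there (`IsCurve.eq`), so `γ' w = γ (ν z₀) w`. This gives
`disc`, `ana`, `mer`. The last statement is immediate (`n = ν z` and `n = ν z + 1`). -/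
theorem glue (γ : ℕ → ℂ → S →ₐ[ℂ] ℂ) (B : ℕ → Set ℂ)
    (h : ∀ n : ℕ, IsCurve (Metric.ball 0 ((n : ℝ) + 1)) (γ n) (B n)) (h0 : ∀ n, (0 : ℂ) ∉ B n)
    (he : ∀ n m, ∀ᶠ w in 𝓝 (0 : ℂ), γ n w = γ m w) :
    ∃ (γ' : ℂ → S →ₐ[ℂ] ℂ) (B' : Set ℂ), IsCurve Set.univ γ' B' ∧
      ∀ z q, (∀ n : ℕ, ‖z‖ < n + 1 → z ∉ B n ∧ γ n z = q) → z ∉ B' ∧ γ' z = q := by
  have hν : ∀ z₀ : ℂ, ∀ᶠ w in 𝓝 z₀, (⌈‖w‖⌉₊ = ⌈‖z₀‖⌉₊ ∨ ⌈‖w‖⌉₊ = ⌈‖z₀‖⌉₊ + 1) ∧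
      ‖w‖ < (⌈‖z₀‖⌉₊ : ℝ) + 1 := by
    intro z₀
    have h1 : ‖z₀‖ < (⌈‖z₀‖⌉₊ : ℝ) + 1 := (Nat.le_ceil _).trans_lt (lt_add_one _)
    have h2 : ∀ᶠ w in 𝓝 z₀, ‖w‖ < (⌈‖z₀‖⌉₊ : ℝ) + 1 :=
      (continuous_norm.tendsto z₀).eventually (Iio_mem_nhds h1)
    have h3 : ∀ᶠ w in 𝓝 z₀, (⌈‖z₀‖⌉₊ : ℝ) - 1 < ‖w‖ ∨ ⌈‖z₀‖⌉₊ = 0 := by
      rcases Nat.eq_zero_or_pos ⌈‖z₀‖⌉₊ with h4 | h4
      · exact Eventually.of_forall fun w => Or.inr h4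
      · have h5 : (⌈‖z₀‖⌉₊ : ℝ) - 1 < ‖z₀‖ := by
          have h6 : ⌈‖z₀‖⌉₊ - 1 < ⌈‖z₀‖⌉₊ := by omega
          have h7 := Nat.lt_ceil.1 h6
          rw [Nat.cast_sub h4, Nat.cast_one] at h7
          exact h7
        filter_upwards [(continuous_norm.tendsto z₀).eventually (Ioi_mem_nhds h5)] with w hw
        exact Or.inl hw
    filter_upwards [h2, h3] with w hw2 hw3
    refine ⟨?_, hw2⟩
    have h4 : ⌈‖w‖⌉₊ ≤ ⌈‖z₀‖⌉₊ + 1 := by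
      refine Nat.ceil_le.2 ?_
      push_cast
      exact hw2.le
    have h5 : ⌈‖z₀‖⌉₊ ≤ ⌈‖w‖⌉₊ := by
      rcases hw3 with hw3 | hw3
      · rcases Nat.eq_zero_or_pos ⌈‖z₀‖⌉₊ with h6 | h6
        · omega
        · have h7 : ⌈‖z₀‖⌉₊ - 1 < ⌈‖w‖⌉₊ := by
            refine Nat.lt_ceil.2 ?_
            rw [Nat.cast_sub h6, Nat.cast_one]
            exact hw3
          omega
      · omega
    omega
  have hmem : ∀ z : ℂ, ∀ k : ℕ, z ∈ Metric.ball (0 : ℂ) (((⌈‖z‖⌉₊ + k : ℕ) : ℝ) + 1) := by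
    intro z k
    rw [mem_ball_zero_iff]
    have h1 := Nat.le_ceil ‖z‖
    have h2 : (⌈‖z‖⌉₊ : ℝ) ≤ ((⌈‖z‖⌉₊ + k : ℕ) : ℝ) := by exact_mod_cast Nat.le_add_right _ _
    linarith
  have hagree : ∀ n : ℕ, ∀ z : ℂ, ‖z‖ < (n : ℝ) + 1 → z ∉ B n → z ∉ B (n + 1) →
      γ (n + 1) z = γ n z := by
    intro n z hz h1 h2
    have hn : IsCurve (Metric.ball (0 : ℂ) ((n : ℝ) + 1)) (γ (n + 1)) (B (n + 1)) := by
      have h3 := h (n + 1)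
      have hsub : Metric.ball (0 : ℂ) ((n : ℝ) + 1) ⊆ Metric.ball 0 (((n + 1 : ℕ) : ℝ) + 1) := by
        refine Metric.ball_subset_ball ?_
        push_cast
        linarith
      exact ⟨fun z hz => h3.disc z (hsub hz), fun f z hz hB => h3.ana f z (hsub hz) hB,
        fun f z hz => h3.mer f z (hsub hz)⟩
    exact IsCurve.eq (by positivity) hn (h n) (h0 (n + 1)) (h0 n) (he (n + 1) n) z
      (mem_ball_zero_iff.2 hz) h2 h1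
  refine ⟨fun z => γ ⌈‖z‖⌉₊ z, {z | z ∈ B ⌈‖z‖⌉₊ ∨ z ∈ B (⌈‖z‖⌉₊ + 1)}, ⟨?_, ?_, ?_⟩, ?_⟩
  · intro z₀ _
    have d0 := (h (⌈‖z₀‖⌉₊ + 0)).disc z₀ (hmem z₀ 0)
    have d1 := (h (⌈‖z₀‖⌉₊ + 1)).disc z₀ (hmem z₀ 1)
    have d2 := (h (⌈‖z₀‖⌉₊ + 2)).disc z₀ (hmem z₀ 2)
    filter_upwards [d0, d1, d2, nhdsWithin_le_nhds (hν z₀)] with w h1 h2 h3 h4
    rintro (h5 | h5)
    · rcases h4.1 with h6 | h6
      · rw [h6] at h5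
        exact h1 h5
      · rw [h6] at h5
        exact h2 h5
    · rcases h4.1 with h6 | h6
      · rw [h6] at h5
        exact h2 h5
      · rw [h6] at h5
        exact h3 h5
  · intro f z₀ _ hz₀
    have hz1 : z₀ ∉ B ⌈‖z₀‖⌉₊ := fun h1 => hz₀ (Or.inl h1)
    have hz2 : z₀ ∉ B (⌈‖z₀‖⌉₊ + 1) := fun h1 => hz₀ (Or.inr h1)
    have d0 := (h (⌈‖z₀‖⌉₊ + 0)).disc z₀ (hmem z₀ 0)
    have d1 := (h (⌈‖z₀‖⌉₊ + 1)).disc z₀ (hmem z₀ 1)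
    have e0 : ∀ᶠ w in 𝓝 z₀, w ∉ B ⌈‖z₀‖⌉₊ := by
      rw [eventually_nhdsWithin_iff] at d0
      filter_upwards [d0] with w hw
      by_cases hwz : w = z₀
      · rw [hwz]; exact hz1
      · exact hw hwz
    have e1 : ∀ᶠ w in 𝓝 z₀, w ∉ B (⌈‖z₀‖⌉₊ + 1) := by
      rw [eventually_nhdsWithin_iff] at d1
      filter_upwards [d1] with w hw
      by_cases hwz : w = z₀
      · rw [hwz]; exact hz2
      · exact hw hwz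
    refine ((h ⌈‖z₀‖⌉₊).ana f z₀ (hmem z₀ 0) hz1).congr ?_
    filter_upwards [e0, e1, hν z₀] with w h1 h2 h3
    show γ ⌈‖z₀‖⌉₊ w f = γ ⌈‖w‖⌉₊ w f
    rcases h3.1 with h4 | h4
    · rw [h4]
    · rw [h4, hagree _ w h3.2 h1 h2]
  · intro f z₀ _
    have d0 := (h (⌈‖z₀‖⌉₊ + 0)).disc z₀ (hmem z₀ 0)
    have d1 := (h (⌈‖z₀‖⌉₊ + 1)).disc z₀ (hmem z₀ 1)
    refine ((h ⌈‖z₀‖⌉₊).mer f z₀ (hmem z₀ 0)).congr ?_
    filter_upwards [d0, d1, nhdsWithin_le_nhds (hν z₀)] with w h1 h2 h3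
    show γ ⌈‖z₀‖⌉₊ w f = γ ⌈‖w‖⌉₊ w f
    rcases h3.1 with h4 | h4
    · rw [h4]
    · rw [h4, hagree _ w h3.2 h1 h2]
  · intro z q hq
    have h1 := hq ⌈‖z‖⌉₊ (mem_ball_zero_iff.1 (hmem z 0))
    have h2 := hq (⌈‖z‖⌉₊ + 1) (mem_ball_zero_iff.1 (hmem z 1))
    refine ⟨?_, h1.2⟩
    rintro (h3 | h3)
    · exact h1.1 h3
    · exact h2.1 h3

end Pool.Agent.CampanaFlow
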