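import Pool.Agent.Lib_MP_1209e6_fl.F5

/-! PIECE C7: damping at the exceptional points. -/

set_option autoImplicit false

open Filter Topology

namespace Pool.Agent.CampanaFlow

variable {S : Type} [CommRing S] [Algebra ℂ S] {D : Derivation ℂ S S}

/-- a product of nonnegative order is bounded in a punctured neighbourhood -/
theorem c7_term {φ g : ℂ → ℂ} {b : ℂ} (hφ : AnalyticAt ℂ φ b) (hg : MeromorphicAt g b) (k : ℕ)
    (hk : (k : ℕ∞) ≤ analyticOrderAt φ b) (hgk : (-(meromorphicOrderAt g b).untop₀).toNat ≤ k) :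
    ∃ C : ℝ, ∀ᶠ w in 𝓝[≠] b, ‖φ w * g w‖ ≤ C := by
  have h1 : 0 ≤ meromorphicOrderAt (φ * g) b := by
    rw [meromorphicOrderAt_mul hφ.meromorphicAt hg, hφ.meromorphicOrderAt_eq]
    rcases h2 : meromorphicOrderAt g b with _ | n
    · exact le_of_le_of_eq le_top (WithTop.add_top _).symm
    · rcases h3 : analyticOrderAt φ b with _ | r
      · exact le_of_le_of_eq le_top (WithTop.top_add _).symm
      · rw [h3] at hk
        rw [h2] at hgk
        have h4 : k ≤ r := by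
          have h40 : (k : ℕ∞) ≤ ((r : ℕ) : ℕ∞) := hk
          exact_mod_cast h40
        have h5 : (-n).toNat ≤ k := hgk
        have h6 : 0 ≤ (r : ℤ) + n := by omega
        show (0 : WithTop ℤ) ≤ (((r : ℤ) + n : ℤ) : WithTop ℤ)
        exact_mod_cast h6
  obtain ⟨c, hc⟩ := tendsto_nhds_of_meromorphicOrderAt_nonneg (hφ.meromorphicAt.mul hg) h1
  refine ⟨‖c‖ + 1, ?_⟩
  filter_upwards [hc.norm.eventually_lt_const (lt_add_one _)] with w hw
  exact hw.le

/-- local boundedness of finite sums -/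
theorem c7_sum {ι : Type*} (s : Finset ι) (F : ι → ℂ → ℝ) (B : Set ℂ) (z₀ : ℂ)
    (h : ∀ i ∈ s, ∃ C : ℝ, ∀ᶠ w in 𝓝 z₀, w ∉ B → F i w ≤ C) :
    ∃ C : ℝ, ∀ᶠ w in 𝓝 z₀, w ∉ B → ∑ i ∈ s, F i w ≤ C := by
  classical
  induction s using Finset.induction_on with
  | empty => exact ⟨0, Eventually.of_forall fun w _ => by simp⟩
  | insert a s ha ih =>
    obtain ⟨C1, h1⟩ := h a (Finset.mem_insert_self _ _)
    obtain ⟨C2, h2⟩ := ih fun i hi => h i (Finset.mem_insert_of_mem hi)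
    refine ⟨C1 + C2, ?_⟩
    filter_upwards [h1, h2] with w hw1 hw2 hw
    rw [Finset.sum_insert ha]
    exact add_le_add (hw1 hw) (hw2 hw)

/-- `size (γ z)` is a finite sum of terms `κ ‖γ z f‖` with `κ ≥ 0` and `f = ∏_a (c a)^(s a)`
(`map_prod`, `norm_prod`). Let `m b` be the sum (or maximum) over these `f` of the pole orders
`(-meromorphicOrderAt (fun w => γ w f) b).toNat` (`untop₀`). If `φ` vanishes at `b` of order `≥ m b`, then
`φ w * γ w f` has nonnegative order at `b`, so it is bounded in a punctured neighbourhood of `b`; at the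
points outside of `B` it is continuous. So `‖φ w‖ size (γ w)` is bounded near each point `z₀`, off `B`
(at `b ∈ B` the value at `b` itself is not considered); the closed disc is compact. -/
theorem ChartData.damp (cd : ChartData D) {γ : ℂ → S →ₐ[ℂ] ℂ} {B : Set ℂ}
    (hγ : IsCurve Set.univ γ B) :
    ∃ m : ℂ → ℕ, ∀ φ : ℂ → ℂ, Differentiable ℂ φ → (∀ b ∈ B, (m b : ℕ∞) ≤ analyticOrderAt φ b) →
      ∀ R : ℝ, ∃ C : ℝ, ∀ z ∈ Metric.ball (0 : ℂ) R, z ∉ B → ‖φ z‖ * cd.size (γ z) ≤ C := by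
  classical
  -- the monomials in the constants
  set f : (Fin cd.e ⊕ Fin (cd.N + 1) →₀ ℕ) → S := fun s => ∏ a, cd.c a ^ s (Sum.inl a) with hf
  have hfn : ∀ s w, ∏ a, ‖γ w (cd.c a)‖ ^ s (Sum.inl a) = ‖γ w (f s)‖ := by
    intro s w
    simp only [hf, map_prod, map_pow, norm_prod, norm_pow]
  refine ⟨fun b => ∑ j, ∑ l, ∑ s ∈ (cd.P j l).support,
    (-(meromorphicOrderAt (fun w => γ w (f s)) b).untop₀).toNat, ?_⟩
  intro φ hφ hord R
  -- local boundedness of each term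
  have hloc : ∀ z₀ : ℂ, ∀ j l, ∀ s ∈ (cd.P j l).support,
      ∃ C : ℝ, ∀ᶠ w in 𝓝 z₀, w ∉ B → ‖φ w * γ w (f s)‖ ≤ C := by
    intro z₀ j l s hs
    have hφa : AnalyticAt ℂ φ z₀ := hφ.analyticAt z₀
    by_cases hz : z₀ ∈ B
    · have hm : (-(meromorphicOrderAt (fun w => γ w (f s)) z₀).untop₀).toNat ≤
          ∑ j, ∑ l, ∑ s ∈ (cd.P j l).support,
            (-(meromorphicOrderAt (fun w => γ w (f s)) z₀).untop₀).toNat := by
        calc (-(meromorphicOrderAt (fun w => γ w (f s)) z₀).untop₀).toNat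
            ≤ ∑ s ∈ (cd.P j l).support,
              (-(meromorphicOrderAt (fun w => γ w (f s)) z₀).untop₀).toNat :=
              Finset.single_le_sum (f := fun s =>
                (-(meromorphicOrderAt (fun w => γ w (f s)) z₀).untop₀).toNat)
                (fun _ _ => Nat.zero_le _) hs
          _ ≤ ∑ l, ∑ s ∈ (cd.P j l).support,
              (-(meromorphicOrderAt (fun w => γ w (f s)) z₀).untop₀).toNat :=
              Finset.single_le_sum (f := fun l => ∑ s ∈ (cd.P j l).support,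
                (-(meromorphicOrderAt (fun w => γ w (f s)) z₀).untop₀).toNat)
                (fun _ _ => Nat.zero_le _) (Finset.mem_univ l)
          _ ≤ _ :=
              Finset.single_le_sum (f := fun j => ∑ l, ∑ s ∈ (cd.P j l).support,
                (-(meromorphicOrderAt (fun w => γ w (f s)) z₀).untop₀).toNat)
                (fun _ _ => Nat.zero_le _) (Finset.mem_univ j)
      obtain ⟨C, hC⟩ := c7_term hφa (hγ.mer (f s) z₀ (Set.mem_univ _)) _ (hord z₀ hz) hm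
      refine ⟨C, ?_⟩
      rw [eventually_nhdsWithin_iff] at hC
      filter_upwards [hC] with w hw hwB
      exact hw (fun h => hwB (h ▸ hz))
    · have hc : ContinuousAt (fun w => φ w * γ w (f s)) z₀ :=
        hφa.continuousAt.mul (hγ.ana (f s) z₀ (Set.mem_univ _) hz).continuousAt
      refine ⟨‖φ z₀ * γ z₀ (f s)‖ + 1, ?_⟩
      filter_upwards [hc.norm.eventually_lt_const (lt_add_one _)] with w hw _
      exact hw.le
  -- local boundedness of the size
  have hloc2 : ∀ z₀ : ℂ, ∃ C : ℝ, ∀ᶠ w in 𝓝 z₀, w ∉ B → ‖φ w‖ * cd.size (γ w) ≤ C := by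
    intro z₀
    have h1 : ∃ C : ℝ, ∀ᶠ w in 𝓝 z₀, w ∉ B → ∑ j, ∑ l, ∑ s ∈ (cd.P j l).support,
        (‖(cd.P j l).coeff s‖ * ∏ i, (2 : ℝ) ^ s (Sum.inr i)) * ‖φ w * γ w (f s)‖ ≤ C := by
      refine c7_sum _ _ B z₀ fun j _ => c7_sum _ _ B z₀ fun l _ => c7_sum _ _ B z₀ fun s hs => ?_
      obtain ⟨C, hC⟩ := hloc z₀ j l s hs
      refine ⟨(‖(cd.P j l).coeff s‖ * ∏ i, (2 : ℝ) ^ s (Sum.inr i)) * C, ?_⟩
      filter_upwards [hC] with w hw hwB
      exact mul_le_mul_of_nonneg_left (hw hwB) (by positivity)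
    obtain ⟨C, hC⟩ := h1
    refine ⟨(1 + cd.deg) * C, ?_⟩
    filter_upwards [hC] with w hw hwB
    have h2 : ‖φ w‖ * cd.size (γ w) = (1 + cd.deg) * ∑ j, ∑ l, ∑ s ∈ (cd.P j l).support,
        (‖(cd.P j l).coeff s‖ * ∏ i, (2 : ℝ) ^ s (Sum.inr i)) * ‖φ w * γ w (f s)‖ := by
      unfold ChartData.size
      rw [mul_left_comm]
      congr 1
      simp only [Finset.mul_sum]
      refine Finset.sum_congr rfl fun j _ => Finset.sum_congr rfl fun l _ =>
        Finset.sum_congr rfl fun s _ => ?_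
      rw [hfn, norm_mul]
      ring
    rw [h2]
    exact mul_le_mul_of_nonneg_left (hw hwB) (by positivity)
  -- compactness
  have hcomp : ∃ C : ℝ, ∀ z ∈ Metric.closedBall (0 : ℂ) R, z ∉ B → ‖φ z‖ * cd.size (γ z) ≤ C := by
    refine (isCompact_closedBall (0 : ℂ) R).induction_on
      (p := fun T => ∃ C : ℝ, ∀ z ∈ T, z ∉ B → ‖φ z‖ * cd.size (γ z) ≤ C) ?_ ?_ ?_ ?_
    · exact ⟨0, fun z hz => absurd hz (Set.notMem_empty z)⟩
    · rintro s t hst ⟨C, hC⟩
      exact ⟨C, fun z hz => hC z (hst hz)⟩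
    · rintro s t ⟨C1, h1⟩ ⟨C2, h2⟩
      refine ⟨max C1 C2, ?_⟩
      rintro z (hz | hz) hzB
      · exact (h1 z hz hzB).trans (le_max_left _ _)
      · exact (h2 z hz hzB).trans (le_max_right _ _)
    · intro z₀ _
      obtain ⟨C, hC⟩ := hloc2 z₀
      exact ⟨{w | w ∉ B → ‖φ w‖ * cd.size (γ w) ≤ C}, mem_nhdsWithin_of_mem_nhds hC,
        C, fun z hz => hz⟩
  obtain ⟨C, hC⟩ := hcomp
  exact ⟨C, fun z hz => hC z (Metric.ball_subset_closedBall hz)⟩

end Pool.Agent.CampanaFlow
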