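import Mathlib

/-! PIECE W2: interpolation by entire functions at the natural numbers. -/

set_option autoImplicit false

open Filter Topology

namespace Pool.Agent.CampanaFlow

private theorem interp_step (n : ℕ) (w : ℂ) : ∃ g : ℂ → ℂ, Differentiable ℂ g ∧
    (∀ j : ℕ, j < n → g j = 0) ∧ g n = w ∧
    (1 ≤ n → ∀ z : ℂ, ‖z‖ ≤ (n : ℝ) / 2 → ‖g z‖ ≤ (1 / 2 : ℝ) ^ n) := by
  rcases Nat.eq_zero_or_pos n with h0 | hn
  · subst h0
    exact ⟨fun _ => w, differentiable_const w, fun j hj => absurd hj (Nat.not_lt_zero j), rfl,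
      fun h => absurd h (by norm_num)⟩
  have hn0 : (n : ℂ) ≠ 0 := by exact_mod_cast hn.ne'
  have hnR : (0 : ℝ) < n := by exact_mod_cast hn
  set P : ℂ → ℂ := fun z => ∏ j ∈ Finset.range n, (z - j) with hP
  have hPn : P n ≠ 0 := by
    rw [hP]
    apply Finset.prod_ne_zero_iff.2
    intro j hj
    rw [Finset.mem_range] at hj
    rw [sub_ne_zero]
    exact_mod_cast hj.ne'
  set c : ℂ := w / P n with hc
  set A : ℝ := ‖c‖ * (2 * n) ^ n + 1 with hA
  have hA0 : 0 < A := by positivity
  obtain ⟨M, hM⟩ := exists_pow_lt_of_lt_one (show (0 : ℝ) < (1 / 2) ^ n / A by positivity)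
    (show (1 / 2 : ℝ) < 1 by norm_num)
  refine ⟨fun z => c * P z * (z / n) ^ M, ?_, ?_, ?_, ?_⟩
  · have hPd : Differentiable ℂ P := by
      rw [hP]
      fun_prop
    fun_prop
  · intro j hj
    have : P j = 0 := by
      rw [hP]
      exact Finset.prod_eq_zero (Finset.mem_range.2 hj) (sub_self _)
    simp only [this]
    ring
  · simp only
    rw [div_self hn0, one_pow, mul_one, hc, div_mul_cancel₀ _ hPn]
  · intro _ z hz
    have hPz : ‖P z‖ ≤ (2 * n) ^ n := by
      rw [hP]
      simp only
      rw [norm_prod]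
      calc ∏ j ∈ Finset.range n, ‖z - j‖ ≤ ∏ _j ∈ Finset.range n, (2 * n : ℝ) := by
            apply Finset.prod_le_prod
            · intro j _
              exact norm_nonneg _
            · intro j hj
              rw [Finset.mem_range] at hj
              have hj' : (j : ℝ) ≤ n := by exact_mod_cast hj.le
              calc ‖z - j‖ ≤ ‖z‖ + ‖(j : ℂ)‖ := norm_sub_le _ _
                _ = ‖z‖ + j := by rw [Complex.norm_natCast]
                _ ≤ 2 * n := by linarith
        _ = (2 * n : ℝ) ^ n := by simp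
    have hzn : ‖z / n‖ ≤ 1 / 2 := by
      rw [norm_div, Complex.norm_natCast, div_le_iff₀ hnR]
      linarith
    calc ‖c * P z * (z / n) ^ M‖ = ‖c‖ * ‖P z‖ * ‖z / n‖ ^ M := by
          rw [norm_mul, norm_mul, norm_pow]
      _ ≤ ‖c‖ * (2 * n) ^ n * (1 / 2) ^ M := by
          apply mul_le_mul (mul_le_mul_of_nonneg_left hPz (norm_nonneg _))
            (pow_le_pow_left₀ (norm_nonneg _) hzn _) (by positivity) (by positivity)
      _ ≤ A * ((1 / 2) ^ n / A) := by
          apply mul_le_mul _ hM.le (by positivity) hA0.le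
          rw [hA]
          linarith
      _ = (1 / 2) ^ n := by field_simp

/-- `ψ z = ∑_n c_n (∏_{j<n} (z - j)) (z / n)^{M_n}` (factor `1` for `n = 0`), where `c_n` is chosen
recursively so that `ψ n = v n` (the `n`-th factor at `z = n` is `n! ≠ 0` and the later terms vanish at
`n`), and then `M_n ≥ n` so large that the `n`-th term is at most `2^{-n}` for `‖z‖ ≤ n / 2`
(there it is at most `‖c_n‖ (2n)^n 2^{-M_n}`). Locally uniform convergence. -/
theorem interp_nat (v : ℕ → ℂ) : ∃ ψ : ℂ → ℂ, Differentiable ℂ ψ ∧ ∀ n : ℕ, ψ n = v n := by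
  choose G hG1 hG2 hG3 hG4 using interp_step
  set s : ℕ → ℂ → ℂ := fun n => Nat.rec (fun _ => 0) (fun k f z => f z + G k (v k - f k) z) n with hs
  have hs0 : ∀ z, s 0 z = 0 := fun z => rfl
  have hsS : ∀ n z, s (n + 1) z = s n z + G n (v n - s n n) z := fun n z => rfl
  set g : ℕ → ℂ → ℂ := fun n => G n (v n - s n n) with hg
  have hsum : ∀ n z, s n z = ∑ k ∈ Finset.range n, g k z := by
    intro n z
    induction n with
    | zero => simp [hs0]
    | succ n ih => rw [hsS, ih, Finset.sum_range_succ]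
  have hgd : ∀ k, Differentiable ℂ (g k) := fun k => hG1 k _
  have hgj : ∀ k j : ℕ, j < k → g k j = 0 := fun k j hj => hG2 k _ j hj
  have hgn : ∀ k : ℕ, g k k = v k - s k k := fun k => hG3 k _
  have hgb : ∀ k : ℕ, 1 ≤ k → ∀ z : ℂ, ‖z‖ ≤ (k : ℝ) / 2 → ‖g k z‖ ≤ (1 / 2 : ℝ) ^ k :=
    fun k hk z hz => hG4 k _ hk z hz
  refine ⟨fun z => ∑' k, g k z, ?_, ?_⟩
  · intro z
    set R : ℝ := ‖z‖ + 1 with hR
    have hR0 : 0 < R := by positivity
    obtain ⟨N, hN⟩ := exists_nat_ge (2 * R)
    have hbd : ∀ k, ∃ C : ℝ, ∀ x ∈ Metric.closedBall (0 : ℂ) R, ‖g k x‖ ≤ C := fun k =>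
      (isCompact_closedBall (0 : ℂ) R).exists_bound_of_continuousOn (hgd k).continuous.continuousOn
    choose C hC using hbd
    have hN1 : 1 ≤ N := by
      rcases Nat.eq_zero_or_pos N with h | h
      · subst h
        simp only [Nat.cast_zero] at hN
        linarith
      · exact h
    have hu : Summable (fun k => if N ≤ k then (1 / 2 : ℝ) ^ k else C k) := by
      apply (summable_nat_add_iff N).1
      have : (fun k => if N ≤ k + N then (1 / 2 : ℝ) ^ (k + N) else C (k + N)) =
          fun k => (1 / 2 : ℝ) ^ (k + N) := by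
        funext k
        rw [if_pos (Nat.le_add_left _ _)]
      rw [this]
      exact (summable_nat_add_iff N).2 summable_geometric_two
    have hd := Complex.differentiableOn_tsum_of_summable_norm (U := Metric.ball (0 : ℂ) R) hu
      (fun k => (hgd k).differentiableOn) Metric.isOpen_ball (fun k x hx => by
        have hx' : ‖x‖ < R := by simpa using hx
        split_ifs with h
        · apply hgb k (hN1.trans h) x
          have : (N : ℝ) ≤ k := by exact_mod_cast h
          linarith
        · exact hC k x (Metric.ball_subset_closedBall hx))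
    exact (hd z (by simp [hR])).differentiableAt (Metric.isOpen_ball.mem_nhds (by simp [hR]))
  · intro n
    have h1 : ∑' k, g k n = ∑ k ∈ Finset.range (n + 1), g k n := by
      apply tsum_eq_sum
      intro k hk
      rw [Finset.mem_range, not_lt] at hk
      exact hgj k n (by omega)
    simp only
    rw [h1, Finset.sum_range_succ, ← hsum, hgn]
    ring

end Pool.Agent.CampanaFlow
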