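import Pool.Agent.Lib_MP_1209e6_fl.W1
import Pool.Agent.Lib_MP_1209e6_fl.W2

/-! PIECE W3: interpolation with zeros of high order. -/

set_option autoImplicit false

open Filter Topology

namespace Pool.Agent.CampanaFlow

/-- `φ = E ψ` with `E` from `weierstrass` (order `m z` on `B`, `0` elsewhere, so `E n ≠ 0`) and
`ψ n = v n / E n`. -/
theorem interp (B : Set ℂ) (hB : ∀ z, ∀ᶠ w in 𝓝[≠] z, w ∉ B) (hn : ∀ n : ℕ, (n : ℂ) ∉ B)
    (m : ℂ → ℕ) (v : ℕ → ℂ) :
    ∃ φ : ℂ → ℂ, Differentiable ℂ φ ∧ (∀ n : ℕ, φ n = v n) ∧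
      ∀ b ∈ B, (m b : ℕ∞) ≤ analyticOrderAt φ b := by
  classical
  obtain ⟨E, hE, hEo⟩ := weierstrass (fun z => if z ∈ B then m z else 0) (fun z => by
    filter_upwards [hB z] with w hw
    simp [hw])
  obtain ⟨ψ, hψ, hψv⟩ := interp_nat (fun n => v n / E n)
  refine ⟨fun z => E z * ψ z, hE.mul hψ, fun n => ?_, fun b hb => ?_⟩
  · have h0 : E n ≠ 0 := by
      have h := hEo n
      rw [if_neg (hn n)] at h
      exact ((hE.analyticAt (n : ℂ)).analyticOrderAt_eq_zero).1 (by simpa using h)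
    show E n * ψ n = v n
    rw [hψv n]
    field_simp
  · have h := analyticOrderAt_mul (hE.analyticAt b) (hψ.analyticAt b)
    have h1 := hEo b
    rw [if_pos hb] at h1
    have h2 : analyticOrderAt (fun z => E z * ψ z) b = analyticOrderAt E b + analyticOrderAt ψ b := h
    rw [h2, h1]
    exact le_self_add

end Pool.Agent.CampanaFlow
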