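import Pool.Agent.Lib_MP_1209e6_fl.C5
import Pool.Agent.Lib_MP_1209e6_fl.C6
import Pool.Agent.Lib_MP_1209e6_fl.C7
import Pool.Agent.Lib_MP_1209e6_fl.W3

/-! PIECE C8: the flow of a curve, with prescribed times at the natural numbers. -/

set_option autoImplicit false

open Filter Topology

namespace Pool.Agent.CampanaFlow

variable {S : Type} [CommRing S] [Algebra ℂ S] {D : Derivation ℂ S S}

/-- `m` from `ChartData.damp`, `φ` from `interp` (values `v n` at `n`, order `≥ m b` at `b ∈ B`). For each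
`n : ℕ` let `C_n` be the bound on `ball 0 (n+1)` and `M_n ≥ 1` with `C_n ≤ M_n / 4`; `mstep` gives
`γ_n, B_n`. Near `0`: `‖γ z g‖ ≤ M + 1` for `g ∈ G` (continuity at `0 ∉ B`), `‖φ z‖ < ρ` and `z ∉ B`, so
`hρ` gives `q` with `IsFlow D (γ z) (φ z) q` and `γ_n z = q` for every `n`: the curves agree near `0` and
`0 ∉ B_n`. `glue`; at the point `k ∈ ℕ`, for all `n` with `k < n + 1`, `mstep` gives `k ∉ B_n` and
`γ_n k = q_k`, where `IsFlow D (γ k) (v k) q_k` (`hρ`). -/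
theorem flow_curve (cd : ChartData D) (G : Finset S) (M ρ : ℝ)
    (hρ : ∀ q : S →ₐ[ℂ] ℂ, (∀ g ∈ G, ‖q g‖ ≤ M + 1) → ∀ t : ℂ, ‖t‖ ≤ ρ → ∃ q', IsFlow D q t q')
    {γ : ℂ → S →ₐ[ℂ] ℂ} {B : Set ℂ} (hγ : IsCurve Set.univ γ B) (hB : ∀ n : ℕ, (n : ℂ) ∉ B)
    (hM : ∀ n : ℕ, ∀ g ∈ G, ‖γ n g‖ ≤ M) (v : ℕ → ℂ) (hv : ∀ n, ‖v n‖ < ρ) :
    ∃ (γ' : ℂ → S →ₐ[ℂ] ℂ) (B' : Set ℂ), IsCurve Set.univ γ' B' ∧ (∀ n : ℕ, (n : ℂ) ∉ B') ∧
      ∀ n : ℕ, IsFlow D (γ n) (v n) (γ' n) := by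
  obtain ⟨m, hdamp⟩ := cd.damp hγ
  obtain ⟨φ, hφ, hφv, hφm⟩ := interp B (fun z => hγ.disc z (Set.mem_univ z)) hB m v
  have h0 : (0 : ℂ) ∉ B := by
    have h := hB 0
    rwa [Nat.cast_zero] at h
  have hφ0 : φ 0 = v 0 := by
    have h := hφv 0
    rwa [Nat.cast_zero] at h
  have hM0 : ∀ g ∈ G, ‖γ 0 g‖ ≤ M := by
    intro g hg
    have h := hM 0 g hg
    rwa [Nat.cast_zero] at h
  have hq0 : ∃ q, IsFlow D (γ 0) (φ 0) q := by
    refine hρ (γ 0) (fun g hg => (hM0 g hg).trans (by linarith)) (φ 0) ?_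
    rw [hφ0]
    exact (hv 0).le
  have hball : ∀ R : ℝ, IsCurve (Metric.ball 0 R) γ B := fun R =>
    ⟨fun z _ => hγ.disc z (Set.mem_univ z), fun f z _ => hγ.ana f z (Set.mem_univ z),
      fun f z _ => hγ.mer f z (Set.mem_univ z)⟩
  have hex : ∀ n : ℕ, ∃ (γ' : ℂ → S →ₐ[ℂ] ℂ) (B' : Set ℂ),
      IsCurve (Metric.ball 0 ((n : ℝ) + 1)) γ' B' ∧ B ⊆ B' ∧
      ∀ z ∈ Metric.ball (0 : ℂ) ((n : ℝ) + 1), z ∉ B → ∀ q, IsFlow D (γ z) (φ z) q →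
        z ∉ B' ∧ γ' z = q := by
    intro n
    obtain ⟨C, hC⟩ := hdamp φ hφ hφm ((n : ℝ) + 1)
    obtain ⟨k, hk⟩ := exists_nat_ge (4 * C)
    refine mstep (by positivity) (hball _) cd φ hφ (k + 1) (Nat.succ_pos k) ?_ h0 hq0
    intro z hz hzB
    refine (hC z hz hzB).trans ?_
    push_cast
    linarith
  choose γn Bn hcurve _ hflow using hex
  have hnear : ∀ᶠ w in 𝓝 (0 : ℂ), ∃ q, ∀ n : ℕ, w ∉ Bn n ∧ γn n w = q := by
    have e1 : ∀ᶠ w in 𝓝 (0 : ℂ), w ∉ B := by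
      have h := hγ.disc 0 (Set.mem_univ _)
      rw [eventually_nhdsWithin_iff] at h
      filter_upwards [h] with w hw
      by_cases hw0 : w = 0
      · rw [hw0]
        exact h0
      · exact hw hw0
    have e2 : ∀ᶠ w in 𝓝 (0 : ℂ), ∀ g ∈ G, ‖γ w g‖ ≤ M + 1 := by
      rw [Filter.eventually_all_finset]
      intro g hg
      have hc : ContinuousAt (fun w => ‖γ w g‖) 0 := (hγ.ana g 0 (Set.mem_univ _) h0).continuousAt.norm
      have h : ∀ᶠ w in 𝓝 (0 : ℂ), ‖γ w g‖ < M + 1 :=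
        hc.eventually_lt_const (lt_of_le_of_lt (hM0 g hg) (by linarith))
      exact h.mono fun w hw => hw.le
    have e3 : ∀ᶠ w in 𝓝 (0 : ℂ), ‖φ w‖ < ρ := by
      have hc : ContinuousAt (fun w => ‖φ w‖) 0 := hφ.continuous.norm.continuousAt
      refine hc.eventually_lt_const ?_
      show ‖φ 0‖ < ρ
      rw [hφ0]
      exact hv 0
    have e4 : ∀ᶠ w in 𝓝 (0 : ℂ), w ∈ Metric.ball (0 : ℂ) 1 := Metric.ball_mem_nhds 0 one_pos
    filter_upwards [e1, e2, e3, e4] with w h1 h2 h3 h4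
    obtain ⟨q, hq⟩ := hρ (γ w) h2 (φ w) h3.le
    refine ⟨q, fun n => hflow n w ?_ h1 q hq⟩
    refine Metric.ball_subset_ball ?_ h4
    have : (0 : ℝ) ≤ n := Nat.cast_nonneg n
    linarith
  have h0' : ∀ n, (0 : ℂ) ∉ Bn n := by
    obtain ⟨q, hq⟩ := hnear.self_of_nhds
    exact fun n => (hq n).1
  have he : ∀ n m, ∀ᶠ w in 𝓝 (0 : ℂ), γn n w = γn m w := by
    intro n m
    filter_upwards [hnear] with w hw
    obtain ⟨q, hq⟩ := hw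
    rw [(hq n).2, (hq m).2]
  obtain ⟨γ', B', hc', hglue⟩ := glue γn Bn hcurve h0' he
  have hfin : ∀ k : ℕ, (k : ℂ) ∉ B' ∧ IsFlow D (γ k) (v k) (γ' k) := by
    intro k
    obtain ⟨q, hq⟩ := hρ (γ k) (fun g hg => (hM k g hg).trans (by linarith)) (v k) (hv k).le
    have h1 := hglue (k : ℂ) q (fun n hn => hflow n k (mem_ball_zero_iff.2 hn) (hB k) q
      (by rw [hφv k]; exact hq))
    refine ⟨h1.1, ?_⟩
    rw [h1.2]
    exact hq
  exact ⟨γ', B', hc', fun n => (hfin n).1, fun n => (hfin n).2⟩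

end Pool.Agent.CampanaFlow
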