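import Pool.Agent.Lib_MP_1209e6_fl.F1
import Pool.Agent.Lib_MP_1209e6_fl.F3

/-! PIECE F4: uniform time of existence of the flows on a finitely generated algebra. -/

set_option autoImplicit false

open Filter Topology

namespace Pool.Agent.CampanaFlow

variable {S : Type} [CommRing S] [Algebra ℂ S]

/-- Write `D g = P_g (G)` with `P_g ∈ MvPolynomial G ℂ` (`Algebra.adjoin_range_eq_range_aeval`), apply
`grow` with `dg = 1`, `w = max M 1 =: w`, `δ = ∑ totalDegree`, `A = ∑_g ν (P_g)`: for all `g ∈ G`,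
`‖q (D^n g)‖ ≤ w n! C^n`, `C = (1+δ) A`. Take `ρ = 1 / (2 (C + 1) (w + 1))`... any `ρ > 0` with
`ρ C ≤ 1/2` and `w ∑_{n≥1} (ρ C)^n ≤ 1`, e.g. `ρ = 1/(2 (w+1)(C+1))`: the series of `g` converges
absolutely and `‖q' g - q g‖ ≤ w ∑_{n ≥ 1} (ρ C)^n ≤ 2 w ρ C ≤ 1`. `conv_adjoin`, `exists_isFlow`. -/
theorem unif_radius (D : Derivation ℂ S S) (G : Finset S)
    (hG : Algebra.adjoin ℂ (G : Set S) = ⊤) (M : ℝ) :
    ∃ ρ : ℝ, 0 < ρ ∧ ∀ q : S →ₐ[ℂ] ℂ, (∀ g ∈ G, ‖q g‖ ≤ M) → ∀ t : ℂ, ‖t‖ ≤ ρ →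
      ∃ q' : S →ₐ[ℂ] ℂ, IsFlow D q t q' ∧ ∀ g ∈ G, ‖q' g‖ ≤ M + 1 := by
  classical
  have hrange : Set.range (Subtype.val : {x // x ∈ G} → S) = (G : Set S) := by
    ext x; simp
  have hex : ∀ g : {x // x ∈ G}, ∃ p : MvPolynomial {x // x ∈ G} ℂ,
      D (g : S) = MvPolynomial.aeval (Subtype.val : {x // x ∈ G} → S) p := by
    intro g
    have h1 : D (g : S) ∈ Algebra.adjoin ℂ (Set.range (Subtype.val : {x // x ∈ G} → S)) := by
      rw [hrange, hG]; trivial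
    rw [Algebra.adjoin_range_eq_range_aeval] at h1
    obtain ⟨p, hp⟩ := h1
    exact ⟨p, hp.symm⟩
  choose P hP using hex
  obtain ⟨W, hW⟩ : ∃ W : ℝ, W = max M 1 := ⟨_, rfl⟩
  have hW1 : 1 ≤ W := hW ▸ le_max_right _ _
  have hWM : M ≤ W := hW ▸ le_max_left _ _
  obtain ⟨δ, hδ⟩ : ∃ δ : ℕ, δ = ∑ i, (P i).totalDegree := ⟨_, rfl⟩
  obtain ⟨A, hA⟩ : ∃ A : ℝ, A = ∑ i, ∑ s ∈ (P i).support,
      ‖(P i).coeff s‖ * ∏ j : {x // x ∈ G}, W ^ s j := ⟨_, rfl⟩
  have hpos : ∀ i, 0 ≤ ∑ s ∈ (P i).support, ‖(P i).coeff s‖ * ∏ j : {x // x ∈ G}, W ^ s j := by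
    intro i
    refine Finset.sum_nonneg fun s _ => mul_nonneg (norm_nonneg _) (Finset.prod_nonneg fun j _ => ?_)
    exact pow_nonneg (by linarith) _
  have hA0 : 0 ≤ A := hA ▸ Finset.sum_nonneg fun i _ => hpos i
  obtain ⟨C, hC⟩ : ∃ C : ℝ, C = (1 + δ) * A := ⟨_, rfl⟩
  have hC0 : 0 ≤ C := hC ▸ mul_nonneg (by positivity) hA0
  have hgrow : ∀ q : S →ₐ[ℂ] ℂ, (∀ g ∈ G, ‖q g‖ ≤ M) → ∀ g ∈ G, ∀ n : ℕ,
      ‖q (D^[n] g)‖ ≤ W * n.factorial * C ^ n := by
    intro q hq g hg n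
    have := grow (Subtype.val : {x // x ∈ G} → S) D P hP (fun _ => 1)
      (fun i h => absurd h one_ne_zero) (fun _ => le_refl 1) δ ?_ q (fun _ => W) ?_ ?_ A ?_ n ⟨g, hg⟩
    · simpa [hC] using this
    · intro i s hs
      have h1 := MvPolynomial.le_totalDegree hs
      rw [Finsupp.sum_fintype _ _ (fun _ => rfl)] at h1
      have h2 : (P i).totalDegree ≤ δ := by
        rw [hδ]
        exact Finset.single_le_sum (f := fun i => (P i).totalDegree) (fun _ _ => Nat.zero_le _)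
          (Finset.mem_univ i)
      simp only [mul_one]
      omega
    · intro i
      exact (hq _ i.2).trans hWM
    · intro _ _
      exact hW1
    · intro i
      rw [hA]
      exact Finset.single_le_sum (f := fun i => ∑ s ∈ (P i).support,
        ‖(P i).coeff s‖ * ∏ j : {x // x ∈ G}, W ^ s j) (fun i _ => hpos i) (Finset.mem_univ i)
  have hden : 0 < 2 * (W + 1) * (C + 1) := by positivity
  refine ⟨1 / (2 * (W + 1) * (C + 1)), by positivity, fun q hq t ht => ?_⟩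
  obtain ⟨x, hx⟩ : ∃ x : ℝ, x = C * ‖t‖ := ⟨_, rfl⟩
  have hx0 : 0 ≤ x := hx ▸ mul_nonneg hC0 (norm_nonneg _)
  have hxle : x * (2 * (W + 1)) ≤ 1 := by
    have h1 : ‖t‖ * (2 * (W + 1) * (C + 1)) ≤ 1 := by
      rwa [le_div_iff₀ hden] at ht
    have h2 : 0 ≤ ‖t‖ * (2 * (W + 1)) := by positivity
    rw [hx]
    nlinarith
  have hx2 : x ≤ 1 / 2 := by nlinarith
  have hxW : W * x ≤ 1 / 2 := by nlinarith
  have hterm : ∀ g ∈ G, ∀ n : ℕ, ‖tc D q g n‖ * ‖t‖ ^ n ≤ W * x ^ n := by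
    intro g hg n
    have h1 := hgrow q hq g hg n
    have hf : (0 : ℝ) < n.factorial := by positivity
    have h2 : ‖tc D q g n‖ ≤ W * C ^ n := by
      unfold tc
      rw [norm_div, Complex.norm_natCast, div_le_iff₀ hf]
      nlinarith
    calc ‖tc D q g n‖ * ‖t‖ ^ n ≤ W * C ^ n * ‖t‖ ^ n :=
          mul_le_mul_of_nonneg_right h2 (by positivity)
      _ = W * x ^ n := by rw [hx, mul_pow]; ring
  have hsum : Summable fun n : ℕ => W * x ^ n :=
    (summable_geometric_of_lt_one hx0 (by linarith)).mul_left W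
  have hconv : ∀ g ∈ G, Conv D q t g := fun g hg =>
    Summable.of_nonneg_of_le (fun n => by positivity) (hterm g hg) hsum
  have hall : ∀ f, Conv D q t f := fun f =>
    conv_adjoin (s := (G : Set S)) (fun g hg => hconv g hg) f (by rw [hG]; trivial)
  obtain ⟨q', hq'⟩ := exists_isFlow hall
  refine ⟨q', hq', fun g hg => ?_⟩
  rw [(hq' g).2]
  have hs : Summable fun n : ℕ => tc D q g n * t ^ n := by
    refine Summable.of_norm ?_
    have := hconv g hg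
    unfold Conv at this
    simpa [norm_mul, norm_pow] using this
  have hev : ev D q t g = q g + ∑' n : ℕ, tc D q g (n + 1) * t ^ (n + 1) := by
    unfold ev
    rw [hs.tsum_eq_zero_add]
    simp [tc]
  rw [hev]
  have hs1 : Summable fun n : ℕ => W * x ^ (n + 1) := by
    have := hsum.comp_injective (add_left_injective 1)
    simpa [Function.comp_def] using this
  have htail : ‖∑' n : ℕ, tc D q g (n + 1) * t ^ (n + 1)‖ ≤ ∑' n : ℕ, W * x ^ (n + 1) := by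
    refine tsum_of_norm_bounded hs1.hasSum fun n => ?_
    rw [norm_mul, norm_pow]
    exact hterm g hg (n + 1)
  have hgeo : ∑' n : ℕ, W * x ^ (n + 1) = W * x * (1 - x)⁻¹ := by
    rw [← tsum_geometric_of_lt_one hx0 (by linarith), ← tsum_mul_left]
    refine tsum_congr fun n => ?_
    rw [pow_succ]; ring
  have hfin : W * x * (1 - x)⁻¹ ≤ 1 := by
    rw [← div_eq_mul_inv, div_le_one (by linarith)]
    linarith
  calc ‖q g + ∑' n : ℕ, tc D q g (n + 1) * t ^ (n + 1)‖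
      ≤ ‖q g‖ + ‖∑' n : ℕ, tc D q g (n + 1) * t ^ (n + 1)‖ := norm_add_le _ _
    _ ≤ M + 1 := add_le_add (hq g hg) (htail.trans (hgeo ▸ hfin))

end Pool.Agent.CampanaFlow
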