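import Pool.Agent.Lib_MP_1209e6_fl.C8
import Pool.Agent.Lib_MP_1209e6_fl.F4

/-! PIECE C9: iterated flows starting from a constant curve. -/

set_option autoImplicit false

open Filter Topology

namespace Pool.Agent.CampanaFlow

variable {S : Type} [CommRing S] [Algebra ℂ S]

/-- Induction on `l`. `[]`: `γ = p` constant, `B = ∅`, `M` a bound for `‖p g‖`, `ρ = 1`. `i :: l`: `ρ₁, M₁`
from the induction hypothesis; `unif_radius (d i) G hG (M₁ + 1)` gives `ρ₂`; take `ρ = min ρ₁ ρ₂`,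
`M = M₁ + 2`. For `T`, write `T n = t_n :: ts_n`, apply the induction hypothesis to `ts` and `flow_curve`
with `v n = t_n`; `γ' n` is the flow of `γ n`, so it is the one of `unif_radius` (`IsFlow.unique`) and is
bounded by `M₁ + 2` on `G`. -/
theorem exists_curve {ι : Type} (d : ι → Derivation ℂ S S) (cd : ∀ i, ChartData (d i))
    (G : Finset S) (hG : Algebra.adjoin ℂ (G : Set S) = ⊤) (p : S →ₐ[ℂ] ℂ) (l : List ι) :
    ∃ ρ M : ℝ, 0 < ρ ∧ ∀ T : ℕ → List ℂ, (∀ n, (T n).length = l.length) →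
      (∀ n, ∀ t ∈ T n, ‖t‖ < ρ) →
      ∃ (γ : ℂ → S →ₐ[ℂ] ℂ) (B : Set ℂ), IsCurve Set.univ γ B ∧ (∀ n : ℕ, (n : ℂ) ∉ B) ∧
        (∀ n : ℕ, ∀ g ∈ G, ‖γ n g‖ ≤ M) ∧ ∀ n : ℕ, FlowsTo d p l (T n) (γ n) := by
  induction l with
  | nil =>
    refine ⟨1, ∑ g ∈ G, ‖p g‖, one_pos, fun T hT _ => ?_⟩
    refine ⟨fun _ => p, ∅, ⟨?_, ?_, ?_⟩, ?_, ?_, ?_⟩
    · intro z _
      exact Filter.Eventually.of_forall fun w => Set.notMem_empty w
    · intro f z _ _
      exact analyticAt_const
    · intro f z _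
      exact analyticAt_const.meromorphicAt
    · intro n
      exact Set.notMem_empty _
    · intro n g hg
      exact Finset.single_le_sum (f := fun g => ‖p g‖) (fun _ _ => norm_nonneg _) hg
    · intro n
      have h := hT n
      rw [List.length_nil, List.length_eq_zero_iff] at h
      rw [h]
      show p = p
      rfl
  | cons i l ih =>
    obtain ⟨ρ₁, M₁, hρ₁, H⟩ := ih
    obtain ⟨ρ₂, hρ₂, H2⟩ := unif_radius (d i) G hG (M₁ + 1)
    refine ⟨min ρ₁ ρ₂, M₁ + 2, lt_min hρ₁ hρ₂, fun T hT hTρ => ?_⟩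
    have hne : ∀ n, ∃ (t : ℂ) (ts : List ℂ), T n = t :: ts := by
      intro n
      cases h : T n with
      | nil =>
        have h1 := hT n
        rw [h] at h1
        simp at h1
      | cons t ts => exact ⟨t, ts, rfl⟩
    choose t ts hts using hne
    have hlen : ∀ n, (ts n).length = l.length := by
      intro n
      have h1 := hT n
      rw [hts n, List.length_cons, List.length_cons] at h1
      omega
    have hsm : ∀ n, ∀ s ∈ ts n, ‖s‖ < ρ₁ := by
      intro n s hs
      have h1 := hTρ n s (by rw [hts n]; exact List.mem_cons_of_mem _ hs)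
      exact lt_of_lt_of_le h1 (min_le_left _ _)
    have ht : ∀ n, ‖t n‖ < ρ₂ := by
      intro n
      have h1 := hTρ n (t n) (by rw [hts n]; exact List.mem_cons_self)
      exact lt_of_lt_of_le h1 (min_le_right _ _)
    obtain ⟨γ, B, hγ, hB, hM, hF⟩ := H ts hlen hsm
    obtain ⟨γ', B', hγ', hB', hfl⟩ := flow_curve (cd i) G M₁ ρ₂
      (fun q hq s hs => by
        obtain ⟨q', hq', _⟩ := H2 q hq s hs
        exact ⟨q', hq'⟩) hγ hB hM t ht
    refine ⟨γ', B', hγ', hB', ?_, ?_⟩
    · intro n g hg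
      obtain ⟨q', hq', hb⟩ := H2 (γ n) (fun g hg => (hM n g hg).trans (by linarith)) (t n) (ht n).le
      have he : γ' n = q' := (hfl n).unique hq'
      rw [he]
      have h1 := hb g hg
      linarith
    · intro n
      rw [hts n]
      exact ⟨γ n, hF n, hfl n⟩

end Pool.Agent.CampanaFlow
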