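import Pool.Agent.Lib_MP_1209e6_fl.Defs

/-! PIECE D1: generalised Wronskians. -/

set_option autoImplicit false

namespace Pool.Agent.CampanaFlow

open scoped Classical in
theorem wronskian_rel {K ι : Type} [Field K] [Algebra ℂ K] (D : ι → Derivation ℂ K K)
    (hc : ∀ u, (∀ i, D i u = 0) → ∃ c : ℂ, u = algebraMap ℂ K c) {s : ℕ} (r : Fin s → K)
    (hr : LinearIndependent ℂ r) : ∀ (n : ℕ) (c : Fin s → K),
    (Finset.univ.filter fun b => c b ≠ 0).card ≤ n →
    (∀ w : List ι, ∑ b, c b * word D w (r b) = 0) → c = 0 := by
  intro n
  induction n with
  | zero =>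
    intro c hcard _
    funext b
    by_contra hb
    have : b ∈ (Finset.univ.filter fun b => c b ≠ 0) := by
      rw [Finset.mem_filter]
      exact ⟨Finset.mem_univ _, hb⟩
    have h2 := Finset.card_pos.2 ⟨b, this⟩
    omega
  | succ n ih =>
    intro c hcard hrel
    by_contra hne
    obtain ⟨b₀, hb₀⟩ := Function.ne_iff.1 hne
    have hb₀' : c b₀ ≠ 0 := hb₀
    set c' : Fin s → K := fun b => c b / c b₀ with hc'
    have hc'1 : c' b₀ = 1 := by
      rw [hc']
      exact div_self hb₀'
    have hrel' : ∀ w : List ι, ∑ b, c' b * word D w (r b) = 0 := by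
      intro w
      have : ∑ b, c' b * word D w (r b) = (∑ b, c b * word D w (r b)) / c b₀ := by
        rw [Finset.sum_div]
        refine Finset.sum_congr rfl fun b _ => ?_
        rw [hc']
        ring
      rw [this, hrel w, zero_div]
    have hD : ∀ i, (fun b => D i (c' b)) = 0 := by
      intro i
      apply ih
      · have hsub : (Finset.univ.filter fun b => D i (c' b) ≠ 0) ⊆
            (Finset.univ.filter fun b => c b ≠ 0).erase b₀ := by
          intro b hb
          rw [Finset.mem_filter] at hb
          rw [Finset.mem_erase, Finset.mem_filter]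
          refine ⟨?_, Finset.mem_univ _, ?_⟩
          · rintro rfl
            apply hb.2
            rw [hc'1, Derivation.map_one_eq_zero]
          · intro h0
            apply hb.2
            have : c' b = 0 := by
              simp only [hc', h0, zero_div]
            rw [this, map_zero]
        have h1 := Finset.card_le_card hsub
        have h2 : b₀ ∈ (Finset.univ.filter fun b => c b ≠ 0) := by
          rw [Finset.mem_filter]
          exact ⟨Finset.mem_univ _, hb₀'⟩
        rw [Finset.card_erase_of_mem h2] at h1
        omega
      · intro w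
        have h1 := congrArg (D i) (hrel' w)
        rw [map_sum, map_zero] at h1
        have h2 := hrel' (i :: w)
        have h3 : ∑ b, D i (c' b * word D w (r b)) =
            ∑ b, c' b * word D (i :: w) (r b) + ∑ b, D i (c' b) * word D w (r b) := by
          rw [← Finset.sum_add_distrib]
          refine Finset.sum_congr rfl fun b _ => ?_
          rw [Derivation.leibniz]
          simp only [smul_eq_mul, word]
          ring
        rw [h3, h2, zero_add] at h1
        exact h1
    have hconst : ∀ b, ∃ g : ℂ, c' b = algebraMap ℂ K g := by
      intro b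
      apply hc
      intro i
      exact congrFun (hD i) b
    choose g hg using hconst
    have hg0 : ∀ b, g b = 0 := by
      have h1 := hrel' []
      have h2 : ∑ b, g b • r b = 0 := by
        rw [← h1]
        refine Finset.sum_congr rfl fun b _ => ?_
        rw [hg b, Algebra.smul_def]
        rfl
      exact Fintype.linearIndependent_iff.1 hr g h2
    have h3 := hg b₀
    rw [hg0 b₀, map_zero, hc'1] at h3
    exact one_ne_zero h3

/-- Let `V ⊆ K^s` be the `K`-span of the vectors `(word D w (r b))_b`, `w` a word. If `V = K^s` then some
`s` of these vectors form a basis and the determinant is nonzero. Otherwise there is a nonzero `c ∈ K^s`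
with `∑_b c_b word D w (r b) = 0` for all `w`; choose one with the smallest number of nonzero entries and
one entry equal to `1`. Applying `D i` to the relation of `w` and subtracting the relation of `i :: w`
gives `∑_b D i (c_b) word D w (r b) = 0` for all `w`: the vector `(D i c_b)` has fewer nonzero entries, so
it is zero for all `i`, and all `c_b` are constants, in `ℂ`. The relation for `w = []` contradicts the
linear independence of `r`. -/
theorem wronskian {K ι : Type} [Field K] [Algebra ℂ K] (D : ι → Derivation ℂ K K)
    (hc : ∀ u, (∀ i, D i u = 0) → ∃ c : ℂ, u = algebraMap ℂ K c) {s : ℕ} (r : Fin s → K)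
    (hr : LinearIndependent ℂ r) :
    ∃ w : Fin s → List ι, (Matrix.of fun a b => word D (w a) (r b)).det ≠ 0 := by
  classical
  set V : Set (Fin s → K) := Set.range fun w : List ι => fun b => word D w (r b) with hV
  have hspan : Submodule.span K V = ⊤ := by
    by_contra hne
    obtain ⟨f, hf0, hf⟩ := Submodule.exists_le_ker_of_lt_top _ (lt_top_iff_ne_top.2 hne)
    have hfv : ∀ v : Fin s → K, f v = ∑ b, f (Pi.single b 1) * v b := by
      intro v
      conv_lhs => rw [← Finset.univ_sum_single v, map_sum]
      refine Finset.sum_congr rfl fun b _ => ?_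
      have : Pi.single b (v b) = v b • (Pi.single b 1 : Fin s → K) := by
        rw [← Pi.single_smul, smul_eq_mul, mul_one]
      rw [this, map_smul, smul_eq_mul, mul_comm]
    have h1 := wronskian_rel D hc r hr _ (fun b => f (Pi.single b 1)) le_rfl (by
      intro w
      rw [← hfv (fun b => word D w (r b))]
      exact hf (Submodule.subset_span ⟨w, rfl⟩))
    apply hf0
    refine LinearMap.ext fun v => ?_
    rw [hfv v]
    have h2 : ∀ b, f (Pi.single b 1) = 0 := fun b => congrFun h1 b
    simp [h2]
  have hfr : Module.finrank K (Submodule.span K V) = s := by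
    rw [hspan, finrank_top, Module.finrank_fin_fun]
  obtain ⟨g, hg, -, hgi⟩ := Submodule.exists_fun_fin_finrank_span_eq K V
  choose w hw using hg
  refine ⟨fun a => w (Fin.cast hfr.symm a), ?_⟩
  have h2 : LinearIndependent K (fun a : Fin s => g (Fin.cast hfr.symm a)) :=
    hgi.comp _ (Fin.cast_injective _)
  have h3 : (Matrix.of fun a b => word D (w (Fin.cast hfr.symm a)) (r b)).row =
      (fun a : Fin s => g (Fin.cast hfr.symm a)) := by
    funext a
    rw [← hw]
    rfl
  have h4 := Matrix.linearIndependent_rows_iff_isUnit.1 (h3 ▸ h2)
  rw [Matrix.isUnit_iff_isUnit_det] at h4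
  exact h4.ne_zero

end Pool.Agent.CampanaFlow
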