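import Pool.Agent.Lib_MP_1209e6_ag.Defs
import Pool.Agent.Lib_MP_1209e6_fl.Defs

/-! PIECE E4: contraction of a form. -/

set_option autoImplicit false

open Pool.Agent.Campana

namespace Pool.Agent.CampanaFlow

variable {K : Type} [Field K] [Algebra ℂ K]

/-- a nonzero alternating form is nonzero on some tuple from a spanning set -/
theorem exists_tuple_ne_zero {V : Type} [AddCommGroup V] [Module K V] {p : ℕ}
    (ω : V [⋀^Fin p]→ₗ[K] K) (hω : ω ≠ 0) (s : Set V) (hs : Submodule.span K s = ⊤) :
    ∃ T : Fin p → V, (∀ i, T i ∈ s) ∧ ω T ≠ 0 := by
  classical
  by_contra hcon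
  push Not at hcon
  apply hω
  -- by induction on the set of positions with arbitrary entries
  have key : ∀ A : Finset (Fin p), ∀ T : Fin p → V, (∀ i, i ∉ A → T i ∈ s) → ω T = 0 := by
    intro A
    induction A using Finset.induction_on with
    | empty => intro T hT; exact hcon T fun i => hT i (by simp)
    | insert i A hi ih =>
      intro T hT
      have h1 : ∀ v : V, ω (Function.update T i v) = 0 := by
        intro v
        have hv : v ∈ Submodule.span K s := by rw [hs]; trivial
        induction hv using Submodule.span_induction with
        | mem v hv =>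
          apply ih
          intro j hj
          by_cases hji : j = i
          · subst hji; simpa using hv
          · rw [Function.update_of_ne hji]
            exact hT j (by simp [hji, hj])
        | zero => exact ω.map_update_zero T i
        | add u v _ _ hu hv => rw [ω.map_update_add, hu, hv, add_zero]
        | smul a v _ hv => rw [ω.map_update_smul, hv, smul_zero]
      have := h1 (T i)
      rwa [Function.update_eq_self] at this
  ext T
  simpa using key Finset.univ T (by simp)

/-- PIECE E4: contraction of a form with global fields and lifts of derivations of the base. -/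
theorem contract (k : IntermediateField ℂ K) (G : Set (Derivation ℂ K K))
    (hG : ∀ D : Derivation ℂ K K, (∀ a ∈ k, D a = 0) → D ∈ Submodule.span K G)
    (hspan : Submodule.span K (G ∪ {e : Derivation ℂ K K | ∀ a ∈ k, e a ∈ k}) = ⊤)
    {p : ℕ} (ω : Form K p) (hω : ω ≠ 0) :
    ∃ c : K, c ≠ 0 ∧ ∀ O : ValuationSubring K, (∀ D ∈ G, ∀ a ∈ O, D a ∈ O) →
      (∀ e : Derivation ℂ K K, (∀ a ∈ k, e a ∈ k) →
        ∃ E : Derivation ℂ K K, (∀ a ∈ k, E a = e a) ∧ ∀ a ∈ O, E a ∈ O) →
      ∃ T : Fin p → Derivation ℂ K K, (∀ i, ∀ a ∈ O, T i a ∈ O) ∧ ω T = c := by
  classical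
  set L : Set (Derivation ℂ K K) := {e | ∀ a ∈ k, e a ∈ k} with hL
  -- the possible numbers of entries in `G`
  let Q : ℕ → Prop := fun a => ∃ T : Fin p → Derivation ℂ K K, (∀ i, T i ∈ G ∪ L) ∧ ω T ≠ 0 ∧
    ∃ A : Finset (Fin p), A.card = a ∧ ∀ i ∈ A, T i ∈ G
  obtain ⟨T₀, hT₀, hωT₀⟩ := exists_tuple_ne_zero ω hω _ hspan
  have hQ0 : Q 0 := ⟨T₀, hT₀, hωT₀, ∅, rfl, by simp⟩
  have hQb : ∀ a, Q a → a ≤ p := by
    rintro a ⟨T, -, -, A, rfl, -⟩
    simpa using A.card_le_univ
  obtain ⟨T, hT, hωT, A, hA, hAG⟩ := Nat.findGreatest_spec (P := Q) (Nat.zero_le p) hQ0
  have hmax : ∀ b, Q b → b ≤ A.card := by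
    intro b hb
    rw [hA]
    exact Nat.le_findGreatest (hQb b hb) hb
  refine ⟨ω T, hωT, fun O hO hlift => ?_⟩
  -- the entries outside of `A` are in `L`
  have hTL : ∀ i, i ∉ A → T i ∈ L := by
    intro i hi
    rcases hT i with h | h
    · exfalso
      have : Q (insert i A).card := ⟨T, hT, hωT, insert i A, rfl, by
        intro j hj
        rcases Finset.mem_insert.1 hj with rfl | hj
        · exact h
        · exact hAG j hj⟩
      have h2 := hmax _ this
      rw [Finset.card_insert_of_notMem hi] at h2
      omega
    · exact h
  have hE : ∀ i, ∃ E : Derivation ℂ K K, (∀ a ∈ O, E a ∈ O) ∧ (i ∈ A → E = T i) ∧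
      (i ∉ A → E ∈ L ∧ E - T i ∈ Submodule.span K G) := by
    intro i
    by_cases hi : i ∈ A
    · exact ⟨T i, hO _ (hAG i hi), fun _ => rfl, fun h => absurd hi h⟩
    · obtain ⟨E, h1, h2⟩ := hlift (T i) (hTL i hi)
      refine ⟨E, h2, fun h => absurd h hi, fun _ => ⟨fun a ha => ?_, ?_⟩⟩
      · rw [h1 a ha]; exact hTL i hi a ha
      · apply hG
        intro a ha
        rw [Derivation.sub_apply, h1 a ha, sub_self]
  choose E hEO hEA hEL using hE
  refine ⟨E, hEO, ?_⟩
  -- replace the entries one by one
  have key : ∀ B : Finset (Fin p), ω (fun i => if i ∈ B then E i else T i) = ω T := by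
    intro B
    induction B using Finset.induction_on with
    | empty => simp
    | insert i B hi ih =>
      by_cases hiA : i ∈ A
      · rw [← ih]
        congr 1
        ext1 j
        by_cases hji : j = i
        · subst hji; simp [hi, hEA j hiA]
        · simp [hji]
      · set U : Fin p → Derivation ℂ K K := fun j => if j ∈ B then E j else T j with hU
        have h1 : (fun j => if j ∈ insert i B then E j else T j) =
            Function.update U i (T i + (E i - T i)) := by
          ext1 j
          by_cases hji : j = i
          · subst hji; simp
          · rw [Function.update_of_ne hji]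
            simp [hU, hji]
        have h2 : Function.update U i (T i) = U := by
          ext1 j
          by_cases hji : j = i
          · subst hji; simp [hU, hi]
          · rw [Function.update_of_ne hji]
        have h3 : ∀ w ∈ Submodule.span K G, ω (Function.update U i w) = 0 := by
          intro w hw
          induction hw using Submodule.span_induction with
          | mem g hg =>
            by_contra hne
            have hQ : Q (insert i A).card := by
              refine ⟨Function.update U i g, fun j => ?_, hne, insert i A, rfl, fun j hj => ?_⟩
              · by_cases hji : j = i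
                · subst hji; simp [hg]
                · rw [Function.update_of_ne hji]
                  simp only [hU]
                  by_cases hjA : j ∈ A
                  · rw [hEA j hjA, ite_self]; exact hT j
                  · split_ifs
                    · exact Or.inr (hEL j hjA).1
                    · exact hT j
              · rcases Finset.mem_insert.1 hj with rfl | hjA
                · simp [hg]
                · have hji : j ≠ i := fun h => hiA (h ▸ hjA)
                  rw [Function.update_of_ne hji]
                  simp only [hU]
                  rw [hEA j hjA, ite_self]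
                  exact hAG j hjA
            have h4 := hmax _ hQ
            rw [Finset.card_insert_of_notMem hiA] at h4
            omega
          | zero => exact ω.map_update_zero U i
          | add u v _ _ hu hv => rw [ω.map_update_add, hu, hv, add_zero]
          | smul a v _ hv => rw [ω.map_update_smul, hv, smul_zero]
        rw [h1, ω.map_update_add, h2, h3 _ (hEL i hiA).2, add_zero, ih]
  have := key Finset.univ
  simpa using this

end Pool.Agent.CampanaFlow
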