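import Pool.Agent.Lib_MP_1209e6_fl.F1
import Pool.Agent.Lib_MP_1209e6_fl.F3

/-! PIECE F5: convergence of the flow in a chart. -/

set_option autoImplicit false

open Filter Topology

namespace Pool.Agent.CampanaFlow

variable {S : Type} [CommRing S] [Algebra ℂ S] {D : Derivation ℂ S S}

private theorem F5_term_nonneg (cd : ChartData D) (q : S →ₐ[ℂ] ℂ) (j l : Fin (cd.N + 1)) :
    0 ≤ ∑ s ∈ (cd.P j l).support, ‖(cd.P j l).coeff s‖ *
    ((∏ a, ‖q (cd.c a)‖ ^ s (Sum.inl a)) * ∏ i, (2 : ℝ) ^ s (Sum.inr i)) :=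
  Finset.sum_nonneg (fun _ _ => mul_nonneg (norm_nonneg _)
    (mul_nonneg (Finset.prod_nonneg (fun _ _ => pow_nonneg (norm_nonneg _) _))
      (Finset.prod_nonneg (fun _ _ => pow_nonneg zero_le_two _))))

private theorem F5_A_nonneg (cd : ChartData D) (q : S →ₐ[ℂ] ℂ) :
    0 ≤ ∑ j, ∑ l, ∑ s ∈ (cd.P j l).support, ‖(cd.P j l).coeff s‖ *
    ((∏ a, ‖q (cd.c a)‖ ^ s (Sum.inl a)) * ∏ i, (2 : ℝ) ^ s (Sum.inr i)) :=
  Finset.sum_nonneg (fun j _ => Finset.sum_nonneg (fun l _ => F5_term_nonneg cd q j l))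

theorem ChartData.size_nonneg (cd : ChartData D) (q : S →ₐ[ℂ] ℂ) : 0 ≤ cd.size q := by
  unfold ChartData.size
  exact mul_nonneg (by positivity) (F5_A_nonneg cd q)

/-- `grow` with `σ = Fin e ⊕ Fin (N+1)`, `y = Sum.elim c (X j)`, `P = Sum.elim 0 (P j)`,
`dg = Sum.elim 0 1`, `δ = cd.deg`, `w = Sum.elim (‖q (c a)‖) 2`, `A = ∑_j ∑_l ν (P j l)`, so that
`(1+δ) A = cd.size q`; then `‖q (D^n (X j l))‖ / n! ‖t‖^n ≤ 2 (size ‖t‖)^n ≤ 2 (1/4)^n`. -/
theorem ChartData.term_le (cd : ChartData D) (q : S →ₐ[ℂ] ℂ) (j : Fin (cd.N + 1))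
    (hj : ∀ l, ‖q (cd.X j l)‖ ≤ 2) (t : ℂ) (ht : ‖t‖ * cd.size q ≤ 1 / 4) (l : Fin (cd.N + 1))
    (n : ℕ) : ‖tc D q (cd.X j l) n‖ * ‖t‖ ^ n ≤ 2 * (1 / 4) ^ n := by
  have hg := grow (σ := Fin cd.e ⊕ Fin (cd.N + 1)) (Sum.elim cd.c (cd.X j)) D
    (Sum.elim (fun _ => 0) (cd.P j)) (by
      rintro (a | l')
      · simp only [Sum.elim_inl, map_zero]
        exact cd.Dc a
      · simp only [Sum.elim_inr]
        exact cd.DX j l')
    (Sum.elim (fun _ => 0) (fun _ => 1)) (by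
      rintro (a | l') h
      · rfl
      · simp at h)
    (by
      rintro (a | l')
      · simp
      · simp)
    cd.deg (by
      rintro (a | l') s hs
      · simp at hs
      · rw [Fintype.sum_sum_type]
        simp only [Sum.elim_inl, Sum.elim_inr, mul_zero, mul_one, Finset.sum_const_zero,
          zero_add]
        simp only [Sum.elim_inr] at hs
        have h1 := MvPolynomial.le_totalDegree hs
        rw [Finsupp.sum_fintype _ _ (fun _ => rfl), Fintype.sum_sum_type] at h1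
        have h2 : (cd.P j l').totalDegree ≤ cd.deg := by
          unfold ChartData.deg
          refine le_trans ?_ (Finset.single_le_sum
            (f := fun j => ∑ l, (cd.P j l).totalDegree) (fun _ _ => Nat.zero_le _)
            (Finset.mem_univ j))
          exact Finset.single_le_sum (f := fun l => (cd.P j l).totalDegree)
            (fun _ _ => Nat.zero_le _) (Finset.mem_univ l')
        omega)
    q (Sum.elim (fun a => ‖q (cd.c a)‖) (fun _ => 2)) (by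
      rintro (a | l')
      · exact le_rfl
      · exact hj l')
    (by
      rintro (a | l') h
      · simp at h
      · simp only [Sum.elim_inr]
        norm_num)
    (∑ j, ∑ l, ∑ s ∈ (cd.P j l).support, ‖(cd.P j l).coeff s‖ *
      ((∏ a, ‖q (cd.c a)‖ ^ s (Sum.inl a)) * ∏ i, (2 : ℝ) ^ s (Sum.inr i))) (by
      rintro (a | l')
      · simp only [Sum.elim_inl, MvPolynomial.support_zero, Finset.sum_empty]
        exact F5_A_nonneg cd q
      · simp only [Sum.elim_inr]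
        refine le_trans (le_of_eq ?_) ((Finset.single_le_sum
          (f := fun l => ∑ s ∈ (cd.P j l).support, ‖(cd.P j l).coeff s‖ *
            ((∏ a, ‖q (cd.c a)‖ ^ s (Sum.inl a)) * ∏ i, (2 : ℝ) ^ s (Sum.inr i)))
          (fun l _ => F5_term_nonneg cd q j l) (Finset.mem_univ l')).trans
          (Finset.single_le_sum
          (f := fun j => ∑ l, ∑ s ∈ (cd.P j l).support, ‖(cd.P j l).coeff s‖ *
            ((∏ a, ‖q (cd.c a)‖ ^ s (Sum.inl a)) * ∏ i, (2 : ℝ) ^ s (Sum.inr i)))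
          (fun j _ => Finset.sum_nonneg (fun l _ => F5_term_nonneg cd q j l))
          (Finset.mem_univ j)))
        refine Finset.sum_congr rfl (fun s _ => ?_)
        rw [Fintype.prod_sum_type]
        simp only [Sum.elim_inl, Sum.elim_inr])
    n (Sum.inr l)
  simp only [Sum.elim_inr] at hg
  have hs : (1 + (cd.deg : ℝ)) * (∑ j, ∑ l, ∑ s ∈ (cd.P j l).support, ‖(cd.P j l).coeff s‖ *
      ((∏ a, ‖q (cd.c a)‖ ^ s (Sum.inl a)) * ∏ i, (2 : ℝ) ^ s (Sum.inr i))) = cd.size q := rfl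
  rw [hs] at hg
  have hf : (0 : ℝ) < n.factorial := by exact_mod_cast Nat.factorial_pos n
  have h1 : ‖tc D q (cd.X j l) n‖ ≤ 2 * cd.size q ^ n := by
    unfold tc
    rw [norm_div, Complex.norm_natCast, div_le_iff₀ hf]
    calc ‖q (D^[n] (cd.X j l))‖ ≤ 2 * n.factorial * cd.size q ^ n := hg
      _ = 2 * cd.size q ^ n * n.factorial := by ring
  have h0 := cd.size_nonneg q
  calc ‖tc D q (cd.X j l) n‖ * ‖t‖ ^ n ≤ 2 * cd.size q ^ n * ‖t‖ ^ n :=
        mul_le_mul_of_nonneg_right h1 (pow_nonneg (norm_nonneg t) n)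
    _ = 2 * (‖t‖ * cd.size q) ^ n := by rw [mul_pow]; ring
    _ ≤ 2 * (1 / 4) ^ n := mul_le_mul_of_nonneg_left
        (pow_le_pow_left₀ (mul_nonneg (norm_nonneg t) h0) ht n) zero_le_two

private theorem F5_summable : Summable (fun n : ℕ => (2 : ℝ) * (1 / 4) ^ n) :=
  (summable_geometric_of_lt_one (by norm_num) (by norm_num)).mul_left 2

private theorem F5_conv (cd : ChartData D) (q : S →ₐ[ℂ] ℂ) (j : Fin (cd.N + 1))
    (hj : ∀ l, ‖q (cd.X j l)‖ ≤ 2) (t : ℂ) (ht : ‖t‖ * cd.size q ≤ 1 / 4) (l : Fin (cd.N + 1)) :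
    Conv D q t (cd.X j l) :=
  Summable.of_nonneg_of_le (fun _ => mul_nonneg (norm_nonneg _) (pow_nonneg (norm_nonneg _) _))
    (cd.term_le q j hj t ht l) F5_summable

/-- from `term_le`, `conv_const` and `conv_adjoin` -/
theorem ChartData.conv (cd : ChartData D) (q : S →ₐ[ℂ] ℂ) (j : Fin (cd.N + 1))
    (hj : ∀ l, ‖q (cd.X j l)‖ ≤ 2) (t : ℂ) (ht : ‖t‖ * cd.size q ≤ 1 / 4) (f : S)
    (hf : f ∈ Algebra.adjoin ℂ (Set.range (Sum.elim cd.c (cd.X j)))) : Conv D q t f := by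
  refine conv_adjoin ?_ f hf
  rintro _ ⟨(a | l), rfl⟩
  · exact conv_const (cd.Dc a)
  · exact F5_conv cd q j hj t ht l

theorem ChartData.ev_le (cd : ChartData D) (q : S →ₐ[ℂ] ℂ) (j : Fin (cd.N + 1))
    (hj : ∀ l, ‖q (cd.X j l)‖ ≤ 2) (t : ℂ) (ht : ‖t‖ * cd.size q ≤ 1 / 4) (l : Fin (cd.N + 1)) :
    ‖ev D q t (cd.X j l)‖ ≤ 3 := by
  unfold ev
  have h1 : ∀ n, ‖tc D q (cd.X j l) n * t ^ n‖ ≤ 2 * (1 / 4) ^ n := by
    intro n
    rw [norm_mul, norm_pow]
    exact cd.term_le q j hj t ht l n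
  refine (tsum_of_norm_bounded F5_summable.hasSum h1).trans ?_
  rw [tsum_mul_left, tsum_geometric_of_lt_one (by norm_num) (by norm_num)]
  norm_num

/-- choose `j` with `‖q (X 0 j)‖` maximal; `X 0 l = X 0 j * X j l` and `q (X 0 j) ≠ 0` because
`X 0 j * X j 0 = X 0 0 = 1`. -/
theorem ChartData.exists_chart (cd : ChartData D) (q : S →ₐ[ℂ] ℂ) :
    ∃ j, ∀ l, ‖q (cd.X j l)‖ ≤ 1 := by
  obtain ⟨j, hj⟩ := Finite.exists_max (fun j : Fin (cd.N + 1) => ‖q (cd.X 0 j)‖)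
  refine ⟨j, fun l => ?_⟩
  have h1 : q (cd.X 0 j) * q (cd.X j 0) = 1 := by
    rw [← map_mul, cd.X_mul, cd.X_self, map_one]
  have h2 : q (cd.X 0 j) ≠ 0 := left_ne_zero_of_mul_eq_one h1
  have h3 : q (cd.X 0 j) * q (cd.X j l) = q (cd.X 0 l) := by
    rw [← map_mul, cd.X_mul]
  have h4 : ‖q (cd.X 0 l)‖ ≤ ‖q (cd.X 0 j)‖ := hj l
  rw [← h3, norm_mul] at h4
  have h5 : 0 < ‖q (cd.X 0 j)‖ := norm_pos_iff.mpr h2
  exact le_of_mul_le_mul_left (by rw [mul_one]; exact h4) h5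

/-- `D (c a) = 0` and `c a` converges to itself: a partial flow does not change the size. -/
theorem ChartData.size_step (cd : ChartData D) {q q' : S →ₐ[ℂ] ℂ} {t : ℂ} (h : Step D q t q') :
    cd.size q' = cd.size q := by
  have h1 : ∀ a, q' (cd.c a) = q (cd.c a) := by
    intro a
    rw [h (cd.c a) (conv_const (cd.Dc a)), ev_const (cd.Dc a)]
  unfold ChartData.size
  simp only [h1]

end Pool.Agent.CampanaFlow
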