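import Pool.Agent.Lib_MP_1209e6_fl.Defs

/-! PIECE S1 (Seidenberg): a derivation which preserves a noetherian domain preserves its integral
closure. -/

set_option autoImplicit false

namespace Pool.Agent.CampanaFlow

/-- the integral closure in `K` of the subalgebra `R` -/
noncomputable def intCl {K : Type} [Field K] [Algebra ℂ K] (R : Subalgebra ℂ K) : Subalgebra ℂ K :=
  (integralClosure R K).restrictScalars ℂ

theorem mem_intCl {K : Type} [Field K] [Algebra ℂ K] {R : Subalgebra ℂ K} {a : K} :
    a ∈ intCl R ↔ IsIntegral R a := Iff.rfl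

theorem le_intCl {K : Type} [Field K] [Algebra ℂ K] (R : Subalgebra ℂ K) : R ≤ intCl R :=
  fun a ha => mem_intCl.2 (isIntegral_algebraMap (R := R) (A := K) (x := ⟨a, ha⟩))

/-- An integral element over a domain with fraction field `K` is almost integral: `c a^n ∈ R`
(`IsIntegral.isAlmostIntegral_of_exists_smul_mem_range`, or: `R[a]` is a finite module, take a common
denominator of `1, a, …, a^{m-1}`). -/
theorem exists_denominator {K : Type} [Field K] [Algebra ℂ K] (R : Subalgebra ℂ K)
    (hfrac : ∀ a : K, ∃ b ∈ R, ∃ c ∈ R, c ≠ 0 ∧ a = b / c) (a : K) (ha : IsIntegral R a) :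
    ∃ c ∈ R, c ≠ 0 ∧ ∀ n : ℕ, c * a ^ n ∈ R := by
  obtain ⟨b, hb, c, hc, hc0, hac⟩ := hfrac a
  have h1 : ∃ t ∈ nonZeroDivisors R, t • a ∈ (algebraMap R K).range := by
    refine ⟨⟨c, hc⟩, mem_nonZeroDivisors_of_ne_zero ?_, ⟨b, hb⟩, ?_⟩
    · intro h
      exact hc0 (congrArg Subtype.val h)
    · show b = c * a
      rw [hac]
      field_simp
  obtain ⟨r, hr, hr'⟩ := ha.isAlmostIntegral_of_exists_smul_mem_range h1
  refine ⟨r, r.2, ?_, fun n => ?_⟩
  · intro h
    exact nonZeroDivisors.ne_zero hr (Subtype.ext h)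
  · obtain ⟨y, hy⟩ := hr' n
    have h2 : (y : K) = r * a ^ n := hy
    rw [← h2]
    exact y.2

/-- the commutator with the multiplication by `a` -/
private def adm {K : Type} [Field K] (a : K) (X : K → K) : K → K := fun f => X (a * f) - a * X f

private theorem adm_comp {K : Type} [Field K] [Algebra ℂ K] (D : Derivation ℂ K K) (a : K)
    (X : K → K) (n : ℕ) : ∀ f, (adm a)^[n + 1] (fun f => D (X f)) f
      = D ((adm a)^[n + 1] X f) + (n + 1) * D a * (adm a)^[n] X f := by
  induction n with
  | zero =>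
    intro f
    show D (X (a * f)) - a * D (X f) = D (X (a * f) - a * X f) + _ * D a * X f
    rw [map_sub, Derivation.leibniz]
    simp only [smul_eq_mul, Nat.cast_zero]
    ring
  | succ n ih =>
    intro f
    have e1 : (adm a)^[n + 1] (fun f => D (X f))
        = fun f => D ((adm a)^[n + 1] X f) + (n + 1) * D a * (adm a)^[n] X f := funext ih
    rw [Function.iterate_succ_apply', e1]
    rw [Function.iterate_succ_apply' (adm a) (n + 1) X]
    have e2 : ∀ g, (adm a)^[n + 1] X g = (adm a)^[n] X (a * g) - a * (adm a)^[n] X g := by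
      intro g
      rw [Function.iterate_succ_apply']
      rfl
    set Y := (adm a)^[n + 1] X with hY
    set Z := (adm a)^[n] X with hZ
    show D (Y (a * f)) + (n + 1) * D a * Z (a * f) - a * (D (Y f) + (n + 1) * D a * Z f)
      = D (Y (a * f) - a * Y f) + ((n + 1 : ℕ) + 1) * D a * Y f
    rw [map_sub, Derivation.leibniz]
    simp only [smul_eq_mul]
    have e3 := e2 f
    push_cast
    linear_combination (-((n : K) + 1) * D a) * e3

private theorem adm_iter {K : Type} [Field K] [Algebra ℂ K] (D : Derivation ℂ K K) (a : K)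
    (m : ℕ) : (∀ f, (adm a)^[m] (fun f => D^[m] f) f = (m.factorial : K) * D a ^ m * f) ∧
      (∀ f, (adm a)^[m + 1] (fun f => D^[m] f) f = 0) := by
  induction m with
  | zero =>
    constructor
    · intro f
      simp
    · intro f
      show a * f - a * f = 0
      ring
  | succ m ih =>
    have e0 : (fun f => D^[m + 1] f) = (fun f => D ((fun f => D^[m] f) f)) := by
      funext f
      exact Function.iterate_succ_apply' _ _ _
    rw [e0]
    constructor
    · intro f
      rw [adm_comp, ih.2, ih.1, map_zero, Nat.factorial_succ]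
      push_cast
      ring
    · intro f
      rw [adm_comp, ih.2]
      have e1 : (adm a)^[m + 1 + 1] (fun f => D^[m] f) f = 0 := by
        rw [Function.iterate_succ_apply']
        show (adm a)^[m + 1] (fun f => D^[m] f) (a * f)
          - a * (adm a)^[m + 1] (fun f => D^[m] f) f = 0
        rw [ih.2, ih.2]
        ring
      rw [e1, map_zero]
      ring

/-- The key step. Proof: let `E = ∑ t^i/i! D^i : K → K[[t]]` (a ring homomorphism, it maps `R` to
`R[[t]]`). `c E(c) (E(a) - a)^n = ∑_i C(n,i) (c (-a)^(n-i)) E(c a^i)` has all its coefficients in `R`,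
and the coefficient of `t^n` is `c^2 (D a)^n`. (Or without power series: by induction on `n` prove a
polynomial identity.) -/
theorem coeff_mem {K : Type} [Field K] [Algebra ℂ K] (D : Derivation ℂ K K) (R : Subalgebra ℂ K)
    (hD : ∀ f ∈ R, D f ∈ R) {a c : K} (hc : c ∈ R) (h : ∀ n : ℕ, c * a ^ n ∈ R) (n : ℕ) :
    c ^ 2 * (D a) ^ n ∈ R := by
  have hDm : ∀ m : ℕ, ∀ f ∈ R, D^[m] f ∈ R := by
    intro m
    induction m with
    | zero => exact fun f hf => hf
    | succ m ih =>
      intro f hf
      rw [Function.iterate_succ_apply']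
      exact hD _ (ih f hf)
  have hP : ∀ m : ℕ, ∀ i j : ℕ, c * a ^ i * (adm a)^[m] (fun f => D^[n] f) (c * a ^ j) ∈ R := by
    intro m
    induction m with
    | zero => exact fun i j => R.mul_mem (h i) (hDm n _ (h j))
    | succ m ih =>
      intro i j
      rw [Function.iterate_succ_apply']
      have e1 : c * a ^ i * adm a ((adm a)^[m] (fun f => D^[n] f)) (c * a ^ j)
          = c * a ^ i * (adm a)^[m] (fun f => D^[n] f) (c * a ^ (j + 1))
            - c * a ^ (i + 1) * (adm a)^[m] (fun f => D^[n] f) (c * a ^ j) := by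
        unfold adm
        have e2 : a * (c * a ^ j) = c * a ^ (j + 1) := by ring
        rw [e2]
        ring
      rw [e1]
      exact R.sub_mem (ih i (j + 1)) (ih (i + 1) j)
  have h1 := hP n 0 0
  rw [(adm_iter D a n).1, pow_zero, mul_one] at h1
  have h2 := R.smul_mem h1 ((n.factorial : ℂ)⁻¹)
  have h3 : (n.factorial : ℂ) ≠ 0 := by exact_mod_cast n.factorial_ne_zero
  have h4 : ((n.factorial : ℂ)⁻¹) • (c * ((n.factorial : K) * D a ^ n * c)) = c ^ 2 * D a ^ n := by
    have h5 : (n.factorial : K) = algebraMap ℂ K (n.factorial : ℂ) := by simp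
    have h6 : algebraMap ℂ K ((n.factorial : ℂ)⁻¹) * algebraMap ℂ K (n.factorial : ℂ) = 1 := by
      rw [← map_mul, inv_mul_cancel₀ h3, map_one]
    rw [Algebra.smul_def, h5]
    linear_combination (c ^ 2 * D a ^ n) * h6
  rw [h4] at h2
  exact h2

/-- `R` noetherian, `c^2 (D a)^n ∈ R` for all `n`: `R[D a] ⊆ c^{-2} R` is a finite module
(`completeIntegralClosure` in `Mathlib.RingTheory.IntegralClosure.IsIntegral.AlmostIntegral` may
contain this already). -/
theorem seidenberg {K : Type} [Field K] [Algebra ℂ K] (D : Derivation ℂ K K) (R : Subalgebra ℂ K)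
    (hR : IsNoetherianRing R) (hfrac : ∀ a : K, ∃ b ∈ R, ∃ c ∈ R, c ≠ 0 ∧ a = b / c)
    (hD : ∀ f ∈ R, D f ∈ R) : ∀ f ∈ intCl R, D f ∈ intCl R := by
  intro f hf
  obtain ⟨c, hc, hc0, hcf⟩ := exists_denominator R hfrac f (mem_intCl.1 hf)
  have h1 := coeff_mem D R hD hc hcf
  have hai : IsAlmostIntegral R (D f) := by
    refine ⟨⟨c ^ 2, R.pow_mem hc 2⟩, mem_nonZeroDivisors_of_ne_zero ?_, fun n => ⟨⟨_, h1 n⟩, rfl⟩⟩
    intro h
    exact pow_ne_zero 2 hc0 (congrArg Subtype.val h)
  exact mem_intCl.2 hai.isIntegral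

end Pool.Agent.CampanaFlow
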