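import Pool.Agent.Lib_MP_1209e6_fl.Defs

/-! PIECE S2: a normal noetherian domain is the intersection of discrete valuation rings which are
localisations. -/

set_option autoImplicit false

namespace Pool.Agent.CampanaFlow

/-- the conductor ideal of `h` -/
def colonIdeal {K : Type} [Field K] [Algebra ℂ K] (R : Subalgebra ℂ K) (h : K) : Ideal R where
  carrier := {r | (r : K) * h ∈ R}
  add_mem' := by
    intro a b ha hb
    change ((a : K) + b) * h ∈ R
    rw [add_mul]
    exact R.add_mem ha hb
  zero_mem' := by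
    change ((0 : K)) * h ∈ R
    rw [zero_mul]
    exact R.zero_mem
  smul_mem' := by
    intro c a ha
    change ((c : K) * a) * h ∈ R
    rw [mul_assoc]
    exact R.mul_mem c.2 ha

theorem mem_colonIdeal {K : Type} [Field K] [Algebra ℂ K] {R : Subalgebra ℂ K} {h : K} {r : R} :
    r ∈ colonIdeal R h ↔ (r : K) * h ∈ R := Iff.rfl

/-- Proof. `M = (R g + R)/R ≠ 0` (a submodule of `K/R`) has an associated prime
(`associatedPrimes.nonempty`): `p = {r ∈ R | r h ∈ R}` for some `h = r₀ g + r₁`, `h ∉ R`.
`p h ⊆ p` is impossible (`p` is a finite nonzero module, so `h` would be integral: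
`isIntegral_of_smul_mem_submodule`), so `a h =: s ∈ R \ p` for some `a ∈ p`. In `R_p` the element `a`
generates the maximal ideal: for `b ∈ p`, `b = b h a / s` and `b h ∈ R`. So `R_p` is a noetherian
local domain with principal nonzero maximal ideal, a discrete valuation ring
(`IsDiscreteValuationRing.TFAE` or `IsDiscreteValuationRing.iff_pid_with_one_nonzero_prime`...).
`O = {b / s | b ∈ R, s ∈ R \ p}`, `h ∉ O` (if `h = b / s` then `s h ∈ R`, `s ∈ p`), hence `g ∉ O`. -/
theorem exists_dvr {K : Type} [Field K] [Algebra ℂ K] (R : Subalgebra ℂ K)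
    (hR : IsNoetherianRing R) (hfrac : ∀ a : K, ∃ b ∈ R, ∃ c ∈ R, c ≠ 0 ∧ a = b / c)
    (hic : ∀ a : K, IsIntegral R a → a ∈ R) (g : K) (hg : g ∉ R) :
    ∃ O : ValuationSubring K, IsDiscreteValuationRing O ∧ (∀ r ∈ R, r ∈ O) ∧ g ∉ O ∧
      ∀ z ∈ O, ∃ b ∈ R, ∃ s ∈ R, s ≠ 0 ∧ s⁻¹ ∈ O ∧ z = b / s := by
  classical
  have hFR : IsFractionRing R K := IsFractionRing.of_field R K fun z => by
    obtain ⟨b, hb, c, hc, _, rfl⟩ := hfrac z
    exact ⟨⟨b, hb⟩, ⟨c, hc⟩, rfl⟩
  -- a maximal conductor
  have hmaxi := (set_has_maximal_iff_noetherian (R := R) (M := R)).2 hR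
    {I | ∃ r : R, (r : K) * g ∉ R ∧ I = colonIdeal R ((r : K) * g)}
    ⟨_, 1, by simpa using hg, rfl⟩
  obtain ⟨(p : Ideal R), ⟨r₀, hr₀, hp⟩, hmax⟩ := hmaxi
  set h : K := (r₀ : K) * g with hh
  have hprime : p.IsPrime := by
    refine ⟨?_, ?_⟩
    · intro htop
      have h1 : (1 : R) ∈ p := by rw [htop]; trivial
      rw [hp, mem_colonIdeal] at h1
      apply hr₀
      simpa using h1
    · intro a b hab
      by_cases hb : b ∈ p
      · exact Or.inr hb
      left
      have h1 : (b : K) * h ∉ R := by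
        rw [hp, mem_colonIdeal] at hb
        exact hb
      have h2 : p ≤ colonIdeal R (((b * r₀ : R) : K) * g) := by
        intro r hr
        rw [hp, mem_colonIdeal] at hr
        rw [mem_colonIdeal]
        have h3 : (r : K) * (((b * r₀ : R) : K) * g) = (b : K) * ((r : K) * h) := by
          rw [hh, Subalgebra.coe_mul]
          ring
        rw [h3]
        exact R.mul_mem b.2 hr
      have h3 : ¬ p < colonIdeal R (((b * r₀ : R) : K) * g) := by
        apply hmax
        refine ⟨b * r₀, ?_, rfl⟩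
        rw [Subalgebra.coe_mul, mul_assoc]
        exact h1
      have h4 : p = colonIdeal R (((b * r₀ : R) : K) * g) := by
        by_contra hne
        exact h3 (lt_of_le_of_ne h2 hne)
      rw [h4, mem_colonIdeal]
      rw [hp, mem_colonIdeal] at hab
      have h5 : (a : K) * (((b * r₀ : R) : K) * g) = ((a * b : R) : K) * h := by
        rw [hh, Subalgebra.coe_mul, Subalgebra.coe_mul]
        ring
      rw [h5]
      exact hab
  -- a generator
  have hex : ∃ a ∈ p, ∃ s : R, s ∉ p ∧ (a : K) * h = s := by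
    by_contra hcon
    push Not at hcon
    apply hr₀
    apply hic
    have hne : p ≠ ⊥ := by
      intro hbot
      obtain ⟨b, hb, c, hc, hc0, hbc⟩ := hfrac h
      have h1 : (⟨c, hc⟩ : R) ∈ p := by
        rw [hp, mem_colonIdeal]
        change c * h ∈ R
        rw [hbc, mul_div_cancel₀ _ hc0]
        exact hb
      rw [hbot, Ideal.mem_bot] at h1
      exact hc0 (congrArg Subtype.val h1)
    refine isIntegral_of_smul_mem_submodule (R := R) (A := K) (M := K)
      (Submodule.map (Algebra.linearMap R K) p) ?_ ((IsNoetherian.noetherian p).map _) h ?_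
    · intro hbot
      apply hne
      rw [eq_bot_iff]
      intro x hx
      have h1 : (x : K) ∈ Submodule.map (Algebra.linearMap R K) p := ⟨x, hx, rfl⟩
      rw [hbot, Submodule.mem_bot] at h1
      rw [Ideal.mem_bot]
      exact Subtype.ext h1
    · rintro _ ⟨a, ha, rfl⟩
      have h1 : (a : K) * h ∈ R := by
        have ha' := ha
        rw [hp] at ha'
        exact ha'
      by_cases h2 : (⟨(a : K) * h, h1⟩ : R) ∈ p
      · exact ⟨_, h2, mul_comm _ _⟩
      · exact absurd rfl (hcon a ha _ h2)
  obtain ⟨a, ha, s, hs, has⟩ := hex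
  have hs0 : (s : K) ≠ 0 := by
    intro h0
    apply hs
    have : s = 0 := Subtype.ext h0
    rw [this]
    exact p.zero_mem
  have ha0 : (a : K) ≠ 0 := by
    intro h0
    rw [h0, zero_mul] at has
    exact hs0 has.symm
  have hle : p.primeCompl ≤ nonZeroDivisors R := p.primeCompl_le_nonZeroDivisors
  -- the localisation
  let A : Subalgebra R K := Localization.subalgebra.ofField K p.primeCompl hle
  have hAmem : ∀ z : K, z ∈ A ↔ ∃ (b u : R) (_ : u ∈ p.primeCompl), z = (b : K) * ((u : K))⁻¹ :=
    fun z => Iff.rfl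
  have hloc : IsLocalization p.primeCompl A :=
    Localization.subalgebra.isLocalization_ofField K p.primeCompl hle
  have hlocP : IsLocalization.AtPrime A p := hloc
  have hlocal : IsLocalRing A := IsLocalization.AtPrime.isLocalRing A p
  have hnoeth : IsNoetherianRing A := IsLocalization.isNoetherianRing p.primeCompl A hR
  have hunit : ∀ u : R, u ∉ p → (u : K) ≠ 0 ∧ ((u : K))⁻¹ ∈ A := by
    intro u hu
    refine ⟨?_, (hAmem _).2 ⟨1, u, hu, by simp⟩⟩
    intro h0
    apply hu
    have : u = 0 := Subtype.ext h0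
    rw [this]
    exact p.zero_mem
  have hRA : ∀ r : R, (r : K) ∈ A := fun r => A.algebraMap_mem r
  have hmaxideal : ∀ z : A, z ∈ IsLocalRing.maximalIdeal A → ∃ (b u : R), b ∈ p ∧ u ∉ p ∧
      (z : K) = (b : K) * ((u : K))⁻¹ := by
    intro z hz
    obtain ⟨b, u, hu, hzbu⟩ := (hAmem z).1 z.2
    refine ⟨b, u, ?_, hu, hzbu⟩
    by_contra hb
    rw [IsLocalRing.mem_maximalIdeal, mem_nonunits_iff] at hz
    apply hz
    rw [isUnit_iff_exists_inv]
    refine ⟨⟨(z : K)⁻¹, ?_⟩, Subtype.ext ?_⟩
    · rw [hzbu, mul_inv, inv_inv, mul_comm]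
      exact (hAmem _).2 ⟨u, b, hb, rfl⟩
    · change (z : K) * (z : K)⁻¹ = 1
      apply mul_inv_cancel₀
      rw [hzbu]
      exact mul_ne_zero (hunit b hb).1 (inv_ne_zero (hunit u hu).1)
  have hprincipal : IsLocalRing.maximalIdeal A = Ideal.span {(⟨a, hRA a⟩ : A)} := by
    apply le_antisymm
    · intro z hz
      obtain ⟨b, u, hb, hu, hzbu⟩ := hmaxideal z hz
      rw [Ideal.mem_span_singleton]
      have hbh : (b : K) * h ∈ R := by
        rw [hp] at hb
        exact hb
      refine ⟨⟨((b : K) * h) * ((s * u : R) : K)⁻¹, ?_⟩, Subtype.ext ?_⟩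
      · exact (hAmem _).2 ⟨⟨_, hbh⟩, s * u, (fun hsu => by
          rcases hprime.mem_or_mem hsu with h1 | h1
          · exact hs h1
          · exact hu h1), rfl⟩
      · change (z : K) = (a : K) * (((b : K) * h) * ((s * u : R) : K)⁻¹)
        rw [hzbu, Subalgebra.coe_mul]
        have h1 := (hunit u hu).1
        rw [← has] at hs0 ⊢
        have h2 : h ≠ 0 := right_ne_zero_of_mul hs0
        field_simp
    · rw [Ideal.span_singleton_le_iff_mem, IsLocalRing.mem_maximalIdeal, mem_nonunits_iff]
      intro hu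
      obtain ⟨⟨v, hv⟩, hav⟩ := isUnit_iff_exists_inv.1 hu
      obtain ⟨b, u, hu', hvbu⟩ := (hAmem v).1 hv
      have h1 : (a : K) * v = 1 := congrArg Subtype.val hav
      have h2 : (a : K) * b = u := by
        rw [hvbu, ← mul_assoc] at h1
        have := (hunit u hu').1
        field_simp at h1
        exact h1
      apply hu'
      have h3 : u = a * b := Subtype.ext h2.symm
      rw [h3]
      exact p.mul_mem_right _ ha
  have hnotfield : ¬ IsField A := by
    rw [IsLocalRing.isField_iff_maximalIdeal_eq, hprincipal, Ideal.span_singleton_eq_bot]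
    intro h0
    exact ha0 (congrArg Subtype.val h0)
  have hprinc : (IsLocalRing.maximalIdeal A).IsPrincipal := ⟨_, hprincipal⟩
  have hdvr : IsDiscreteValuationRing A :=
    ((IsDiscreteValuationRing.TFAE A hnotfield).out 0 4).2 hprinc
  have hFA : IsFractionRing A K := Localization.subalgebra.isFractionRing_ofField K p.primeCompl hle
  let O : ValuationSubring K := ValuationSubring.ofSubring A.toSubring fun x => by
    have := ValuationRing.isInteger_or_isInteger A x
    rcases this with ⟨y, hy⟩ | ⟨y, hy⟩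
    · left
      rw [← hy]
      exact y.2
    · right
      rw [← hy]
      exact y.2
  have hOA : ∀ z, z ∈ O ↔ z ∈ A := fun z => Iff.rfl
  refine ⟨O, ?_, fun r hr => hRA ⟨r, hr⟩, ?_, ?_⟩
  · exact hdvr
  · intro hgO
    rw [hOA, hAmem] at hgO
    obtain ⟨b, u, hu, hgbu⟩ := hgO
    apply hu
    rw [hp]
    change (u : K) * h ∈ R
    have h1 : (u : K) * h = ((r₀ * b : R) : K) := by
      rw [hh, hgbu, Subalgebra.coe_mul]
      have := (hunit u hu).1
      field_simp
    rw [h1]
    exact (r₀ * b).2
  · intro z hz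
    rw [hOA, hAmem] at hz
    obtain ⟨b, u, hu, rfl⟩ := hz
    exact ⟨b, b.2, u, u.2, (hunit u hu).1, (hunit u hu).2, by rw [div_eq_mul_inv]⟩

end Pool.Agent.CampanaFlow
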