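import Pool.Agent.Lib_MP_1209e6_fl.S1
import Pool.Agent.Lib_MP_1209e6_ag.Rational
import Pool.Agent.Lib_MP_1209e6_ag.Control
import Pool.Agent.Lib_MP_1209e6_ag.Place

/-! PIECE S4: local lifts of derivations of the constant field at a place. -/

set_option autoImplicit false

namespace Pool.Agent.CampanaFlow

open Polynomial Pool.Agent.Campana

section General

variable {k K : Type} [Field k] [CharZero k] [Field K] [Algebra k K]

omit [CharZero k] in
theorem mem_of_isAlgebraic (O : ValuationSubring K) (hO : ∀ c : k, algebraMap k K c ∈ O) {z : K}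
    (hz : IsAlgebraic k z) : z ∈ O := by
  obtain ⟨p, hp, hpz⟩ := hz.isIntegral
  let φ : k →+* O :=
    { toFun := fun a => ⟨algebraMap k K a, hO a⟩
      map_one' := Subtype.ext (map_one _)
      map_mul' := fun a b => Subtype.ext (map_mul _ _ _)
      map_zero' := Subtype.ext (map_zero _)
      map_add' := fun a b => Subtype.ext (map_add _ _ _) }
  have h2 : IsIntegral O z := by
    refine ⟨p.map φ, hp.map φ, ?_⟩
    rw [eval₂_map]
    exact hpz
  obtain ⟨y, hy⟩ := (IsIntegrallyClosed.isIntegral_iff (R := O) (K := K)).1 h2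
  rw [← hy]
  exact y.2

omit [CharZero k] in
theorem aeval_mem (O : ValuationSubring K) (hO : ∀ c : k, algebraMap k K c ∈ O) {a : K}
    (ha : a ∈ O) (p : k[X]) : aeval a p ∈ O := by
  rw [aeval_eq_sum_range]
  refine sum_mem fun i _ => ?_
  rw [Algebra.smul_def]
  exact O.mul_mem _ _ (hO _) (pow_mem ha i)

omit [CharZero k] in
theorem transcendental_of_inv_not_mem (O : ValuationSubring K)
    (hO : ∀ c : k, algebraMap k K c ∈ O) {t : K} (ht : t⁻¹ ∉ O) : Transcendental k t := by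
  intro h
  exact ht (mem_of_isAlgebraic O hO h.inv)

/-- an approximate minimal polynomial of the residue of `a` -/
theorem exists_residue_poly (O : ValuationSubring K)
    (hO : ∀ c : k, algebraMap k K c ∈ O) {t : K} (ht' : t⁻¹ ∉ O)
    (hunif : ∀ z ∈ O, z⁻¹ ∉ O → ∃ s ∈ O, z = t * s) {a : K} (ha : a ∈ O)
    (hres : ∃ p : k[X], p ≠ 0 ∧ ∃ s ∈ O, aeval a p = t * s) :
    ∃ p : k[X], (∃ s ∈ O, aeval a p = t * s) ∧ aeval a (derivative p) ≠ 0 ∧
      (aeval a (derivative p))⁻¹ ∈ O := by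
  classical
  have ht0 : t ≠ 0 := by
    rintro rfl
    exact ht' (by rw [inv_zero]; exact O.zero_mem)
  have hex : ∃ n : ℕ, ∃ p : k[X], p ≠ 0 ∧ p.natDegree = n ∧ ∃ s ∈ O, aeval a p = t * s := by
    obtain ⟨p, hp, hs⟩ := hres
    exact ⟨_, p, hp, rfl, hs⟩
  obtain ⟨p, hp, hpn, hs⟩ := Nat.find_spec hex
  refine ⟨p, hs, ?_⟩
  have hdeg : p.natDegree ≠ 0 := by
    intro h0
    rw [natDegree_eq_zero] at h0
    obtain ⟨c, rfl⟩ := h0
    obtain ⟨s, hs, hse⟩ := hs
    have hc : c ≠ 0 := by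
      rintro rfl
      exact hp (by rw [map_zero])
    have hc' : algebraMap k K c ≠ 0 := by rwa [Ne, map_eq_zero]
    rw [aeval_C] at hse
    apply ht'
    have h1 : t⁻¹ = s * algebraMap k K c⁻¹ := by
      rw [map_inv₀, hse]
      rw [hse] at hc'
      have hs0 : s ≠ 0 := right_ne_zero_of_mul hc'
      field_simp
    rw [h1]
    exact O.mul_mem _ _ hs (hO _)
  have hd0 : derivative p ≠ 0 := by
    intro h0
    exact hdeg (derivative_eq_zero.1 h0)
  have hlt : (derivative p).natDegree < Nat.find hex := by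
    rw [← hpn]
    exact natDegree_derivative_lt hdeg
  have hnot : ¬ ∃ s ∈ O, aeval a (derivative p) = t * s := fun h1 =>
    Nat.find_min hex hlt ⟨_, hd0, rfl, h1⟩
  constructor
  · intro h0
    exact hnot ⟨0, O.zero_mem, by rw [h0, mul_zero]⟩
  · by_contra hcon
    exact hnot (hunif _ (aeval_mem O hO ha _) hcon)

end General

section Lift

variable {K : Type} [Field K] [Algebra ℂ K]

/-- a uniformizer of a place -/
theorem exists_uniformizer (O : ValuationSubring K) (hO : IsPlace O) :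
    ∃ t ∈ O, t ≠ 0 ∧ t⁻¹ ∉ O ∧ (∀ z ∈ O, z⁻¹ ∉ O → ∃ s ∈ O, z = t * s) ∧
      ∀ z : K, ∃ N : ℕ, t ^ N * z ∈ O := by
  obtain ⟨v, hv⟩ := place_order O hO
  obtain ⟨t, ht0, ht⟩ := hv.2.2
  have htO : t ∈ O := (hv.mem_iff ht0).2 (by omega)
  refine ⟨t, htO, ht0, ?_, ?_, ?_⟩
  · rw [hv.mem_iff (inv_ne_zero ht0), hv.map_inv ht0]
    omega
  · intro z hz hz'
    by_cases hz0 : z = 0
    · exact ⟨0, O.zero_mem, by rw [hz0, mul_zero]⟩
    refine ⟨z / t, ?_, (mul_div_cancel₀ z ht0).symm⟩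
    rw [hv.mem_iff hz0] at hz
    rw [hv.mem_iff (inv_ne_zero hz0), hv.map_inv hz0] at hz'
    rw [hv.mem_iff (div_ne_zero hz0 ht0), hv.map_div hz0 ht0]
    omega
  · intro z
    by_cases hz0 : z = 0
    · exact ⟨0, by rw [hz0, mul_zero]; exact O.zero_mem⟩
    refine ⟨(-v z).toNat, ?_⟩
    rw [hv.mem_iff (mul_ne_zero (pow_ne_zero _ ht0) hz0), hv.map_mul (pow_ne_zero _ ht0) hz0,
      hv.map_pow ht0, ht]
    have := Int.self_le_toNat (-v z)
    omega

theorem der_aeval (k : IntermediateField ℂ K) (E : Derivation ℂ K K) (hE : ∀ z ∈ k, E z ∈ k)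
    (a : K) (p : k[X]) : ∃ q : k[X], E (aeval a p) = aeval a q + aeval a (derivative p) * E a := by
  induction p using Polynomial.induction_on with
  | C c =>
    refine ⟨C ⟨E c, hE c c.2⟩, ?_⟩
    rw [aeval_C, aeval_C, derivative_C, map_zero, zero_mul, add_zero]
    rfl
  | add p q hp hq =>
    obtain ⟨p', hp'⟩ := hp
    obtain ⟨q', hq'⟩ := hq
    refine ⟨p' + q', ?_⟩
    rw [map_add, map_add, hp', hq', derivative_add, map_add, map_add]
    ring
  | monomial n c h =>
    obtain ⟨p', hp'⟩ := h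
    refine ⟨X * p', ?_⟩
    have h1 : (C c * X ^ (n + 1) : k[X]) = C c * X ^ n * X := by
      rw [pow_succ, mul_assoc]
    have h2 : derivative (C c * X ^ n * X : k[X]) =
        derivative (C c * X ^ n) * X + C c * X ^ n := by
      rw [derivative_mul, derivative_X, mul_one]
    rw [h1, h2, map_mul (aeval a) (C c * X ^ n) X, Derivation.leibniz, hp', aeval_X, smul_eq_mul,
      smul_eq_mul, map_add, map_mul (aeval a) X, map_mul (aeval a) (derivative _), aeval_X]
    ring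

/-- A derivation which preserves a subfield `L ⊆ O` over which the residue field is algebraic, kills a
uniformizer and has bounded poles on `O`, preserves the place. -/
theorem der_mem_place (L : IntermediateField ℂ K) (E : Derivation ℂ K K)
    (hE : ∀ z ∈ L, E z ∈ L) (O : ValuationSubring K) (hL : ∀ z ∈ L, z ∈ O) {t : K} (ht : t ∈ O)
    (ht' : t⁻¹ ∉ O) (hunif : ∀ z ∈ O, z⁻¹ ∉ O → ∃ s ∈ O, z = t * s)
    (hres : ∀ a ∈ O, ∃ p : L[X], p ≠ 0 ∧ ∃ s ∈ O, aeval a p = t * s)
    (hbound : ∃ N : ℕ, ∀ a ∈ O, t ^ N * E a ∈ O) (hEt : E t = 0) :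
    ∀ a ∈ O, E a ∈ O := by
  have hdesc : ∀ N : ℕ, (∀ a ∈ O, t ^ N * E a ∈ O) → ∀ a ∈ O, E a ∈ O := by
    intro N
    induction N with
    | zero =>
      intro h1 a ha
      have := h1 a ha
      rwa [pow_zero, one_mul] at this
    | succ N ih =>
      intro h1
      apply ih
      intro a ha
      obtain ⟨p, ⟨s, hs, hps⟩, hp0, hp⟩ := exists_residue_poly O (fun c : L => hL c c.2) ht'
        hunif ha (hres a ha)
      obtain ⟨q, hq⟩ := der_aeval L E hE a p
      rw [hps, Derivation.leibniz, hEt, smul_eq_mul, smul_zero, add_zero] at hq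
      have h2 : t ^ N * E a = (aeval a (derivative p))⁻¹ * (t ^ (N + 1) * E s -
          t ^ N * aeval a q) := by
        rw [eq_inv_mul_iff_mul_eq₀ hp0]
        linear_combination (-t ^ N) * hq
      rw [h2]
      exact O.mul_mem _ _ hp (sub_mem (h1 s hs)
        (O.mul_mem _ _ (pow_mem ht _) (aeval_mem O (fun c : L => hL c c.2) ha _)))
  obtain ⟨N, hN⟩ := hbound
  exact hdesc N hN

/-- bounded poles -/
theorem exists_bound (k : IntermediateField ℂ K) (E : Derivation ℂ K K)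
    (hE : ∀ z ∈ k, E z ∈ k) (O : ValuationSubring K) {t : K} (ht : t ∈ O)
    (hN : ∀ z : K, ∃ N : ℕ, t ^ N * z ∈ O) (T : Finset K)
    (hTO : ∀ r ∈ Algebra.adjoin ℂ ((k : Set K) ∪ T), r ∈ O)
    (hloc : ∀ z ∈ O, ∃ b ∈ Algebra.adjoin ℂ ((k : Set K) ∪ T),
      ∃ s ∈ Algebra.adjoin ℂ ((k : Set K) ∪ T), s ≠ 0 ∧ s⁻¹ ∈ O ∧ z = b / s) :
    ∃ N : ℕ, ∀ a ∈ O, t ^ N * E a ∈ O := by
  choose N hN using hN
  have hpow : ∀ (n m : ℕ) (z : K), n ≤ m → t ^ n * z ∈ O → t ^ m * z ∈ O := by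
    intro n m z hnm hz
    rw [← Nat.sub_add_cancel hnm, pow_add, mul_assoc]
    exact O.mul_mem _ _ (pow_mem ht _) hz
  refine ⟨T.sup fun s => N (E s), ?_⟩
  set M := T.sup fun s => N (E s)
  have hkO : ∀ z ∈ k, z ∈ O := fun z hz => hTO z (Algebra.subset_adjoin (Or.inl hz))
  have h1 : ∀ b ∈ Algebra.adjoin ℂ ((k : Set K) ∪ T), t ^ M * E b ∈ O := by
    intro b hb
    induction hb using Algebra.adjoin_induction with
    | mem x hx =>
      rcases hx with hx | hx
      · exact O.mul_mem _ _ (pow_mem ht _) (hkO _ (hE x hx))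
      · exact hpow _ _ _ (Finset.le_sup (f := fun s => N (E s)) hx) (hN _)
    | algebraMap c =>
      rw [Derivation.map_algebraMap, mul_zero]
      exact O.zero_mem
    | add x y _ _ hx hy =>
      rw [map_add, mul_add]
      exact O.add_mem _ _ hx hy
    | mul x y hx' hy' hx hy =>
      rw [Derivation.leibniz, smul_eq_mul, smul_eq_mul]
      have h2 : t ^ M * (x * E y + y * E x) = x * (t ^ M * E y) + y * (t ^ M * E x) := by ring
      rw [h2]
      exact O.add_mem _ _ (O.mul_mem _ _ (hTO x hx') hy) (O.mul_mem _ _ (hTO y hy') hx)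
  intro a ha
  obtain ⟨b, hb, s, hs, hs0, hs', rfl⟩ := hloc a ha
  have h3 : t ^ M * E (b / s) = s⁻¹ * (t ^ M * E b) - b * (s⁻¹ * s⁻¹) * (t ^ M * E s) := by
    rw [Derivation.leibniz_div]
    simp only [smul_eq_mul]
    field_simp
  rw [h3]
  refine sub_mem (O.mul_mem _ _ hs' (h1 b hb)) (O.mul_mem _ _ (O.mul_mem _ _ (hTO b hb)
    (O.mul_mem _ _ hs' hs')) (h1 s hs))

end Lift

end Pool.Agent.CampanaFlow
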