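import Pool.Agent.Lib_MP_1209e6_fl.S4

/-! PIECE S4b: existence of local lifts. -/

set_option autoImplicit false

namespace Pool.Agent.CampanaFlow

open Polynomial Pool.Agent.Campana

variable {K : Type} [Field K] [Algebra ℂ K]

/-- a derivation which kills a transcendence basis of `k` kills `k` -/
theorem der_kills {ι : Type} (k : IntermediateField ℂ K) (y : ι → k)
    (hy : IsTranscendenceBasis ℂ y) (δ : Derivation ℂ K K) (hδ : ∀ i, δ (y i : K) = 0) :
    ∀ z ∈ k, δ z = 0 := by
  intro z hz
  refine derivation_eq_zero δ (IntermediateField.adjoin ℂ (Set.range fun i => (y i : K)))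
    (fun x hx => RatPlace.der_adjoin_zero δ _ ?_ x hx) z ?_
  · rintro _ ⟨i, rfl⟩
    exact hδ i
  · by_contra hcon
    have h0 : AlgebraicIndependent ℂ (fun i => (y i : K)) :=
      hy.1.map' (f := k.val) k.val.injective
    have h1 : Transcendental (Algebra.adjoin ℂ (Set.range fun i => (y i : K))) z := fun h =>
      hcon (IntermediateField.isAlgebraic_adjoin_iff.mpr h)
    have h2 := (h0.option_iff_transcendental z).2 h1
    have h3 : AlgebraicIndependent ℂ (fun o : Option ι => o.elim (⟨z, hz⟩ : k) y) := by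
      refine AlgebraicIndependent.of_comp k.val ?_
      convert h2 using 1
      ext o
      cases o <;> rfl
    have h4 := (hy.1.option_iff_transcendental _).1 h3
    exact h4 (hy.isAlgebraic.isAlgebraic _)

omit [Algebra ℂ K] in
theorem inv_mem_of_residue_ne_zero (O : ValuationSubring K) (a : O)
    (ha : IsLocalRing.residue O a ≠ 0) : (a : K) ≠ 0 ∧ ((a : K))⁻¹ ∈ O := by
  rw [Ne, IsLocalRing.residue_eq_zero_iff, IsLocalRing.mem_maximalIdeal, mem_nonunits_iff,
    not_not] at ha
  obtain ⟨b, hb⟩ := isUnit_iff_exists_inv.1 ha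
  have h1 : (a : K) * b = 1 := congrArg Subtype.val hb
  refine ⟨left_ne_zero_of_mul_eq_one h1, ?_⟩
  rw [inv_eq_of_mul_eq_one_right h1]
  exact b.2

omit [Algebra ℂ K] in
theorem inv_not_mem_of_residue_eq_zero (O : ValuationSubring K) (a : O) (ha0 : (a : K) ≠ 0)
    (ha : IsLocalRing.residue O a = 0) : ((a : K))⁻¹ ∉ O := by
  intro h
  rw [IsLocalRing.residue_eq_zero_iff, IsLocalRing.mem_maximalIdeal, mem_nonunits_iff] at ha
  exact ha (isUnit_iff_exists_inv.2 ⟨⟨_, h⟩, Subtype.ext (mul_inv_cancel₀ ha0)⟩)

theorem exists_lift (k : IntermediateField ℂ K) (O : ValuationSubring K) (hO : IsPlace O)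
    (T : Finset K)
    (hTO : ∀ r ∈ Algebra.adjoin ℂ ((k : Set K) ∪ T), r ∈ O)
    (hloc : ∀ z ∈ O, ∃ b ∈ Algebra.adjoin ℂ ((k : Set K) ∪ T),
      ∃ s ∈ Algebra.adjoin ℂ ((k : Set K) ∪ T), s ≠ 0 ∧ s⁻¹ ∈ O ∧ z = b / s)
    (E : Derivation ℂ K K) (hE : ∀ z ∈ k, E z ∈ k) :
    ∃ E' : Derivation ℂ K K, (∀ z ∈ k, E' z = E z) ∧ ∀ z ∈ O, E' z ∈ O := by
  have hkO : ∀ z ∈ k, z ∈ O := fun z hz => hTO z (Algebra.subset_adjoin (Or.inl hz))
  obtain ⟨t, ht, ht0, ht', hunif, hN⟩ := exists_uniformizer O hO
  let φ : k →+* O :=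
    { toFun := fun a => ⟨a, hkO a a.2⟩
      map_one' := rfl
      map_mul' := fun a b => rfl
      map_zero' := rfl
      map_add' := fun a b => rfl }
  let _ : Algebra k O := φ.toAlgebra
  have htower : IsScalarTower k O K := IsScalarTower.of_algebraMap_eq fun x => rfl
  obtain ⟨s, hs⟩ := exists_isTranscendenceBasis k (IsLocalRing.ResidueField O)
  have hsurj : ∀ i : s, ∃ x : O, IsLocalRing.residue O x = i := fun i =>
    IsLocalRing.residue_surjective _
  choose T' hT' using hsurj
  let ρ : O →ₐ[k] IsLocalRing.ResidueField O :=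
    { IsLocalRing.residue O with commutes' := fun r => rfl }
  have hρ : ∀ x, ρ x = IsLocalRing.residue O x := fun x => rfl
  have hindO : AlgebraicIndependent k T' := by
    refine AlgebraicIndependent.of_comp ρ ?_
    convert hs.1 using 1
    ext i
    exact hT' i
  let ν : O →ₐ[k] K := IsScalarTower.toAlgHom k O K
  have hν : ∀ x, ν x = (x : K) := fun x => rfl
  have hindK : AlgebraicIndependent k (fun i => (T' i : K)) :=
    hindO.map' (f := ν) Subtype.val_injective
  -- the polynomials in the lifts
  have hinj : ∀ x ∈ Algebra.adjoin k (Set.range T'), ρ x = 0 → x = 0 := by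
    intro x hx h0
    rw [Algebra.adjoin_range_eq_range_aeval] at hx
    obtain ⟨P, rfl⟩ := hx
    have h1 : MvPolynomial.aeval (fun i : s => (i : IsLocalRing.ResidueField O)) P = 0 := by
      rw [← h0]
      change _ = ρ (MvPolynomial.aeval T' P)
      rw [MvPolynomial.comp_aeval_apply]
      congr 2
      ext i
      exact (hT' i).symm
    have h2 := (algebraicIndependent_iff.1 hs.1) P h1
    rw [h2]
    exact map_zero _
  have himage : ∀ x ∈ Algebra.adjoin k (Set.range fun i => (T' i : K)),
      ∃ x' ∈ Algebra.adjoin k (Set.range T'), (x' : K) = x := by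
    intro x hx
    have h1 : Algebra.adjoin k (Set.range fun i => (T' i : K)) =
        (Algebra.adjoin k (Set.range T')).map ν := by
      rw [AlgHom.map_adjoin, ← Set.range_comp]
      rfl
    rw [h1] at hx
    exact hx
  have hunit : ∀ x ∈ Algebra.adjoin k (Set.range T'), x ≠ 0 → (x : K)⁻¹ ∈ O := fun x hx hx0 =>
    (inv_mem_of_residue_ne_zero O x fun h => hx0 (hinj x hx h)).2
  set L : IntermediateField ℂ K :=
    (IntermediateField.adjoin k (Set.range fun i => (T' i : K))).restrictScalars ℂ with hLdef
  have hmemL : ∀ z, z ∈ L ↔ z ∈ IntermediateField.adjoin k (Set.range fun i => (T' i : K)) :=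
    fun z => Iff.rfl
  have hL : ∀ z ∈ L, z ∈ O := by
    intro z hz
    rw [hmemL, IntermediateField.mem_adjoin_iff_div] at hz
    obtain ⟨r, hr, u, hu, rfl⟩ := hz
    obtain ⟨r', hr', rfl⟩ := himage r hr
    obtain ⟨u', hu', rfl⟩ := himage u hu
    by_cases hu0 : u' = 0
    · rw [hu0]
      simp [O.zero_mem]
    · rw [div_eq_mul_inv]
      exact O.mul_mem _ _ r'.2 (hunit u' hu' hu0)
  have hAL : ∀ x ∈ Algebra.adjoin k (Set.range T'), (x : K) ∈ L := by
    intro x hx
    rw [hmemL]
    apply IntermediateField.algebra_adjoin_le_adjoin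
    have h1 : Algebra.adjoin k (Set.range fun i => (T' i : K)) =
        (Algebra.adjoin k (Set.range T')).map ν := by
      rw [AlgHom.map_adjoin, ← Set.range_comp]
      rfl
    rw [h1]
    exact ⟨x, hx, rfl⟩
  -- the residue field is algebraic over `L`
  have hres : ∀ a ∈ O, ∃ p : L[X], p ≠ 0 ∧ ∃ s ∈ O, aeval a p = t * s := by
    intro a ha
    have halg := hs.isAlgebraic.isAlgebraic (IsLocalRing.residue O ⟨a, ha⟩)
    obtain ⟨P, hP0, hP⟩ := halg
    let ψ : Algebra.adjoin k (Set.range T') →+*
        Algebra.adjoin k (Set.range fun i : s => (i : IsLocalRing.ResidueField O)) :=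
      { toFun := fun x => ⟨ρ x, by
          have h1 : Algebra.adjoin k (Set.range fun i : s => (i : IsLocalRing.ResidueField O)) =
              (Algebra.adjoin k (Set.range T')).map ρ := by
            rw [AlgHom.map_adjoin, ← Set.range_comp]
            congr 2
            ext i
            exact (hT' i).symm
          rw [h1]
          exact ⟨x, x.2, rfl⟩⟩
        map_one' := Subtype.ext (map_one ρ)
        map_mul' := fun a b => Subtype.ext (map_mul ρ _ _)
        map_zero' := Subtype.ext (map_zero ρ)
        map_add' := fun a b => Subtype.ext (map_add ρ _ _) }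
    have hψ : Function.Surjective ψ := by
      rintro ⟨c, hc⟩
      have h1 : Algebra.adjoin k (Set.range fun i : s => (i : IsLocalRing.ResidueField O)) =
          (Algebra.adjoin k (Set.range T')).map ρ := by
        rw [AlgHom.map_adjoin, ← Set.range_comp]
        congr 2
        ext i
        exact (hT' i).symm
      have hc' := hc
      rw [h1] at hc'
      obtain ⟨x, hx, hxc⟩ := hc'
      exact ⟨⟨x, hx⟩, Subtype.ext hxc⟩
    obtain ⟨Q, hQ⟩ := Polynomial.map_surjective ψ hψ P
    have hQ0 : Q ≠ 0 := by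
      rintro rfl
      rw [Polynomial.map_zero] at hQ
      exact hP0 hQ.symm
    let ι' : Algebra.adjoin k (Set.range T') →+* L :=
      { toFun := fun x => ⟨((x : O) : K), hAL x x.2⟩
        map_one' := rfl
        map_mul' := fun a b => rfl
        map_zero' := rfl
        map_add' := fun a b => rfl }
    have hι' : Function.Injective ι' := by
      intro x y hxy
      have := congrArg Subtype.val hxy
      exact Subtype.ext (Subtype.ext this)
    have hval : aeval a (Q.map ι') = ((aeval (⟨a, ha⟩ : O) Q : O) : K) := by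
      rw [aeval_def, eval₂_map, aeval_def]
      exact (hom_eval₂ Q (algebraMap _ O) O.subtype ⟨a, ha⟩).symm
    refine ⟨Q.map ι', (Polynomial.map_ne_zero_iff hι').2 hQ0, ?_⟩
    have hres0 : IsLocalRing.residue O (aeval (⟨a, ha⟩ : O) Q) = 0 := by
      rw [← hP, ← hQ, aeval_def, hom_eval₂, aeval_def, eval₂_map]
      rfl
    rw [hval]
    by_cases h0 : ((aeval (⟨a, ha⟩ : O) Q : O) : K) = 0
    · exact ⟨0, O.zero_mem, by rw [h0, mul_zero]⟩
    · exact hunif _ (Subtype.property _) (inv_not_mem_of_residue_eq_zero O _ h0 hres0)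
  -- algebraic independence
  have htL : Transcendental L t := transcendental_of_inv_not_mem O (fun c : L => hL c c.2) ht'
  have htA : Transcendental (Algebra.adjoin k (Set.range fun i => (T' i : K))) t := by
    intro h
    apply htL
    have h1 : IsAlgebraic (IntermediateField.adjoin k (Set.range fun i => (T' i : K))) t :=
      IntermediateField.isAlgebraic_adjoin_iff.mpr h
    exact h1
  have hopt := (hindK.option_iff_transcendental t).2 htA
  obtain ⟨b, hb⟩ := exists_isTranscendenceBasis ℂ k
  have hall := hb.1.sumElim_comp hopt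
  obtain ⟨E', hE'⟩ := exists_derivation (k := ℂ) _ hall
    (Sum.elim (fun _ => (0 : K)) (fun i : b => E ((i : k) : K)))
  have hE'b : ∀ i : b, E' ((i : k) : K) = E ((i : k) : K) := fun i => hE' (Sum.inr i)
  have hE't : E' t = 0 := hE' (Sum.inl none)
  have hE'T : ∀ i, E' (T' i : K) = 0 := fun i => hE' (Sum.inl (some i))
  have hE'k : ∀ z ∈ k, E' z = E z := by
    intro z hz
    have h1 := der_kills k _ hb (E' - E) (fun i => by
      rw [Derivation.sub_apply, hE'b, sub_self]) z hz
    rwa [Derivation.sub_apply, sub_eq_zero] at h1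
  refine ⟨E', hE'k, ?_⟩
  have hE'L : ∀ z ∈ L, E' z ∈ L := by
    intro z hz
    rw [hmemL] at hz
    rw [hmemL]
    induction hz using IntermediateField.adjoin_induction with
    | mem x hx =>
      obtain ⟨i, rfl⟩ := hx
      rw [hE'T]
      exact zero_mem _
    | algebraMap x =>
      have h1 : E' (algebraMap k K x) = algebraMap k K ⟨E x, hE x x.2⟩ := hE'k x x.2
      rw [h1]
      exact IntermediateField.algebraMap_mem _ _
    | add x y hx hy h1 h2 =>
      rw [map_add]
      exact add_mem h1 h2
    | inv x hx h =>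
      rw [Derivation.leibniz_inv, smul_eq_mul]
      exact mul_mem (neg_mem (pow_mem (inv_mem hx) _)) h
    | mul x y hx hy h1 h2 =>
      rw [Derivation.leibniz, smul_eq_mul, smul_eq_mul]
      exact add_mem (mul_mem hx h2) (mul_mem hy h1)
  exact der_mem_place L E' hE'L O hL ht ht' hunif hres
    (exists_bound k E' (fun z hz => by rw [hE'k z hz]; exact hE z hz) O ht hN T hTO hloc) hE't

end Pool.Agent.CampanaFlow
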